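import Pool.Agent.LibPR3.Defs

set_option autoImplicit false

open Polynomial TensorProduct

namespace Pool.Agent.PR3

instance B_tower (F k : Type) [Field F] [Field k] [Algebra F k] (b D N : k[X]) :
    IsScalarTower F k (Cub k[X] b D N) :=
  IsScalarTower.of_algebraMap_eq fun x => by
    ext <;> simp [IsScalarTower.algebraMap_apply F k k[X]]

/-- The map `Cub F[X] b D N → Cub k[X] b' D' N'`. -/
noncomputable def B_map (F k : Type) [Field F] [Field k] [Algebra F k] (b D N : F[X]) :
    Cub F[X] b D N →ₐ[F]
      Cub k[X] (b.map (algebraMap F k)) (D.map (algebraMap F k)) (N.map (algebraMap F k)) where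
  toFun z := ⟨z.c0.map (algebraMap F k), z.c1.map (algebraMap F k), z.c2.map (algebraMap F k)⟩
  map_one' := by ext1 <;> simp
  map_mul' z w := by ext1 <;> simp
  map_zero' := by ext1 <;> simp
  map_add' z w := by ext1 <;> simp
  commutes' r := by
    ext1 <;> simp [IsScalarTower.algebraMap_apply F k k[X]]

/-- The `F`-basis `x^i e_j` of `Cub F[X] b D N`. -/
noncomputable def B_basis (F : Type) [Field F] (b D N : F[X]) :
    Module.Basis (ℕ × Fin 3) F (Cub F[X] b D N) :=
  (Polynomial.basisMonomials F).smulTower Cub.basis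

theorem B_basis_apply (F : Type) [Field F] (b D N : F[X]) (ij : ℕ × Fin 3) :
    B_basis F b D N ij = monomial ij.1 (1 : F) • Cub.basis ij.2 := by
  simp [B_basis, Module.Basis.smulTower_apply]

theorem B_map_basis (F k : Type) [Field F] [Field k] [Algebra F k] (b D N : F[X])
    (ij : ℕ × Fin 3) :
    B_map F k b D N (B_basis F b D N ij) = B_basis k (b.map (algebraMap F k))
      (D.map (algebraMap F k)) (N.map (algebraMap F k)) ij := by
  rw [B_basis_apply, B_basis_apply]
  obtain ⟨i, j⟩ := ij
  fin_cases j <;> ext1 <;>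
    simp [B_map, Cub.basis, Cub.equivFun, Module.Basis.coe_ofEquivFun]

/-- Base change of the coordinate ring. -/
theorem baseChange (F k : Type) [Field F] [Field k] [Algebra F k] (b D N : F[X]) :
    Nonempty ((k ⊗[F] Cub F[X] b D N) ≃ₐ[k]
      Cub k[X] (b.map (algebraMap F k)) (D.map (algebraMap F k)) (N.map (algebraMap F k))) := by
  let Φ : (k ⊗[F] Cub F[X] b D N) →ₐ[k]
      Cub k[X] (b.map (algebraMap F k)) (D.map (algebraMap F k)) (N.map (algebraMap F k)) :=
    Algebra.TensorProduct.lift (Algebra.ofId k _) (B_map F k b D N) (fun _ _ => mul_comm _ _)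
  let e := (Algebra.TensorProduct.basis k (B_basis F b D N)).equiv
    (B_basis k (b.map (algebraMap F k)) (D.map (algebraMap F k)) (N.map (algebraMap F k)))
    (Equiv.refl _)
  have he : Φ.toLinearMap = e.toLinearMap := by
    apply (Algebra.TensorProduct.basis k (B_basis F b D N)).ext
    intro ij
    have h1 : e (Algebra.TensorProduct.basis k (B_basis F b D N) ij) =
        B_basis k (b.map (algebraMap F k)) (D.map (algebraMap F k)) (N.map (algebraMap F k)) ij :=
      Module.Basis.equiv_apply _ _ _ _
    rw [AlgHom.toLinearMap_apply, LinearEquiv.coe_coe, h1]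
    simp only [Algebra.TensorProduct.basis_apply, Φ, Algebra.TensorProduct.lift_tmul,
      map_one, one_mul, B_map_basis]
  have hbij : Function.Bijective Φ := by
    have h1 : (Φ : (k ⊗[F] Cub F[X] b D N) → _) = e := by
      funext x
      exact LinearMap.congr_fun he x
    rw [h1]
    exact e.bijective
  exact ⟨AlgEquiv.ofBijective Φ hbij⟩

theorem data_map (F k : Type) [Field F] [Field k] [Algebra F k] (b D N : F[X]) (j : ℕ)
    (h : Data F b D N j) :
    Data k (b.map (algebraMap F k)) (D.map (algebraMap F k)) (N.map (algebraMap F k)) j where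
  b_monic := h.b_monic.map _
  b_sep := h.b_sep.map
  b_deg := by rw [natDegree_map]; exact h.b_deg
  D_monic := h.D_monic.map _
  D_sep := h.D_sep.map
  hbD := h.hbD.map (mapRingHom (algebraMap F k))
  hND := h.hND.map (mapRingHom (algebraMap F k))
  N_deg := by rw [natDegree_map, natDegree_map]; exact h.N_deg
  hj := h.hj
  h3 := by rw [natDegree_map]; exact h.h3

end Pool.Agent.PR3
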