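import Pool.Agent.LibPR3.Defs

set_option autoImplicit false

open Polynomial

namespace Pool.Agent.PR3

theorem C3_small {k : Type} [Field k] (m : ℕ) (p : k[X]) (h : p ≠ 0 → p.natDegree < m) :
    p ∈ degreeLT k m := by
  rw [mem_degreeLT]
  by_cases hp : p = 0
  · rw [hp, degree_zero]
    exact WithBot.bot_lt_coe m
  · rw [degree_eq_natDegree hp]
    exact_mod_cast h hp

theorem C3_add {k : Type} [Field k] (m : ℕ) (t r s : k[X]) (ht : t ≠ 0) (htd : t.natDegree = m)
    (hr : r ∈ degreeLT k m) (hs : s = t + r) : s ≠ 0 ∧ s.natDegree = m := by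
  subst hs
  rw [mem_degreeLT] at hr
  have h1 : t.degree = m := by
    rw [degree_eq_natDegree ht, htd]
  have h2 : (t + r).degree = m := by
    rw [degree_add_eq_left_of_degree_lt (by rw [h1]; exact hr), h1]
  refine ⟨?_, natDegree_eq_of_degree_eq_some h2⟩
  intro h3
  rw [h3, degree_zero] at h2
  exact absurd h2 (by simp)

section terms

variable {k : Type} [Field k] {b D N : k[X]} {j : ℕ}

theorem C3_N (h : Data k b D N j) : N ≠ 0 := by
  intro hN
  have h1 := h.N_deg
  rw [hN, natDegree_zero] at h1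
  have h2 := h.hj
  omega

theorem C3_T1 (h : Data k b D N j) (p : k[X]) (hp : p ≠ 0) :
    p ^ 3 * (b ^ 2 * D ^ 2 * N) ≠ 0 ∧
    (p ^ 3 * (b ^ 2 * D ^ 2 * N)).natDegree = 3 * p.natDegree + w1 b D j := by
  have hb := h.b_monic.ne_zero
  have hD := h.D_monic.ne_zero
  have hN := C3_N h
  have h1 : p ^ 3 * (b ^ 2 * D ^ 2 * N) ≠ 0 := by positivity
  refine ⟨h1, ?_⟩
  rw [natDegree_mul (by positivity) (by positivity), natDegree_mul (by positivity) hN,
    natDegree_mul (by positivity) (by positivity), natDegree_pow, natDegree_pow, natDegree_pow,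
    h.N_deg, w1]
  ring

theorem C3_T2 (h : Data k b D N j) (p : k[X]) (hp : p ≠ 0) :
    p ^ 3 * (b * D * N ^ 2) ≠ 0 ∧
    (p ^ 3 * (b * D * N ^ 2)).natDegree = 3 * p.natDegree + w2 b D j := by
  have hb := h.b_monic.ne_zero
  have hD := h.D_monic.ne_zero
  have hN := C3_N h
  have h1 : p ^ 3 * (b * D * N ^ 2) ≠ 0 := by positivity
  refine ⟨h1, ?_⟩
  rw [natDegree_mul (by positivity) (by positivity), natDegree_mul (by positivity) (by positivity),
    natDegree_mul (by positivity) (by positivity), natDegree_pow, natDegree_pow,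
    h.N_deg, w2]
  ring

theorem C3_main (h : Data k b D N j) (z : Cub k[X] b D N) (m : ℕ)
    (h0 : z.c0 = 0 ∨ 3 * z.c0.natDegree ≤ m) (h1 : z.c1 = 0 ∨ 3 * z.c1.natDegree + w1 b D j ≤ m)
    (h2 : z.c2 = 0 ∨ 3 * z.c2.natDegree + w2 b D j ≤ m) :
    2 * z.c0 ^ 2 * z.c2 * D + z.c0 * z.c2 ^ 2 * D ^ 2 - z.c0 * z.c1 ^ 2 * (b * D ^ 2) -
    3 * z.c0 * z.c1 * z.c2 * (b * D * N) - z.c1 * z.c2 ^ 2 * (b * D ^ 2 * N) ∈ degreeLT k m := by
  have hb := h.b_monic.ne_zero
  have hD := h.D_monic.ne_zero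
  have hN := C3_N h
  have hNd := h.N_deg
  have hj := h.hj
  have h3 := h.h3
  unfold w1 at h1
  unfold w2 at h2
  have B1 : z.c0 ^ 2 * z.c2 * D ∈ degreeLT k m := by
    apply C3_small
    intro hp
    have hc0 : z.c0 ≠ 0 := by intro hh; apply hp; rw [hh]; ring
    have hc2 : z.c2 ≠ 0 := by intro hh; apply hp; rw [hh]; ring
    rw [natDegree_mul (by positivity) hD, natDegree_mul (by positivity) hc2, natDegree_pow]
    have g0 := h0.resolve_left hc0
    have g2 := h2.resolve_left hc2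
    omega
  have B2 : z.c0 * z.c2 ^ 2 * D ^ 2 ∈ degreeLT k m := by
    apply C3_small
    intro hp
    have hc0 : z.c0 ≠ 0 := by intro hh; apply hp; rw [hh]; ring
    have hc2 : z.c2 ≠ 0 := by intro hh; apply hp; rw [hh]; ring
    rw [natDegree_mul (by positivity) (by positivity), natDegree_mul (by positivity) (by positivity),
      natDegree_pow, natDegree_pow]
    have g0 := h0.resolve_left hc0
    have g2 := h2.resolve_left hc2
    omega
  have B3 : z.c0 * z.c1 ^ 2 * (b * D ^ 2) ∈ degreeLT k m := by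
    apply C3_small
    intro hp
    have hc0 : z.c0 ≠ 0 := by intro hh; apply hp; rw [hh]; ring
    have hc1 : z.c1 ≠ 0 := by intro hh; apply hp; rw [hh]; ring
    rw [natDegree_mul (by positivity) (by positivity), natDegree_mul (by positivity) (by positivity),
      natDegree_mul (by positivity) (by positivity), natDegree_pow, natDegree_pow]
    have g0 := h0.resolve_left hc0
    have g1 := h1.resolve_left hc1
    omega
  have B4 : z.c0 * z.c1 * z.c2 * (b * D * N) ∈ degreeLT k m := by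
    apply C3_small
    intro hp
    have hc0 : z.c0 ≠ 0 := by intro hh; apply hp; rw [hh]; ring
    have hc1 : z.c1 ≠ 0 := by intro hh; apply hp; rw [hh]; ring
    have hc2 : z.c2 ≠ 0 := by intro hh; apply hp; rw [hh]; ring
    rw [natDegree_mul (by positivity) (by positivity), natDegree_mul (by positivity) (by positivity),
      natDegree_mul (by positivity) (by positivity), natDegree_mul (by positivity) (by positivity),
      natDegree_mul (by positivity) (by positivity)]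
    have g0 := h0.resolve_left hc0
    have g1 := h1.resolve_left hc1
    have g2 := h2.resolve_left hc2
    omega
  have B5 : z.c1 * z.c2 ^ 2 * (b * D ^ 2 * N) ∈ degreeLT k m := by
    apply C3_small
    intro hp
    have hc1 : z.c1 ≠ 0 := by intro hh; apply hp; rw [hh]; ring
    have hc2 : z.c2 ≠ 0 := by intro hh; apply hp; rw [hh]; ring
    rw [natDegree_mul (by positivity) (by positivity), natDegree_mul (by positivity) (by positivity),
      natDegree_mul (by positivity) (by positivity), natDegree_mul (by positivity) (by positivity),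
      natDegree_pow, natDegree_pow]
    have g1 := h1.resolve_left hc1
    have g2 := h2.resolve_left hc2
    omega
  have e : 2 * z.c0 ^ 2 * z.c2 * D + z.c0 * z.c2 ^ 2 * D ^ 2 - z.c0 * z.c1 ^ 2 * (b * D ^ 2) -
      3 * z.c0 * z.c1 * z.c2 * (b * D * N) - z.c1 * z.c2 ^ 2 * (b * D ^ 2 * N) =
      (2 : ℕ) • (z.c0 ^ 2 * z.c2 * D) + z.c0 * z.c2 ^ 2 * D ^ 2 - z.c0 * z.c1 ^ 2 * (b * D ^ 2) -
      (3 : ℕ) • (z.c0 * z.c1 * z.c2 * (b * D * N)) - z.c1 * z.c2 ^ 2 * (b * D ^ 2 * N) := by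
    simp only [nsmul_eq_mul]
    push_cast
    ring
  rw [e]
  exact Submodule.sub_mem _ (Submodule.sub_mem _ (Submodule.sub_mem _ (Submodule.add_mem _
    (nsmul_mem B1 2) B2) B3) (nsmul_mem B4 3)) B5

theorem C3_case (h : Data k b D N j) (z : Cub k[X] b D N) (hz : z ≠ 0) :
    (z.c0 ≠ 0 ∧ Below z.c1 (w1 b D j) (3 * z.c0.natDegree) ∧
        Below z.c2 (w2 b D j) (3 * z.c0.natDegree)) ∨
    (z.c1 ≠ 0 ∧ Below z.c0 0 (3 * z.c1.natDegree + w1 b D j) ∧
        Below z.c2 (w2 b D j) (3 * z.c1.natDegree + w1 b D j)) ∨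
    (z.c2 ≠ 0 ∧ Below z.c0 0 (3 * z.c2.natDegree + w2 b D j) ∧
        Below z.c1 (w1 b D j) (3 * z.c2.natDegree + w2 b D j)) := by
  have h3 := h.h3
  unfold Below w1 w2
  by_cases hc0 : z.c0 = 0 <;> by_cases hc1 : z.c1 = 0 <;> by_cases hc2 : z.c2 = 0
  · exact absurd (Cub.ext hc0 hc1 hc2) hz
  all_goals
    simp only [hc0, hc1, hc2, ne_eq, not_true_eq_false, not_false_eq_true, true_and, false_and,
      true_or, false_or, or_true, or_false, and_true, and_self]
    try omega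

end terms

/-- The norm of a nonzero element has the degree of its dominant term. -/
theorem nrm_dominant {k : Type} [Field k] {b D N : k[X]} {j : ℕ} (h : Data k b D N j)
    (z : Cub k[X] b D N) (hz : z ≠ 0) :
    Cub.nrm z ≠ 0 ∧
    ((z.c0 ≠ 0 ∧ deg z = 3 * z.c0.natDegree ∧ Below z.c1 (w1 b D j) (deg z) ∧
        Below z.c2 (w2 b D j) (deg z)) ∨
      (z.c1 ≠ 0 ∧ deg z = 3 * z.c1.natDegree + w1 b D j ∧ Below z.c0 0 (deg z) ∧
        Below z.c2 (w2 b D j) (deg z)) ∨
      (z.c2 ≠ 0 ∧ deg z = 3 * z.c2.natDegree + w2 b D j ∧ Below z.c0 0 (deg z) ∧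
        Below z.c1 (w1 b D j) (deg z))) := by
  have t0 : ∀ m, Below z.c0 0 m → z.c0 ^ 3 ∈ degreeLT k m := by
    intro m hm
    apply C3_small
    intro hp
    have hc : z.c0 ≠ 0 := by intro hh; apply hp; rw [hh]; ring
    have := hm.resolve_left hc
    rw [natDegree_pow]
    omega
  have t1 : ∀ m, Below z.c1 (w1 b D j) m → z.c1 ^ 3 * (b ^ 2 * D ^ 2 * N) ∈ degreeLT k m := by
    intro m hm
    apply C3_small
    intro hp
    have hc : z.c1 ≠ 0 := by intro hh; apply hp; rw [hh]; ring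
    have := hm.resolve_left hc
    rw [(C3_T1 h _ hc).2]
    exact this
  have t2 : ∀ m, Below z.c2 (w2 b D j) m → z.c2 ^ 3 * (b * D * N ^ 2) ∈ degreeLT k m := by
    intro m hm
    apply C3_small
    intro hp
    have hc : z.c2 ≠ 0 := by intro hh; apply hp; rw [hh]; ring
    have := hm.resolve_left hc
    rw [(C3_T2 h _ hc).2]
    exact this
  rcases C3_case h z hz with ⟨hc, ha, hb⟩ | ⟨hc, ha, hb⟩ | ⟨hc, ha, hb⟩
  · have hr := C3_main h z (3 * z.c0.natDegree) (Or.inr le_rfl) (ha.imp_right le_of_lt)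
      (hb.imp_right le_of_lt)
    obtain ⟨e1, e2⟩ := C3_add (3 * z.c0.natDegree) (z.c0 ^ 3) _ (Cub.nrm z) (pow_ne_zero 3 hc)
      (by rw [natDegree_pow]) (Submodule.add_mem _ (Submodule.add_mem _ (t1 _ ha) (t2 _ hb)) hr)
      (by unfold Cub.nrm; ring)
    have e3 : deg z = 3 * z.c0.natDegree := e2
    refine ⟨e1, Or.inl ⟨hc, e3, ?_, ?_⟩⟩
    · rw [e3]; exact ha
    · rw [e3]; exact hb
  · have hr := C3_main h z (3 * z.c1.natDegree + w1 b D j) (ha.imp_right le_of_lt) (Or.inr le_rfl)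
      (hb.imp_right le_of_lt)
    obtain ⟨e1, e2⟩ := C3_add (3 * z.c1.natDegree + w1 b D j) (z.c1 ^ 3 * (b ^ 2 * D ^ 2 * N)) _
      (Cub.nrm z) (C3_T1 h _ hc).1 (C3_T1 h _ hc).2
      (Submodule.add_mem _ (Submodule.add_mem _ (t0 _ ha) (t2 _ hb)) hr)
      (by unfold Cub.nrm; ring)
    have e3 : deg z = 3 * z.c1.natDegree + w1 b D j := e2
    refine ⟨e1, Or.inr (Or.inl ⟨hc, e3, ?_, ?_⟩)⟩
    · rw [e3]; exact ha
    · rw [e3]; exact hb
  · have hr := C3_main h z (3 * z.c2.natDegree + w2 b D j) (ha.imp_right le_of_lt)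
      (hb.imp_right le_of_lt) (Or.inr le_rfl)
    obtain ⟨e1, e2⟩ := C3_add (3 * z.c2.natDegree + w2 b D j) (z.c2 ^ 3 * (b * D * N ^ 2)) _
      (Cub.nrm z) (C3_T2 h _ hc).1 (C3_T2 h _ hc).2
      (Submodule.add_mem _ (Submodule.add_mem _ (t0 _ ha) (t1 _ hb)) hr)
      (by unfold Cub.nrm; ring)
    have e3 : deg z = 3 * z.c2.natDegree + w2 b D j := e2
    refine ⟨e1, Or.inr (Or.inr ⟨hc, e3, ?_, ?_⟩)⟩
    · rw [e3]; exact ha
    · rw [e3]; exact hb

end Pool.Agent.PR3
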