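import Pool.Agent.LibPR3.C3

set_option autoImplicit false

open Polynomial

namespace Pool.Agent.PR3

/-- `p = 0` or `3 deg p + w ≤ m`. -/
def C4_le {k : Type} [Field k] (p : k[X]) (w m : ℕ) : Prop := p = 0 ∨ 3 * p.natDegree + w ≤ m

theorem C4_le_mono {k : Type} [Field k] {p : k[X]} {w m n : ℕ} (h : C4_le p w m) (hmn : m ≤ n) :
    C4_le p w n := by
  rcases h with h | h
  · exact Or.inl h
  · exact Or.inr (h.trans hmn)

theorem C4_le_of_below {k : Type} [Field k] {p : k[X]} {w m : ℕ} (h : Below p w m) :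
    C4_le p w m := by
  rcases h with h | h
  · exact Or.inl h
  · exact Or.inr h.le

theorem C4_le_add {k : Type} [Field k] {p q : k[X]} {w m : ℕ} (hp : C4_le p w m)
    (hq : C4_le q w m) : C4_le (p + q) w m := by
  rcases hp with rfl | hp
  · rwa [zero_add]
  · rcases hq with rfl | hq
    · rw [add_zero]
      exact Or.inr hp
    · refine Or.inr ?_
      have := natDegree_add_le p q
      omega

theorem C4_below_sub {k : Type} [Field k] {p q : k[X]} {w m : ℕ} (hp : Below p w m)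
    (hq : Below q w m) (c : k) : Below (p - C c * q) w m := by
  have h1 : (C c * q).natDegree ≤ q.natDegree := natDegree_C_mul_le c q
  have h2 := natDegree_sub_le p (C c * q)
  rcases hp with rfl | hp
  · rcases hq with rfl | hq
    · left
      simp
    · right
      rw [zero_sub, natDegree_neg]
      omega
  · rcases hq with rfl | hq
    · right
      simpa using hp
    · right
      omega

theorem C4_bound {k : Type} [Field k] {b D N : k[X]} {j : ℕ} (h : Data k b D N j)
    (z : Cub k[X] b D N) (hz : z ≠ 0) :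
    C4_le z.c0 0 (deg z) ∧ C4_le z.c1 (w1 b D j) (deg z) ∧ C4_le z.c2 (w2 b D j) (deg z) := by
  obtain ⟨-, h1 | h1 | h1⟩ := nrm_dominant h z hz
  · exact ⟨Or.inr h1.2.1.ge, C4_le_of_below h1.2.2.1, C4_le_of_below h1.2.2.2⟩
  · exact ⟨C4_le_of_below h1.2.2.1, Or.inr h1.2.1.ge, C4_le_of_below h1.2.2.2⟩
  · exact ⟨C4_le_of_below h1.2.2.1, C4_le_of_below h1.2.2.2, Or.inr h1.2.1.ge⟩

theorem C4_deg_le {k : Type} [Field k] {b D N : k[X]} {j : ℕ} (h : Data k b D N j)
    (z : Cub k[X] b D N) (hz : z ≠ 0) {m : ℕ} (h0 : C4_le z.c0 0 m)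
    (h1 : C4_le z.c1 (w1 b D j) m) (h2 : C4_le z.c2 (w2 b D j) m) : deg z ≤ m := by
  obtain ⟨-, h3 | h3 | h3⟩ := nrm_dominant h z hz
  · rw [h3.2.1]
    exact h0.resolve_left h3.1
  · rw [h3.2.1]
    exact h1.resolve_left h3.1
  · rw [h3.2.1]
    exact h2.resolve_left h3.1

theorem C4_deg_lt {k : Type} [Field k] {b D N : k[X]} {j : ℕ} (h : Data k b D N j)
    (z : Cub k[X] b D N) (hz : z ≠ 0) {m : ℕ} (h0 : Below z.c0 0 m)
    (h1 : Below z.c1 (w1 b D j) m) (h2 : Below z.c2 (w2 b D j) m) : deg z < m := by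
  obtain ⟨-, h3 | h3 | h3⟩ := nrm_dominant h z hz
  · rw [h3.2.1]
    exact h0.resolve_left h3.1
  · rw [h3.2.1]
    exact h1.resolve_left h3.1
  · rw [h3.2.1]
    exact h2.resolve_left h3.1

/-- cancelling the leading coefficient -/
theorem C4_cancel {k : Type} [Field k] {p q : k[X]} (hp : p ≠ 0) (hq : q ≠ 0) {w m : ℕ}
    (h1 : m = 3 * p.natDegree + w) (h2 : m = 3 * q.natDegree + w) :
    Below (p - C (p.leadingCoeff / q.leadingCoeff) * q) w m := by
  have hq' : q.leadingCoeff ≠ 0 := leadingCoeff_ne_zero.2 hq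
  have hp' : p.leadingCoeff ≠ 0 := leadingCoeff_ne_zero.2 hp
  have hc : p.leadingCoeff / q.leadingCoeff ≠ 0 := div_ne_zero hp' hq'
  have hd : p.natDegree = q.natDegree := by omega
  by_cases h3 : p - C (p.leadingCoeff / q.leadingCoeff) * q = 0
  · exact Or.inl h3
  · right
    have h4 : (p - C (p.leadingCoeff / q.leadingCoeff) * q).degree < p.degree := by
      apply degree_sub_lt_left
      · rw [degree_C_mul hc, degree_eq_natDegree hp, degree_eq_natDegree hq, hd]
      · exact hp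
      · rw [leadingCoeff_mul, leadingCoeff_C, div_mul_cancel₀ _ hq']
    have h5 := natDegree_lt_natDegree h3 h4
    omega

theorem isDomain {k : Type} [Field k] {b D N : k[X]} {j : ℕ} (h : Data k b D N j) :
    IsDomain (Cub k[X] b D N) := by
  have h1 : Nontrivial (Cub k[X] b D N) := ⟨⟨0, 1, fun h2 => by
    have h3 := congrArg Cub.c0 h2
    simp at h3⟩⟩
  have h2 : NoZeroDivisors (Cub k[X] b D N) := ⟨by
    intro z w hzw
    by_contra hcon
    push Not at hcon
    have h3 := Cub.nrm_mul z w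
    rw [hzw, Cub.nrm_zero] at h3
    exact mul_ne_zero (nrm_dominant h z hcon.1).1 (nrm_dominant h w hcon.2).1 h3.symm⟩
  exact NoZeroDivisors.to_isDomain _

theorem deg_mul {k : Type} [Field k] {b D N : k[X]} {j : ℕ} (h : Data k b D N j)
    (z w : Cub k[X] b D N) (hz : z ≠ 0) (hw : w ≠ 0) : deg (z * w) = deg z + deg w := by
  unfold deg
  rw [Cub.nrm_mul, natDegree_mul (nrm_dominant h z hz).1 (nrm_dominant h w hw).1]

theorem deg_add {k : Type} [Field k] {b D N : k[X]} {j : ℕ} (h : Data k b D N j)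
    (z w : Cub k[X] b D N) (hz : z ≠ 0) (hw : w ≠ 0) (hzw : z + w ≠ 0) :
    deg (z + w) ≤ max (deg z) (deg w) := by
  obtain ⟨a0, a1, a2⟩ := C4_bound h z hz
  obtain ⟨b0, b1, b2⟩ := C4_bound h w hw
  exact C4_deg_le h _ hzw
    (C4_le_add (C4_le_mono a0 (le_max_left _ _)) (C4_le_mono b0 (le_max_right _ _)))
    (C4_le_add (C4_le_mono a1 (le_max_left _ _)) (C4_le_mono b1 (le_max_right _ _)))
    (C4_le_add (C4_le_mono a2 (le_max_left _ _)) (C4_le_mono b2 (le_max_right _ _)))

theorem C4_sub_coord {k : Type} [Field k] {b D N : k[X]} (z w : Cub k[X] b D N) (c : k) :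
    (z - algebraMap k _ c * w).c0 = z.c0 - C c * w.c0 ∧
    (z - algebraMap k _ c * w).c1 = z.c1 - C c * w.c1 ∧
    (z - algebraMap k _ c * w).c2 = z.c2 - C c * w.c2 := by
  refine ⟨?_, ?_, ?_⟩ <;> simp [Polynomial.algebraMap_eq]

theorem deg_lead {k : Type} [Field k] {b D N : k[X]} {j : ℕ} (h : Data k b D N j)
    (z w : Cub k[X] b D N) (hz : z ≠ 0) (hw : w ≠ 0) (hzw : deg z = deg w) :
    ∃ c : k, z - algebraMap k _ c * w = 0 ∨ deg (z - algebraMap k _ c * w) < deg z := by
  have h3 := h.h3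
  have key : ∀ c : k, Below (z.c0 - C c * w.c0) 0 (deg z) →
      Below (z.c1 - C c * w.c1) (w1 b D j) (deg z) →
      Below (z.c2 - C c * w.c2) (w2 b D j) (deg z) →
      z - algebraMap k _ c * w = 0 ∨ deg (z - algebraMap k _ c * w) < deg z := by
    intro c h0 h1 h2
    by_cases hne : z - algebraMap k _ c * w = 0
    · exact Or.inl hne
    · obtain ⟨e0, e1, e2⟩ := C4_sub_coord z w c
      exact Or.inr (C4_deg_lt h _ hne (by rw [e0]; exact h0) (by rw [e1]; exact h1)
        (by rw [e2]; exact h2))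
  obtain ⟨-, a | a | a⟩ := nrm_dominant h z hz <;>
    obtain ⟨-, a' | a' | a'⟩ := nrm_dominant h w hw <;>
    rw [← hzw] at a' <;> obtain ⟨a1, a2, a3, a4⟩ := a <;> obtain ⟨b1, b2, b3, b4⟩ := a'
  · exact ⟨_, key _ (C4_cancel a1 b1 (by omega) (by omega)) (C4_below_sub a3 b3 _)
      (C4_below_sub a4 b4 _)⟩
  · exfalso
    unfold w1 at b2
    omega
  · exfalso
    unfold w2 at b2
    omega
  · exfalso
    unfold w1 at a2
    omega
  · exact ⟨_, key _ (C4_below_sub a3 b3 _) (C4_cancel a1 b1 a2 b2) (C4_below_sub a4 b4 _)⟩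
  · exfalso
    unfold w1 at a2
    unfold w2 at b2
    omega
  · exfalso
    unfold w2 at a2
    omega
  · exfalso
    unfold w2 at a2
    unfold w1 at b2
    omega
  · exact ⟨_, key _ (C4_below_sub a3 b3 _) (C4_below_sub a4 b4 _) (C4_cancel a1 b1 a2 b2)⟩

theorem C4_deg_one {k : Type} [Field k] {b D N : k[X]} : deg (1 : Cub k[X] b D N) = 0 := by
  unfold deg
  rw [Cub.nrm_one, natDegree_one]

theorem eq_const_of_isUnit {k : Type} [Field k] {b D N : k[X]} {j : ℕ} (h : Data k b D N j)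
    (z : Cub k[X] b D N) (hz : IsUnit z) : ∃ c : k, z = algebraMap k _ c := by
  have hdom := isDomain h
  have hz0 : z ≠ 0 := hz.ne_zero
  obtain ⟨w, hw⟩ := hz.exists_right_inv
  have hw0 : w ≠ 0 := right_ne_zero_of_mul_eq_one hw
  have h1 := deg_mul h z w hz0 hw0
  rw [hw, C4_deg_one] at h1
  have h2 : deg z = 0 := by omega
  obtain ⟨c, hc | hc⟩ := deg_lead h z 1 hz0 one_ne_zero (by rw [h2, C4_deg_one])
  · exact ⟨c, by rwa [mul_one, sub_eq_zero] at hc⟩
  · omega

theorem finiteType {k : Type} [Field k] (b D N : k[X]) :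
    Algebra.FiniteType k (Cub k[X] b D N) := by
  have h1 : Algebra.FiniteType k k[X] := inferInstance
  have h2 : Algebra.FiniteType k[X] (Cub k[X] b D N) := inferInstance
  exact h1.trans h2

theorem not_isField {k : Type} [Field k] {b D N : k[X]} {j : ℕ} (h : Data k b D N j) :
    ¬ IsField (Cub k[X] b D N) := by
  intro hF
  have hX : algebraMap k[X] (Cub k[X] b D N) X ≠ 0 := by
    intro h1
    have h2 := congrArg Cub.c0 h1
    simp at h2
  obtain ⟨w, hw⟩ := hF.mul_inv_cancel hX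
  obtain ⟨c, hc⟩ := eq_const_of_isUnit h _ (IsUnit.of_mul_eq_one w hw)
  have h2 := congrArg Cub.c0 hc
  rw [Cub.algebraMap_c0, Cub.algebraMap_c0, Algebra.algebraMap_self, RingHom.id_apply,
    Polynomial.algebraMap_eq] at h2
  exact X_ne_C c h2

/-- Residue fields at maximal ideals are the base field. -/
theorem residue {k A : Type} [Field k] [IsAlgClosed k] [CommRing A] [Algebra k A]
    [Algebra.FiniteType k A] (m : Ideal A) (hm : m.IsMaximal) (f : A) :
    ∃ c : k, f - algebraMap k A c ∈ m := by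
  let _ : Field (A ⧸ m) := Ideal.Quotient.field m
  have h1 : Algebra.FiniteType k (A ⧸ m) :=
    Algebra.FiniteType.of_surjective (Ideal.Quotient.mkₐ k m) (Ideal.Quotient.mkₐ_surjective k m)
  have h2 : Module.Finite k (A ⧸ m) := finite_of_finite_type_of_isJacobsonRing k (A ⧸ m)
  obtain ⟨c, hc⟩ := (IsAlgClosed.algebraMap_bijective_of_isIntegral (k := k) (K := A ⧸ m)).2
    (Ideal.Quotient.mk m f)
  refine ⟨c, ?_⟩
  rw [← Ideal.Quotient.eq_zero_iff_mem, map_sub, ← hc]
  exact sub_self _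

end Pool.Agent.PR3
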