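import Mathlib

set_option autoImplicit false

open Polynomial

namespace Pool.Agent.PR3

/-- The free `R`-module with basis `1, ω, θ`, with the commutative multiplication given by
`ω² = bDθ`, `ωθ = Dω + bDN`, `θ² = Dθ + Nω`. (If `u` is a root of `b u³ - u = N/D`, then
`ω = bDu`, `θ = bDu²` satisfy these relations.) -/
@[ext] structure Cub (R : Type) [CommRing R] (b D N : R) where
  /-- the coefficient of `1` -/
  c0 : R
  /-- the coefficient of `ω` -/
  c1 : R
  /-- the coefficient of `θ` -/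
  c2 : R

namespace Cub

variable {R : Type} [CommRing R] {b D N : R}

instance : Zero (Cub R b D N) := ⟨⟨0, 0, 0⟩⟩
instance : One (Cub R b D N) := ⟨⟨1, 0, 0⟩⟩
instance : Add (Cub R b D N) := ⟨fun z w => ⟨z.c0 + w.c0, z.c1 + w.c1, z.c2 + w.c2⟩⟩
instance : Neg (Cub R b D N) := ⟨fun z => ⟨-z.c0, -z.c1, -z.c2⟩⟩
instance : Sub (Cub R b D N) := ⟨fun z w => ⟨z.c0 - w.c0, z.c1 - w.c1, z.c2 - w.c2⟩⟩
instance : Mul (Cub R b D N) := ⟨fun z w =>
  ⟨z.c0 * w.c0 + b * D * N * (z.c1 * w.c2 + z.c2 * w.c1),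
   z.c0 * w.c1 + z.c1 * w.c0 + D * (z.c1 * w.c2 + z.c2 * w.c1) + N * (z.c2 * w.c2),
   z.c0 * w.c2 + z.c2 * w.c0 + b * D * (z.c1 * w.c1) + D * (z.c2 * w.c2)⟩⟩
instance {S : Type} [SMul S R] : SMul S (Cub R b D N) := ⟨fun s z => ⟨s • z.c0, s • z.c1, s • z.c2⟩⟩

@[simp] theorem zero_c0 : (0 : Cub R b D N).c0 = 0 := rfl
@[simp] theorem zero_c1 : (0 : Cub R b D N).c1 = 0 := rfl
@[simp] theorem zero_c2 : (0 : Cub R b D N).c2 = 0 := rfl
@[simp] theorem one_c0 : (1 : Cub R b D N).c0 = 1 := rfl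
@[simp] theorem one_c1 : (1 : Cub R b D N).c1 = 0 := rfl
@[simp] theorem one_c2 : (1 : Cub R b D N).c2 = 0 := rfl
@[simp] theorem add_c0 (z w : Cub R b D N) : (z + w).c0 = z.c0 + w.c0 := rfl
@[simp] theorem add_c1 (z w : Cub R b D N) : (z + w).c1 = z.c1 + w.c1 := rfl
@[simp] theorem add_c2 (z w : Cub R b D N) : (z + w).c2 = z.c2 + w.c2 := rfl
@[simp] theorem neg_c0 (z : Cub R b D N) : (-z).c0 = -z.c0 := rfl
@[simp] theorem neg_c1 (z : Cub R b D N) : (-z).c1 = -z.c1 := rfl
@[simp] theorem neg_c2 (z : Cub R b D N) : (-z).c2 = -z.c2 := rfl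
@[simp] theorem sub_c0 (z w : Cub R b D N) : (z - w).c0 = z.c0 - w.c0 := rfl
@[simp] theorem sub_c1 (z w : Cub R b D N) : (z - w).c1 = z.c1 - w.c1 := rfl
@[simp] theorem sub_c2 (z w : Cub R b D N) : (z - w).c2 = z.c2 - w.c2 := rfl
@[simp] theorem mul_c0 (z w : Cub R b D N) :
    (z * w).c0 = z.c0 * w.c0 + b * D * N * (z.c1 * w.c2 + z.c2 * w.c1) := rfl
@[simp] theorem mul_c1 (z w : Cub R b D N) :
    (z * w).c1 = z.c0 * w.c1 + z.c1 * w.c0 + D * (z.c1 * w.c2 + z.c2 * w.c1) +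
      N * (z.c2 * w.c2) := rfl
@[simp] theorem mul_c2 (z w : Cub R b D N) :
    (z * w).c2 = z.c0 * w.c2 + z.c2 * w.c0 + b * D * (z.c1 * w.c1) + D * (z.c2 * w.c2) := rfl
@[simp] theorem smul_c0 {S : Type} [SMul S R] (s : S) (z : Cub R b D N) :
    (s • z).c0 = s • z.c0 := rfl
@[simp] theorem smul_c1 {S : Type} [SMul S R] (s : S) (z : Cub R b D N) :
    (s • z).c1 = s • z.c1 := rfl
@[simp] theorem smul_c2 {S : Type} [SMul S R] (s : S) (z : Cub R b D N) :
    (s • z).c2 = s • z.c2 := rfl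

instance : CommRing (Cub R b D N) where
  add_assoc _ _ _ := by ext <;> simp [add_assoc]
  zero_add _ := by ext <;> simp
  add_zero _ := by ext <;> simp
  add_comm _ _ := by ext <;> simp [add_comm]
  neg_add_cancel _ := by ext <;> simp
  sub_eq_add_neg _ _ := by ext <;> simp [sub_eq_add_neg]
  mul_assoc _ _ _ := by ext <;> simp <;> ring
  one_mul _ := by ext <;> simp
  mul_one _ := by ext <;> simp
  left_distrib _ _ _ := by ext <;> simp <;> ring
  right_distrib _ _ _ := by ext <;> simp <;> ring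
  mul_comm _ _ := by ext <;> simp <;> ring
  zero_mul _ := by ext <;> simp
  mul_zero _ := by ext <;> simp
  nsmul := nsmulRec
  zsmul := zsmulRec

instance {S : Type} [CommSemiring S] [Algebra S R] : Algebra S (Cub R b D N) where
  algebraMap :=
    { toFun := fun s => ⟨algebraMap S R s, 0, 0⟩
      map_zero' := by ext <;> simp
      map_one' := by ext <;> simp
      map_add' := fun _ _ => by ext <;> simp
      map_mul' := fun _ _ => by ext <;> simp }
  commutes' := fun _ _ => mul_comm _ _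
  smul_def' := fun s z => by ext <;> simp [Algebra.smul_def]

@[simp] theorem algebraMap_c0 {S : Type} [CommSemiring S] [Algebra S R] (s : S) :
    (algebraMap S (Cub R b D N) s).c0 = algebraMap S R s := rfl
@[simp] theorem algebraMap_c1 {S : Type} [CommSemiring S] [Algebra S R] (s : S) :
    (algebraMap S (Cub R b D N) s).c1 = 0 := rfl
@[simp] theorem algebraMap_c2 {S : Type} [CommSemiring S] [Algebra S R] (s : S) :
    (algebraMap S (Cub R b D N) s).c2 = 0 := rfl

instance {S : Type} [CommSemiring S] [Algebra S R] : IsScalarTower S R (Cub R b D N) :=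
  IsScalarTower.of_algebraMap_eq fun _ => by ext <;> simp

/-- The element `ω`. -/
def om : Cub R b D N := ⟨0, 1, 0⟩
/-- The element `θ`. -/
def th : Cub R b D N := ⟨0, 0, 1⟩

@[simp] theorem om_c0 : (om : Cub R b D N).c0 = 0 := rfl
@[simp] theorem om_c1 : (om : Cub R b D N).c1 = 1 := rfl
@[simp] theorem om_c2 : (om : Cub R b D N).c2 = 0 := rfl
@[simp] theorem th_c0 : (th : Cub R b D N).c0 = 0 := rfl
@[simp] theorem th_c1 : (th : Cub R b D N).c1 = 0 := rfl
@[simp] theorem th_c2 : (th : Cub R b D N).c2 = 1 := rfl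

theorem eq_basis (z : Cub R b D N) :
    z = algebraMap R _ z.c0 + algebraMap R _ z.c1 * om + algebraMap R _ z.c2 * th := by
  ext <;> simp

theorem om_mul_om : (om * om : Cub R b D N) = algebraMap R _ (b * D) * th := by
  ext <;> simp
theorem om_mul_th : (om * th : Cub R b D N) =
    algebraMap R _ D * om + algebraMap R _ (b * D * N) := by
  ext <;> simp
theorem th_mul_th : (th * th : Cub R b D N) = algebraMap R _ D * th + algebraMap R _ N * om := by
  ext <;> simp

/-- The norm from `Cub R b D N` to `R`. -/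
def nrm (z : Cub R b D N) : R :=
  z.c0 ^ 3 + z.c1 ^ 3 * (b ^ 2 * D ^ 2 * N) + z.c2 ^ 3 * (b * D * N ^ 2) +
    2 * z.c0 ^ 2 * z.c2 * D + z.c0 * z.c2 ^ 2 * D ^ 2 - z.c0 * z.c1 ^ 2 * (b * D ^ 2) -
    3 * z.c0 * z.c1 * z.c2 * (b * D * N) - z.c1 * z.c2 ^ 2 * (b * D ^ 2 * N)

theorem nrm_mul (z w : Cub R b D N) : nrm (z * w) = nrm z * nrm w := by
  simp only [nrm, mul_c0, mul_c1, mul_c2]
  ring

@[simp] theorem nrm_zero : nrm (0 : Cub R b D N) = 0 := by simp [nrm]
@[simp] theorem nrm_one : nrm (1 : Cub R b D N) = 1 := by simp [nrm]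
theorem nrm_algebraMap (r : R) : nrm (algebraMap R (Cub R b D N) r) = r ^ 3 := by simp [nrm]
theorem nrm_om : nrm (om : Cub R b D N) = b ^ 2 * D ^ 2 * N := by simp [nrm]
theorem nrm_th : nrm (th : Cub R b D N) = b * D * N ^ 2 := by simp [nrm]

/-- The conjugate factor: `z * adj z = nrm z`. -/
def adj (z : Cub R b D N) : Cub R b D N :=
  ⟨(z.c0 + z.c2 * D) ^ 2 - (z.c1 * D + z.c2 * N) * z.c1 * (b * D),
    z.c2 ^ 2 * N - z.c0 * z.c1,
    z.c1 ^ 2 * (b * D) - (z.c0 + z.c2 * D) * z.c2⟩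

theorem mul_adj (z : Cub R b D N) : z * adj z = algebraMap R _ (nrm z) := by
  ext <;> simp only [mul_c0, mul_c1, mul_c2, algebraMap_c0, algebraMap_c1, algebraMap_c2, adj, nrm,
    Algebra.algebraMap_self, RingHom.id_apply] <;> ring

/-- The coordinates as a linear equivalence. -/
def equivFun : Cub R b D N ≃ₗ[R] (Fin 3 → R) where
  toFun z := ![z.c0, z.c1, z.c2]
  map_add' z w := by ext i; fin_cases i <;> simp
  map_smul' r z := by ext i; fin_cases i <;> simp
  invFun v := ⟨v 0, v 1, v 2⟩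
  left_inv z := by ext <;> simp
  right_inv v := by ext i; fin_cases i <;> simp

/-- The basis `1, ω, θ`. -/
noncomputable def basis : Module.Basis (Fin 3) R (Cub R b D N) := Module.Basis.ofEquivFun equivFun

instance : Module.Finite R (Cub R b D N) := Module.Finite.of_basis basis
instance : Module.Free R (Cub R b D N) := Module.Free.of_basis basis

end Cub

end Pool.Agent.PR3
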