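import Mathlib

set_option autoImplicit false

namespace Pool.Agent.PR3

/-- The affine coordinate ring `B` of a smooth projective curve over `k` minus one rational point
`∞`; `dg` is the pole order at `∞` and `g` is the number of gaps. -/
structure IsPuncturedCurve (k B : Type) [Field k] [CommRing B] [Algebra k B] (dg : B → ℕ)
    (g : ℕ) : Prop where
  /-- `B` is a finitely generated `k`-algebra. -/
  finiteType : Algebra.FiniteType k B
  /-- `B` is a Dedekind domain, -/
  dedekind : IsDedekindDomain B
  /-- and not a field. -/
  notField : ¬ IsField B
  /-- The pole order is additive on products, -/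
  deg_mul : ∀ a b : B, a ≠ 0 → b ≠ 0 → dg (a * b) = dg a + dg b
  /-- is at most the maximum on sums, -/
  deg_add : ∀ a b : B, a ≠ 0 → b ≠ 0 → a + b ≠ 0 → dg (a + b) ≤ max (dg a) (dg b)
  /-- and two functions with the same pole order are proportional up to lower pole order (the point
  `∞` is rational; for `b = 1` this says that the functions without pole are the constants). -/
  deg_lead : ∀ a b : B, a ≠ 0 → b ≠ 0 → dg a = dg b →
    ∃ c : k, a - algebraMap k B c * b = 0 ∨ dg (a - algebraMap k B c * b) < dg a
  /-- There are exactly `g` natural numbers that are not pole orders of elements of `B`. -/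
  gaps : {n : ℕ | ∀ a : B, a ≠ 0 → dg a ≠ n}.encard = g

end Pool.Agent.PR3
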