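import Pool.Agent.LibPR3.Cub
import Pool.Agent.LibPR3.Curve

set_option autoImplicit false

open Polynomial

namespace Pool.Agent.PR3

/-- Hypotheses on the data of the curve `b u³ - u = N/D`. -/
structure Data (k : Type) [Field k] (b D N : k[X]) (j : ℕ) : Prop where
  b_monic : b.Monic
  b_sep : b.Separable
  b_deg : b.natDegree ≤ 3
  D_monic : D.Monic
  D_sep : D.Separable
  hbD : IsCoprime b D
  hND : IsCoprime N D
  N_deg : N.natDegree = j + D.natDegree
  hj : 1 ≤ j
  h3 : ¬ 3 ∣ b.natDegree + 2 * j

/-- The weight of `ω`. -/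
noncomputable def w1 {k : Type} [Field k] (b D : k[X]) (j : ℕ) : ℕ :=
  2 * b.natDegree + 3 * D.natDegree + j

/-- The weight of `θ`. -/
noncomputable def w2 {k : Type} [Field k] (b D : k[X]) (j : ℕ) : ℕ :=
  b.natDegree + 3 * D.natDegree + 2 * j

/-- `p = 0` or `3 deg p + w < m`. -/
def Below {k : Type} [Field k] (p : k[X]) (w m : ℕ) : Prop := p = 0 ∨ 3 * p.natDegree + w < m

open Classical in
/-- The contribution `0` or `1` of `b` to the `3`-rank. -/
noncomputable def eps {k : Type} [Field k] (b : k[X]) : ℕ := if b.coeff 2 = 0 then 0 else 1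

/-- The degree (pole order at infinity). -/
noncomputable def deg {k : Type} [Field k] {b D N : k[X]} (z : Cub k[X] b D N) : ℕ :=
  (Cub.nrm z).natDegree

/-- The map `k[x] → K`. -/
noncomputable def toK {k : Type} [Field k] (b D N : k[X]) (K : Type) [Field K]
    [Algebra (Cub k[X] b D N) K] : k[X] →+* K :=
  (algebraMap (Cub k[X] b D N) K).comp (algebraMap k[X] (Cub k[X] b D N))

/-- The element `u = ω / (bD)` of `K`. -/
noncomputable def uK {k : Type} [Field k] (b D N : k[X]) (K : Type) [Field K]
    [Algebra (Cub k[X] b D N) K] : K :=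
  algebraMap (Cub k[X] b D N) K Cub.om / toK b D N K (b * D)

end Pool.Agent.PR3
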