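import Pool.Agent.LibPR3.Mb

set_option autoImplicit false

open Polynomial

namespace Pool.Agent.PR3

theorem E_three {K : Type} [Field K] [CharP K 3] : (3 : K) = 0 := by
  exact_mod_cast CharP.cast_eq_zero K 3

theorem E_dd_cube {K : Type} [Field K] [CharP K 3] (dd : Derivation ℤ K K) (z : K) :
    dd (z ^ 3) = 0 := by
  rw [Derivation.leibniz_pow]
  simp [E_three (K := K)]

theorem E_dd_mul_cube {K : Type} [Field K] [CharP K 3] (dd : Derivation ℤ K K) (z w : K) :
    dd (z ^ 3 * w) = z ^ 3 * dd w := by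
  rw [Derivation.leibniz, E_dd_cube]
  simp

theorem E_cube_add {K : Type} [Field K] [CharP K 3] (z w : K) :
    (z + w) ^ 3 = z ^ 3 + w ^ 3 := by
  have h := E_three (K := K)
  linear_combination (z ^ 2 * w + z * w ^ 2) * h

theorem E_dd_poly {k : Type} [Field k] (b D N : k[X])
    (K : Type) [Field K] [Algebra (Cub k[X] b D N) K]
    (dd : Derivation ℤ K K) (hconst : ∀ c : k, dd (toK b D N K (C c)) = 0)
    (hx : dd (toK b D N K X) = 1) (P : k[X]) :
    dd (toK b D N K P) = toK b D N K (derivative P) := by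
  induction P using Polynomial.induction_on' with
  | add p q hp hq => rw [map_add, map_add, hp, hq, derivative_add, map_add]
  | monomial n a =>
    rw [← C_mul_X_pow_eq_monomial, map_mul, Derivation.leibniz, hconst, map_pow,
      Derivation.leibniz_pow, hx, derivative_C_mul_X_pow]
    simp only [smul_eq_mul, mul_one, nsmul_eq_mul, map_mul, map_pow,
      map_natCast]
    ring

/-- `D³ (a'' + a³)` in terms of the basis `1, u³, u⁶`. -/
theorem E_identity {k : Type} [Field k] [CharP k 3] {b D N : k[X]} {j : ℕ}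
    (h : Data k b D N j)
    (K : Type) [Field K] [CharP K 3] [Algebra (Cub k[X] b D N) K]
    [IsFractionRing (Cub k[X] b D N) K]
    (dd : Derivation ℤ K K) (hconst : ∀ c : k, dd (toK b D N K (C c)) = 0)
    (hx : dd (toK b D N K X) = 1) (a : K) (P0 P1 P2 : k[X])
    (hD0 : toK b D N K D ≠ 0)
    (ha : toK b D N K D * a =
        toK b D N K P0 + toK b D N K P1 * uK b D N K + toK b D N K (D * b * P2) * uK b D N K ^ 2) :
    toK b D N K D ^ 3 * (dd (dd a) + a ^ 3) =
      toK b D N K (P0 ^ 3 + derivative (derivative (D ^ 2 * P0 - D * N * P1 + D * b * N ^ 2 * P2)))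
      + toK b D N K (P1 ^ 3 + derivative (derivative (b * D ^ 2 * P1 + D ^ 2 * b ^ 2 * N * P2))) *
        uK b D N K ^ 3
      + toK b D N K (D ^ 3 * b ^ 3 * (P2 ^ 3 + derivative (derivative P2))) * uK b D N K ^ 6 := by
  have h3 := E_three (K := K)
  have hE := uK_eq h K
  have hpoly := E_dd_poly b D N K dd hconst hx
  set φ := toK b D N K with hφ
  set u := uK b D N K with hu
  have hcube : φ D ^ 3 * a = φ (D ^ 2 * P0 - D * N * P1 + D * b * N ^ 2 * P2)
      + u ^ 3 * φ (b * D ^ 2 * P1 + D ^ 2 * b ^ 2 * N * P2)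
      + (φ D * φ b * u ^ 2) ^ 3 * φ P2 := by
    obtain ⟨e, he⟩ : ∃ e, φ N = φ D * e := ⟨φ N / φ D, by field_simp⟩
    have he' : φ N / φ D = e := by rw [he]; field_simp
    rw [he'] at hE
    have h1 : φ D ^ 3 * a = φ D ^ 2 * (φ D * a) := by ring
    rw [h1, ha]
    simp only [map_add, map_sub, map_mul, map_pow]
    rw [he]
    linear_combination (-(φ D ^ 2 * φ P1) - φ D ^ 3 * φ b * φ P2 * (2 * e + φ b * u ^ 3 + u)) * hE
      + φ D ^ 3 * φ b * φ P2 * (-e ^ 2 - e * u) * h3
  have hdd : φ D ^ 3 * dd (dd a) =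
      φ (derivative (derivative (D ^ 2 * P0 - D * N * P1 + D * b * N ^ 2 * P2)))
      + u ^ 3 * φ (derivative (derivative (b * D ^ 2 * P1 + D ^ 2 * b ^ 2 * N * P2)))
      + (φ D * φ b * u ^ 2) ^ 3 * φ (derivative (derivative P2)) := by
    have h1 : dd (dd (φ D ^ 3 * a)) = φ D ^ 3 * dd (dd a) := by
      rw [E_dd_mul_cube, E_dd_mul_cube]
    rw [← h1, hcube, map_add, map_add, map_add, map_add, E_dd_mul_cube, E_dd_mul_cube,
      E_dd_mul_cube, E_dd_mul_cube, hpoly, hpoly, hpoly, hpoly, hpoly, hpoly]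
  have ha3 : φ D ^ 3 * a ^ 3 = φ P0 ^ 3 + φ P1 ^ 3 * u ^ 3 + (φ D * φ b * φ P2) ^ 3 * u ^ 6 := by
    have h1 : φ D ^ 3 * a ^ 3 = (φ D * a) ^ 3 := by ring
    rw [h1, ha, E_cube_add, E_cube_add]
    simp only [map_mul]
    ring
  rw [mul_add, hdd, ha3]
  simp only [map_add, map_mul, map_pow]
  ring

theorem E_indep {k : Type} [Field k] {b D N : k[X]} {j : ℕ} (h : Data k b D N j)
    (K : Type) [Field K] [Algebra (Cub k[X] b D N) K] [IsFractionRing (Cub k[X] b D N) K]
    (hD0 : toK b D N K D ≠ 0) (A0 A1 A2 : k[X])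
    (h0 : toK b D N K A0 + toK b D N K A1 * uK b D N K ^ 3 + toK b D N K A2 * uK b D N K ^ 6 = 0) :
    A0 = 0 ∧ A1 = 0 ∧ A2 = 0 := by
  have hE := uK_eq h K
  have hcu := coord_unique h K (b ^ 2 * D ^ 2 * A0 + b * D * N * A1 + N ^ 2 * A2)
    (b * D ^ 2 * A1 + 2 * D * N * A2) (D ^ 2 * A2)
  set φ := toK b D N K with hφ
  set u := uK b D N K with hu
  have hD : D ≠ 0 := h.D_monic.ne_zero
  have hb : b ≠ 0 := h.b_monic.ne_zero
  obtain ⟨e, he⟩ : ∃ e, φ N = φ D * e := ⟨φ N / φ D, by field_simp⟩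
  have he' : φ N / φ D = e := by rw [he]; field_simp
  rw [he'] at hE
  have hz : φ (b ^ 2 * D ^ 2 * A0 + b * D * N * A1 + N ^ 2 * A2) +
      φ (b * D ^ 2 * A1 + 2 * D * N * A2) * u + φ (D ^ 2 * A2) * u ^ 2 = 0 := by
    have h2 : φ (2 : k[X]) = 2 := map_ofNat φ 2
    simp only [map_add, map_mul, map_pow, h2]
    rw [he]
    linear_combination (φ b ^ 2 * φ D ^ 2) * h0 - (φ b * φ D ^ 2 * φ A1
      + φ D ^ 2 * φ A2 * (φ b * u ^ 3 + (u + e))) * hE
  obtain ⟨h0', h1', h2'⟩ := hcu hz
  have hA2 : A2 = 0 := by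
    rcases mul_eq_zero.1 h2' with h | h
    · exact absurd h (pow_ne_zero _ hD)
    · exact h
  subst hA2
  have hA1 : A1 = 0 := by
    rw [mul_zero, add_zero] at h1'
    rcases mul_eq_zero.1 h1' with h | h
    · exact absurd h (mul_ne_zero hb (pow_ne_zero _ hD))
    · exact h
  subst hA1
  have hA0 : A0 = 0 := by
    rw [mul_zero, mul_zero, add_zero, add_zero] at h0'
    rcases mul_eq_zero.1 h0' with h | h
    · exact absurd h (mul_ne_zero (pow_ne_zero _ hb) (pow_ne_zero _ hD))
    · exact h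
  exact ⟨hA0, rfl, rfl⟩

theorem E_cube_deriv {k : Type} [Field k] (P : k[X]) (hP : P ^ 3 + derivative (derivative P) = 0) :
    P = 0 := by
  by_contra hne
  have h1 : P ^ 3 = -derivative (derivative P) := eq_neg_of_add_eq_zero_left hP
  have h2 : (P ^ 3).natDegree ≤ P.natDegree - 1 - 1 := by
    rw [h1, natDegree_neg]
    exact (natDegree_derivative_le _).trans (Nat.sub_le_sub_right (natDegree_derivative_le _) 1)
  rw [natDegree_pow] at h2
  have h3 : P.natDegree = 0 := by omega
  obtain ⟨c, hc⟩ := natDegree_eq_zero.1 h3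
  rw [← hc, derivative_C, derivative_zero, add_zero] at hP
  have h4 : (C c : k[X]) = 0 := by simpa using hP
  exact hne (hc ▸ h4)

theorem E_toK_inj {k : Type} [Field k] {b D N : k[X]} {j : ℕ} (h : Data k b D N j)
    (K : Type) [Field K] [Algebra (Cub k[X] b D N) K] [IsFractionRing (Cub k[X] b D N) K]
    (P : k[X]) (hP : toK b D N K P = 0) : P = 0 :=
  (coord_unique h K P 0 0 (by simp [hP])).1

/-- The logarithmic forms of the affine curve correspond to pairs of polynomials. -/
theorem card_forms {k : Type} [Field k] [IsAlgClosed k] [CharP k 3] {b D N : k[X]} {j : ℕ}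
    (h : Data k b D N j)
    (K : Type) [Field K] [CharP K 3] [Algebra (Cub k[X] b D N) K]
    [IsFractionRing (Cub k[X] b D N) K]
    (dd : Derivation ℤ K K) (hconst : ∀ c : k, dd (toK b D N K (C c)) = 0)
    (hx : dd (toK b D N K X) = 1) :
    Nat.card {a : K // a ∈ Submodule.span (Cub k[X] b D N)
        (Set.range fun f : Cub k[X] b D N => dd (algebraMap (Cub k[X] b D N) K f)) ∧
        dd (dd a) + a ^ 3 = 0} =
      Nat.card {p : k[X] × k[X] //
        p.2 ^ 3 + derivative (derivative (b * D ^ 2 * p.2)) = 0 ∧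
        p.1 ^ 3 + derivative (derivative (D ^ 2 * p.1)) = derivative (derivative (D * N * p.2))} := by
  have hD0 : toK b D N K D ≠ 0 := fun h0 => h.D_monic.ne_zero (E_toK_inj h K D h0)
  symm
  have hval : ∀ P0 P1 : k[X], toK b D N K D *
      ((toK b D N K P0 + toK b D N K P1 * uK b D N K) / toK b D N K D) =
      toK b D N K P0 + toK b D N K P1 * uK b D N K + toK b D N K (D * b * 0) * uK b D N K ^ 2 := by
    intro P0 P1
    rw [mul_zero, map_zero, zero_mul, add_zero]
    field_simp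
  let F : {p : k[X] × k[X] //
        p.2 ^ 3 + derivative (derivative (b * D ^ 2 * p.2)) = 0 ∧
        p.1 ^ 3 + derivative (derivative (D ^ 2 * p.1)) = derivative (derivative (D * N * p.2))} →
      {a : K // a ∈ Submodule.span (Cub k[X] b D N)
        (Set.range fun f : Cub k[X] b D N => dd (algebraMap (Cub k[X] b D N) K f)) ∧
        dd (dd a) + a ^ 3 = 0} := fun p =>
    ⟨(toK b D N K p.1.1 + toK b D N K p.1.2 * uK b D N K) / toK b D N K D, by
      refine ⟨(mem_span_iff h K dd hconst hx _).2 ⟨p.1.1, p.1.2, 0, hval _ _⟩, ?_⟩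
      have hid := E_identity h K dd hconst hx _ p.1.1 p.1.2 0 hD0 (hval _ _)
      obtain ⟨⟨P0, P1⟩, h1, h2⟩ := p
      simp only at h1 h2 hid ⊢
      have e1 : P1 ^ 3 + derivative (derivative (b * D ^ 2 * P1 + D ^ 2 * b ^ 2 * N * 0)) = 0 := by
        rw [mul_zero, add_zero]; exact h1
      have e0 : P0 ^ 3 + derivative (derivative (D ^ 2 * P0 - D * N * P1 + D * b * N ^ 2 * 0)) =
          0 := by
        rw [mul_zero, add_zero, derivative_sub, derivative_sub, ← h2]
        ring
      rw [e0, e1] at hid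
      simp only [map_zero, zero_mul, ne_eq, OfNat.ofNat_ne_zero,
        not_false_eq_true, zero_pow, add_zero, mul_zero] at hid
      rcases mul_eq_zero.1 hid with h | h
      · exact absurd h (pow_ne_zero _ hD0)
      · exact h⟩
  refine Nat.card_congr (Equiv.ofBijective F ⟨?_, ?_⟩)
  · rintro ⟨⟨P0, P1⟩, h1, h2⟩ ⟨⟨Q0, Q1⟩, h3, h4⟩ heq
    have heq' : (toK b D N K P0 + toK b D N K P1 * uK b D N K) / toK b D N K D =
        (toK b D N K Q0 + toK b D N K Q1 * uK b D N K) / toK b D N K D :=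
      congrArg Subtype.val heq
    rw [div_left_inj' hD0] at heq'
    have hcu := coord_unique h K (P0 - Q0) (P1 - Q1) 0 (by
      rw [map_sub, map_sub, map_zero]
      linear_combination heq')
    have hA : P0 = Q0 := sub_eq_zero.1 hcu.1
    have hB : P1 = Q1 := sub_eq_zero.1 hcu.2.1
    subst hA hB
    rfl
  · rintro ⟨a, ha, hda⟩
    obtain ⟨P0, P1, P2, hP⟩ := (mem_span_iff h K dd hconst hx a).1 ha
    have hid := E_identity h K dd hconst hx a P0 P1 P2 hD0 hP
    rw [hda, mul_zero] at hid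
    obtain ⟨h0, h1, h2⟩ := E_indep h K hD0 _ _ _ hid.symm
    have hDb : D ^ 3 * b ^ 3 ≠ 0 :=
      mul_ne_zero (pow_ne_zero _ h.D_monic.ne_zero) (pow_ne_zero _ h.b_monic.ne_zero)
    have hP2 : P2 = 0 := E_cube_deriv P2 ((mul_eq_zero.1 h2).resolve_left hDb)
    subst hP2
    rw [mul_zero, add_zero] at h0 h1
    refine ⟨⟨(P0, P1), h1, ?_⟩, ?_⟩
    · simp only
      rw [derivative_sub, derivative_sub] at h0
      linear_combination h0
    · apply Subtype.ext
      change (toK b D N K P0 + toK b D N K P1 * uK b D N K) / toK b D N K D = a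
      rw [div_eq_iff hD0, mul_comm a, hP, mul_zero, map_zero, zero_mul, add_zero]

end Pool.Agent.PR3
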