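import Pool.Agent.LibPR3.C3

set_option autoImplicit false

open Polynomial

namespace Pool.Agent.PR3

/-- arithmetic: the number of gaps of the semigroup -/
theorem G_count (d κ j w1 w2 : ℕ) (hj : 1 ≤ j) (h3 : ¬ 3 ∣ d + 2 * j)
    (hw1 : w1 = 2 * d + 3 * κ + j) (hw2 : w2 = d + 3 * κ + 2 * j) (S : Set ℕ)
    (hS : ∀ n, n ∈ S ↔ ¬ (3 ∣ n) ∧ (∀ a, n ≠ 3 * a + w1) ∧ (∀ a, n ≠ 3 * a + w2)) :
    S.encard = ((d + 2 * κ + j - 1 : ℕ) : ℕ∞) := by
  classical
  have e2 : w2 % 3 = (d + 2 * j) % 3 := by omega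
  have e1 : w1 % 3 = (2 * (d + 2 * j)) % 3 := by omega
  have e3 : w1 % 3 + w2 % 3 = 3 := by omega
  set S1 : Finset ℕ := (Finset.range (w1 / 3)).image (fun i => 3 * i + w1 % 3) with hS1
  set S2 : Finset ℕ := (Finset.range (w2 / 3)).image (fun i => 3 * i + w2 % 3) with hS2
  have hSe : S = ((S1 ∪ S2 : Finset ℕ) : Set ℕ) := by
    ext n
    rw [hS]
    simp only [Finset.coe_union, Set.mem_union, Finset.mem_coe, hS1, hS2, Finset.mem_image,
      Finset.mem_range]
    constructor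
    · rintro ⟨hn, h1, h2⟩
      have key : n % 3 = w1 % 3 ∨ n % 3 = w2 % 3 := by omega
      rcases key with key | key
      · left
        refine ⟨n / 3, ?_, by omega⟩
        by_contra hcon
        exact h1 ((n - w1) / 3) (by omega)
      · right
        refine ⟨n / 3, ?_, by omega⟩
        by_contra hcon
        exact h2 ((n - w2) / 3) (by omega)
    · rintro (⟨i, hi, rfl⟩ | ⟨i, hi, rfl⟩)
      · refine ⟨by omega, fun a => by omega, fun a => by omega⟩
      · refine ⟨by omega, fun a => by omega, fun a => by omega⟩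
  rw [hSe, Set.encard_coe_eq_coe_finsetCard]
  congr 1
  rw [Finset.card_union_of_disjoint]
  · rw [hS1, hS2, Finset.card_image_of_injective _ (fun a b hab => by omega),
      Finset.card_image_of_injective _ (fun a b hab => by omega),
      Finset.card_range, Finset.card_range]
    omega
  · rw [Finset.disjoint_left]
    intro n h1 h2
    rw [hS1, Finset.mem_image] at h1
    rw [hS2, Finset.mem_image] at h2
    obtain ⟨a, _, ha⟩ := h1
    obtain ⟨c, _, hc⟩ := h2
    omega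

theorem G_N_ne_zero {k : Type} [Field k] {b D N : k[X]} {j : ℕ} (h : Data k b D N j) : N ≠ 0 := by
  intro h0
  have := h.N_deg
  have := h.hj
  rw [h0, natDegree_zero] at *
  omega

theorem G_deg_X {k : Type} [Field k] {b D N : k[X]} (a : ℕ) :
    deg (algebraMap k[X] (Cub k[X] b D N) (X ^ a)) = 3 * a := by
  unfold deg
  rw [Cub.nrm_algebraMap, natDegree_pow, natDegree_X_pow]

theorem G_deg_X_om {k : Type} [Field k] {b D N : k[X]} {j : ℕ} (h : Data k b D N j) (a : ℕ) :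
    deg (algebraMap k[X] (Cub k[X] b D N) (X ^ a) * Cub.om) = 3 * a + w1 b D j := by
  have hb := h.b_monic.ne_zero
  have hD := h.D_monic.ne_zero
  have hN := G_N_ne_zero h
  have hX : (X ^ a : k[X]) ≠ 0 := pow_ne_zero _ X_ne_zero
  unfold deg w1
  rw [Cub.nrm_mul, Cub.nrm_algebraMap, Cub.nrm_om,
    natDegree_mul (pow_ne_zero _ hX) (mul_ne_zero (mul_ne_zero (pow_ne_zero _ hb)
      (pow_ne_zero _ hD)) hN),
    natDegree_mul (mul_ne_zero (pow_ne_zero _ hb) (pow_ne_zero _ hD)) hN,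
    natDegree_mul (pow_ne_zero _ hb) (pow_ne_zero _ hD),
    natDegree_pow, natDegree_pow, natDegree_pow, natDegree_pow, natDegree_X, h.N_deg]
  ring

theorem G_deg_X_th {k : Type} [Field k] {b D N : k[X]} {j : ℕ} (h : Data k b D N j) (a : ℕ) :
    deg (algebraMap k[X] (Cub k[X] b D N) (X ^ a) * Cub.th) = 3 * a + w2 b D j := by
  have hb := h.b_monic.ne_zero
  have hD := h.D_monic.ne_zero
  have hN := G_N_ne_zero h
  have hX : (X ^ a : k[X]) ≠ 0 := pow_ne_zero _ X_ne_zero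
  unfold deg w2
  rw [Cub.nrm_mul, Cub.nrm_algebraMap, Cub.nrm_th,
    natDegree_mul (pow_ne_zero _ hX) (mul_ne_zero (mul_ne_zero hb hD) (pow_ne_zero _ hN)),
    natDegree_mul (mul_ne_zero hb hD) (pow_ne_zero _ hN),
    natDegree_mul hb hD,
    natDegree_pow, natDegree_pow, natDegree_pow, natDegree_X, h.N_deg]
  ring

theorem G_ne {k : Type} [Field k] {b D N : k[X]} (p : k[X]) (hp : p ≠ 0) :
    algebraMap k[X] (Cub k[X] b D N) p ≠ 0 ∧
    algebraMap k[X] (Cub k[X] b D N) p * Cub.om ≠ 0 ∧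
    algebraMap k[X] (Cub k[X] b D N) p * Cub.th ≠ 0 := by
  refine ⟨fun h0 => hp ?_, fun h0 => hp ?_, fun h0 => hp ?_⟩
  · have := congrArg Cub.c0 h0
    simpa using this
  · have := congrArg Cub.c1 h0
    simpa using this
  · have := congrArg Cub.c2 h0
    simpa using this

theorem gaps {k : Type} [Field k] {b D N : k[X]} {j : ℕ} (h : Data k b D N j) :
    {n : ℕ | ∀ z : Cub k[X] b D N, z ≠ 0 → deg z ≠ n}.encard =
      ((b.natDegree + 2 * D.natDegree + j - 1 : ℕ) : ℕ∞) := by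
  apply G_count b.natDegree D.natDegree j (w1 b D j) (w2 b D j) h.hj h.h3 rfl rfl
  intro n
  rw [Set.mem_ofPred_eq]
  have hX : ∀ a : ℕ, (X ^ a : k[X]) ≠ 0 := fun a => pow_ne_zero _ X_ne_zero
  constructor
  · intro hn
    refine ⟨?_, ?_, ?_⟩
    · rintro ⟨a, rfl⟩
      exact hn (algebraMap k[X] (Cub k[X] b D N) (X ^ a)) (G_ne _ (hX a)).1 (G_deg_X a)
    · intro a ha
      exact hn (algebraMap k[X] (Cub k[X] b D N) (X ^ a) * Cub.om) (G_ne _ (hX a)).2.1
        ((G_deg_X_om h a).trans ha.symm)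
    · intro a ha
      exact hn (algebraMap k[X] (Cub k[X] b D N) (X ^ a) * Cub.th) (G_ne _ (hX a)).2.2
        ((G_deg_X_th h a).trans ha.symm)
  · rintro ⟨h1, h2, h3⟩ z hz hzn
    rcases (nrm_dominant h z hz).2 with ⟨_, hd, _⟩ | ⟨_, hd, _⟩ | ⟨_, hd, _⟩
    · exact h1 ⟨z.c0.natDegree, by omega⟩
    · exact h2 z.c1.natDegree (by omega)
    · exact h3 z.c2.natDegree (by omega)

end Pool.Agent.PR3
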