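import Pool.Agent.LibPR3.Defs

set_option autoImplicit false

open Polynomial

namespace Pool.Agent.PR3

theorem I1_leftMul {R : Type} [CommRing R] {b D N : R} (z : Cub R b D N) :
    Algebra.leftMulMatrix Cub.basis z =
      !![z.c0, b * D * N * z.c2, b * D * N * z.c1;
         z.c1, z.c0 + D * z.c2, D * z.c1 + N * z.c2;
         z.c2, b * D * z.c1, z.c0 + D * z.c2] := by
  have h0 : (Cub.basis (R := R) (b := b) (D := D) (N := N)) 0 = ⟨1, 0, 0⟩ := by
    simp [Cub.basis, Cub.equivFun]
  have h1 : (Cub.basis (R := R) (b := b) (D := D) (N := N)) 1 = ⟨0, 1, 0⟩ := by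
    simp [Cub.basis, Cub.equivFun]
  have h2 : (Cub.basis (R := R) (b := b) (D := D) (N := N)) 2 = ⟨0, 0, 1⟩ := by
    simp [Cub.basis, Cub.equivFun]
  have hr : ∀ (w : Cub R b D N) (i : Fin 3), Cub.basis.repr w i = ![w.c0, w.c1, w.c2] i := by
    intro w i
    simp [Cub.basis, Cub.equivFun]
  ext i j
  rw [Algebra.leftMulMatrix_eq_repr_mul, hr]
  fin_cases j
  · simp only [Fin.zero_eta, h0]
    fin_cases i <;> simp
  · simp only [Fin.mk_one, h1]
    fin_cases i <;> simp
  · simp only [Fin.reduceFinMk, h2]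
    fin_cases i <;> simp

theorem I1_trace {R : Type} [CommRing R] {b D N : R} (z : Cub R b D N) :
    Algebra.trace R (Cub R b D N) z = 3 * z.c0 + 2 * D * z.c2 := by
  rw [Algebra.trace_eq_matrix_trace Cub.basis, I1_leftMul, Matrix.trace_fin_three]
  simp
  ring

theorem I1_norm {R : Type} [CommRing R] {b D N : R} (z : Cub R b D N) :
    Algebra.norm R z = Cub.nrm z := by
  rw [Algebra.norm_eq_matrix_det Cub.basis, I1_leftMul, Matrix.det_fin_three]
  simp [Cub.nrm]
  ring

open scoped nonZeroDivisors in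
theorem I1_aux {R : Type} [CommRing R] [IsDomain R] [IsIntegrallyClosed R] {b D N : R}
    [IsDomain (Cub R b D N)]
    (K : Type) [Field K] [Algebra (Cub R b D N) K] [IsFractionRing (Cub R b D N) K]
    (π : R) (hπ : π ≠ 0) (z : Cub R b D N)
    (hint : ((algebraMap (Cub R b D N) K).comp (algebraMap R (Cub R b D N))).IsIntegralElem
      (algebraMap (Cub R b D N) K z /
        ((algebraMap (Cub R b D N) K).comp (algebraMap R (Cub R b D N))) π)) :
    π ∣ 3 * z.c0 + 2 * D * z.c2 ∧ π ^ 3 ∣ Cub.nrm z := by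
  let _ : Algebra R K := ((algebraMap (Cub R b D N) K).comp (algebraMap R (Cub R b D N))).toAlgebra
  have : IsScalarTower R (Cub R b D N) K := IsScalarTower.of_algebraMap_eq fun _ => rfl
  have h1 : FaithfulSMul R (Cub R b D N) := by
    rw [faithfulSMul_iff_algebraMap_injective]
    intro x y hxy
    simpa using congrArg Cub.c0 hxy
  have h2 : FaithfulSMul R K := by
    rw [faithfulSMul_iff_algebraMap_injective]
    exact (IsFractionRing.injective (Cub R b D N) K).comp
      ((faithfulSMul_iff_algebraMap_injective _ _).1 h1)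
  let _ := FractionRing.liftAlgebra R K
  have : IsScalarTower R (FractionRing R) K := FractionRing.isScalarTower_liftAlgebra R K
  have : IsLocalization (Algebra.algebraMapSubmonoid (Cub R b D N) R⁰) K := inferInstance
  have hfin : FiniteDimensional (FractionRing R) K :=
    Module.Finite.of_basis
      ((Cub.basis (R := R) (b := b) (D := D) (N := N)).localizationLocalization
        (FractionRing R) R⁰ K)
  set w : K := algebraMap (Cub R b D N) K z / algebraMap R K π with hw
  have hπ' : algebraMap R K π ≠ 0 := by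
    intro h
    exact hπ (((faithfulSMul_iff_algebraMap_injective _ _).1 h2) (by rw [h, map_zero]))
  have hint' : IsIntegral R w := hint
  have hzw : algebraMap (Cub R b D N) K z = algebraMap R K π * w := by
    rw [hw]; field_simp
  have htr := Algebra.isIntegral_trace (L := FractionRing R) hint'
  have hnm := Algebra.isIntegral_norm (K := FractionRing R) hint'
  obtain ⟨m, hm⟩ := IsIntegrallyClosed.isIntegral_iff.1 htr
  obtain ⟨n, hn⟩ := IsIntegrallyClosed.isIntegral_iff.1 hnm
  have hinj : Function.Injective (algebraMap R (FractionRing R)) := IsFractionRing.injective _ _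
  constructor
  · refine ⟨m, ?_⟩
    rw [← I1_trace]
    apply hinj
    rw [← Algebra.trace_localization R R⁰ (Rₘ := FractionRing R) (Sₘ := K) z, hzw,
      map_mul (algebraMap R (FractionRing R)), hm,
      IsScalarTower.algebraMap_apply R (FractionRing R) K, ← Algebra.smul_def, map_smul,
      smul_eq_mul]
  · refine ⟨n, ?_⟩
    rw [← I1_norm]
    apply hinj
    rw [← Algebra.norm_localization R R⁰ (Rₘ := FractionRing R) (Sₘ := K) z, hzw, map_mul, map_mul,
      hn]
    congr 1
    rw [IsScalarTower.algebraMap_apply R (Cub R b D N) K,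
      Algebra.norm_localization R R⁰ (Rₘ := FractionRing R) (Sₘ := K), I1_norm,
      Cub.nrm_algebraMap]


theorem I1_const {k : Type} [Field k] [CharP k 3] {b D N : k[X]} {j : ℕ}
    (h : Data k b D N j) [IsDomain (Cub k[X] b D N)]
    (K : Type) [Field K] [Algebra (Cub k[X] b D N) K] [IsFractionRing (Cub k[X] b D N) K]
    (α a₀ a₁ a₂ : k)
    (hint : (toK b D N K).IsIntegralElem
      (algebraMap (Cub k[X] b D N) K ⟨C a₀, C a₁, C a₂⟩ / toK b D N K (X - C α))) :
    a₀ = 0 ∧ a₁ = 0 ∧ a₂ = 0 := by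
  have hπ0 : (X - C α : k[X]) ≠ 0 := X_sub_C_ne_zero α
  have h3 : (3 : k) = 0 := by
    have := CharP.cast_eq_zero k 3
    simpa using this
  have h2 : (2 : k) ≠ 0 := by
    intro h2
    have : (1 : k) = 3 - 2 := by norm_num
    rw [h3, h2, sub_zero] at this
    exact one_ne_zero this
  have hroot : ∀ p : k[X], (X - C α) ∣ p ↔ p.eval α = 0 := fun p => dvd_iff_isRoot
  -- squares do not divide separable polynomials
  have hsq : ∀ p : k[X], p.Separable → ¬ (X - C α) ^ 2 ∣ p := by
    intro p hp hd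
    have h1 := hp.squarefree (X - C α) (by rwa [← sq])
    exact (irreducible_X_sub_C α).not_isUnit h1
  obtain ⟨ht1, hn1⟩ := I1_aux K (X - C α) hπ0 _ hint
  rw [hroot] at ht1
  simp only [eval_add, eval_mul, eval_C, eval_ofNat] at ht1
  rw [h3, zero_mul, zero_add] at ht1
  by_cases hD : D.eval α = 0
  · -- ramified case
    obtain ⟨E, hE⟩ := (hroot D).2 hD
    have hb : b.eval α ≠ 0 := by
      intro hb
      obtain ⟨u, v, huv⟩ := h.hbD
      have := congrArg (eval α) huv
      simp [hb, hD] at this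
    have hN : N.eval α ≠ 0 := by
      intro hb
      obtain ⟨u, v, huv⟩ := h.hND
      have := congrArg (eval α) huv
      simp [hb, hD] at this
    have hEα : E.eval α ≠ 0 := by
      intro hEα
      obtain ⟨E', hE'⟩ := (hroot E).2 hEα
      exact hsq D h.D_sep ⟨E', by rw [hE, hE']; ring⟩
    have ha0 : a₀ = 0 := by
      have h1 : (X - C α) ∣ Cub.nrm (⟨C a₀, C a₁, C a₂⟩ : Cub k[X] b D N) :=
        (dvd_pow_self _ (by norm_num)).trans hn1
      rw [hroot] at h1
      simpa [Cub.nrm, hD] using h1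
    subst ha0
    have ha2 : a₂ = 0 := by
      obtain ⟨q, hq⟩ := hn1
      have h1 : (X - C α) * (C a₂ ^ 3 * (b * E * N ^ 2)) =
          (X - C α) * ((X - C α) * ((X - C α) * q - C a₁ ^ 3 * (b ^ 2 * E ^ 2 * N) +
            C a₁ * C a₂ ^ 2 * (b * E ^ 2 * N))) := by
        simp only [Cub.nrm, map_zero] at hq
        rw [hE] at hq
        linear_combination hq
      have h2 := mul_left_cancel₀ hπ0 h1
      have h3 : (X - C α) ∣ C a₂ ^ 3 * (b * E * N ^ 2) := ⟨_, h2⟩
      rw [hroot] at h3
      simpa [hb, hN, hEα] using h3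
    subst ha2
    have ha1 : a₁ = 0 := by
      obtain ⟨q, hq⟩ := hn1
      have h1 : (X - C α) ^ 2 * (C a₁ ^ 3 * (b ^ 2 * E ^ 2 * N)) =
          (X - C α) ^ 2 * ((X - C α) * q) := by
        simp only [Cub.nrm, map_zero] at hq
        rw [hE] at hq
        linear_combination hq
      have h2 := mul_left_cancel₀ (pow_ne_zero 2 hπ0) h1
      have h3 : (X - C α) ∣ C a₁ ^ 3 * (b ^ 2 * E ^ 2 * N) := ⟨_, h2⟩
      rw [hroot] at h3
      simpa [hb, hN, hEα] using h3
    exact ⟨rfl, ha1, rfl⟩
  · have ha2 : a₂ = 0 := by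
      simpa [h2, hD] using ht1
    subst ha2
    have ha1 : a₁ = 0 := by
      have hint2 : (toK b D N K).IsIntegralElem
          (algebraMap (Cub k[X] b D N) K (⟨C a₀, C a₁, C 0⟩ * ⟨C a₀, C a₁, C 0⟩) /
            toK b D N K ((X - C α) ^ 2)) := by
        have := RingHom.IsIntegralElem.mul _ hint hint
        rw [div_mul_div_comm, ← map_mul, ← map_mul, ← sq (X - C α)] at this
        exact this
      obtain ⟨ht2, -⟩ := I1_aux K ((X - C α) ^ 2) (pow_ne_zero 2 hπ0) _ hint2
      by_contra ha1
      have h3' : (3 : k[X]) = 0 := by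
        have : (3 : k[X]) = C 3 := (map_ofNat C 3).symm
        rw [this, h3, map_zero]
      rw [h3', zero_mul, zero_add] at ht2
      have h4 : (X - C α) ^ 2 ∣ (C (2 * a₁ ^ 2) * D ^ 2) * b := by
        refine ht2.trans (dvd_of_eq ?_)
        simp only [Cub.mul_c2, map_zero, map_mul, map_pow]
        have : (2 : k[X]) = C 2 := (map_ofNat C 2).symm
        rw [this]
        ring
      have h5 : IsCoprime ((X - C α) ^ 2) (C (2 * a₁ ^ 2) * D ^ 2) := by
        apply IsCoprime.pow_left
        rw [(irreducible_X_sub_C α).coprime_iff_not_dvd, hroot]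
        simp [h2, ha1, hD]
      exact hsq b h.b_sep (h5.dvd_of_dvd_mul_left h4)
    subst ha1
    have ha0 : a₀ = 0 := by
      have h1 : (X - C α) ∣ Cub.nrm (⟨C a₀, C 0, C 0⟩ : Cub k[X] b D N) :=
        (dvd_pow_self _ (by norm_num)).trans hn1
      rw [hroot] at h1
      simpa [Cub.nrm] using h1
    exact ⟨ha0, rfl, rfl⟩

/-- An element `z/(x - α)` integral over `k[x]` lies in `Cub k[X] b D N`. -/
theorem dvd_of_isIntegral {k : Type} [Field k] [CharP k 3] {b D N : k[X]} {j : ℕ}
    (h : Data k b D N j) [IsDomain (Cub k[X] b D N)]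
    (K : Type) [Field K] [Algebra (Cub k[X] b D N) K] [IsFractionRing (Cub k[X] b D N) K]
    (α : k) (z : Cub k[X] b D N)
    (hint : (toK b D N K).IsIntegralElem
      (algebraMap (Cub k[X] b D N) K z / toK b D N K (X - C α))) :
    (X - C α) ∣ z.c0 ∧ (X - C α) ∣ z.c1 ∧ (X - C α) ∣ z.c2 := by
  have hdiv : ∀ p : k[X], p = C (p.eval α) + (X - C α) * (p /ₘ (X - C α)) := by
    intro p
    have := modByMonic_add_div p (X - C α)
    rw [modByMonic_X_sub_C_eq_C_eval] at this
    exact this.symm
  set z1 : Cub k[X] b D N := ⟨z.c0 /ₘ (X - C α), z.c1 /ₘ (X - C α), z.c2 /ₘ (X - C α)⟩ with hz1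
  set z0 : Cub k[X] b D N := ⟨C (z.c0.eval α), C (z.c1.eval α), C (z.c2.eval α)⟩ with hz0
  have hz : z = z0 + algebraMap k[X] _ (X - C α) * z1 := by
    ext1
    · simpa [hz0, hz1] using hdiv z.c0
    · simpa [hz0, hz1] using hdiv z.c1
    · simpa [hz0, hz1] using hdiv z.c2
  have hπ0 : toK b D N K (X - C α) ≠ 0 := by
    intro h0
    rw [toK, RingHom.comp_apply] at h0
    have h1 : algebraMap k[X] (Cub k[X] b D N) (X - C α) = 0 :=
      IsFractionRing.injective (Cub k[X] b D N) K (by rw [h0, map_zero])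
    have h2 := congrArg Cub.c0 h1
    rw [Cub.algebraMap_c0, Cub.zero_c0] at h2
    exact X_sub_C_ne_zero α (by simpa using h2)
  have hint1 : (toK b D N K).IsIntegralElem (algebraMap (Cub k[X] b D N) K z1) := by
    have h1 : (algebraMap k[X] (Cub k[X] b D N)).IsIntegralElem z1 :=
      Algebra.IsIntegral.isIntegral (R := k[X]) z1
    obtain ⟨p, hp, hp1⟩ := h1
    refine ⟨p, hp, ?_⟩
    rw [toK, ← hom_eval₂, hp1, map_zero]
  have hint0 : (toK b D N K).IsIntegralElem
      (algebraMap (Cub k[X] b D N) K z0 / toK b D N K (X - C α)) := by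
    have h1 := RingHom.IsIntegralElem.sub _ hint hint1
    have h2 : algebraMap (Cub k[X] b D N) K z / toK b D N K (X - C α) -
        algebraMap (Cub k[X] b D N) K z1 =
        algebraMap (Cub k[X] b D N) K z0 / toK b D N K (X - C α) := by
      have h3 : algebraMap (Cub k[X] b D N) K z = algebraMap (Cub k[X] b D N) K z0 +
          toK b D N K (X - C α) * algebraMap (Cub k[X] b D N) K z1 := by
        conv_lhs => rw [hz, map_add, map_mul]
        rfl
      rw [h3]
      field_simp
      ring
    rwa [h2] at h1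
  obtain ⟨e0, e1, e2⟩ := I1_const h K α _ _ _ hint0
  exact ⟨dvd_iff_isRoot.2 e0, dvd_iff_isRoot.2 e1, dvd_iff_isRoot.2 e2⟩

end Pool.Agent.PR3
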