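import Pool.Agent.LibPR3.I1
import Pool.Agent.LibPR3.C4

set_option autoImplicit false

open Polynomial

namespace Pool.Agent.PR3

/-- Descending induction on the degree of the denominator. -/
theorem I2_descent {k : Type} [Field k] [IsAlgClosed k] [CharP k 3] {b D N : k[X]} {j : ℕ}
    (h : Data k b D N j) [IsDomain (Cub k[X] b D N)]
    (K : Type) [Field K] [Algebra (Cub k[X] b D N) K] [IsFractionRing (Cub k[X] b D N) K]
    (n : ℕ) : ∀ (Q : k[X]) (z : Cub k[X] b D N) (f : K), Q.Monic → Q.natDegree = n →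
      (toK b D N K).IsIntegralElem f →
      f * toK b D N K Q = algebraMap (Cub k[X] b D N) K z →
      ∃ w : Cub k[X] b D N, algebraMap (Cub k[X] b D N) K w = f := by
  have hinj : Function.Injective (algebraMap (Cub k[X] b D N) K) :=
    IsFractionRing.injective (Cub k[X] b D N) K
  have htoK0 : ∀ P : k[X], P ≠ 0 → toK b D N K P ≠ 0 := by
    intro P hP h0
    have h1 : algebraMap (Cub k[X] b D N) K (algebraMap k[X] (Cub k[X] b D N) P) = 0 := h0
    have h2 := (map_eq_zero_iff _ hinj).1 h1
    have h3 := congrArg Cub.c0 h2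
    exact hP (by simpa using h3)
  induction n with
  | zero =>
    intro Q z f hQ hn _ hf
    have hQ1 : Q = 1 := hQ.natDegree_eq_zero.1 hn
    rw [hQ1, map_one, mul_one] at hf
    exact ⟨z, hf.symm⟩
  | succ n ih =>
    intro Q z f hQ hn hint hf
    have hdeg : Q.degree ≠ 0 := by
      intro h0
      have := natDegree_eq_zero_iff_degree_le_zero.2 h0.le
      omega
    obtain ⟨α, hα⟩ := IsAlgClosed.exists_root Q hdeg
    obtain ⟨Q', hQ'⟩ := dvd_iff_isRoot.2 hα
    have hmon : Q'.Monic := (monic_X_sub_C α).of_mul_monic_left (hQ' ▸ hQ)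
    have hn' : Q'.natDegree = n := by
      have h1 : Q.natDegree = (X - C α).natDegree + Q'.natDegree := by
        rw [hQ', (monic_X_sub_C α).natDegree_mul hmon]
      rw [natDegree_X_sub_C] at h1
      omega
    have hXne : toK b D N K (X - C α) ≠ 0 := htoK0 _ (X_sub_C_ne_zero α)
    -- the element with denominator `X - C α`
    have hg : f * toK b D N K Q' = algebraMap (Cub k[X] b D N) K z / toK b D N K (X - C α) := by
      rw [eq_div_iff hXne, ← hf, hQ', map_mul]
      ring
    have hgint : (toK b D N K).IsIntegralElem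
        (algebraMap (Cub k[X] b D N) K z / toK b D N K (X - C α)) := by
      rw [← hg]
      exact hint.mul _ (RingHom.isIntegralElem_map _)
    obtain ⟨⟨y0, h0⟩, ⟨y1, h1⟩, ⟨y2, h2⟩⟩ := dvd_of_isIntegral h K α z hgint
    let z' : Cub k[X] b D N := ⟨y0, y1, y2⟩
    have hz : z = algebraMap k[X] (Cub k[X] b D N) (X - C α) * z' := by
      ext1
      · simp [h0, z']
      · simp [h1, z']
      · simp [h2, z']
    have hz' : algebraMap (Cub k[X] b D N) K z =
        toK b D N K (X - C α) * algebraMap (Cub k[X] b D N) K z' := by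
      rw [hz, map_mul]
      rfl
    refine ih Q' z' f hmon hn' hint ?_
    rw [hg, hz', mul_div_cancel_left₀ _ hXne]

theorem isDedekindDomain {k : Type} [Field k] [IsAlgClosed k] [CharP k 3] {b D N : k[X]} {j : ℕ}
    (h : Data k b D N j) : IsDedekindDomain (Cub k[X] b D N) := by
  have hdom : IsDomain (Cub k[X] b D N) := isDomain h
  have hnoeth : IsNoetherianRing (Cub k[X] b D N) := IsNoetherianRing.of_finite k[X] _
  have hintR : Algebra.IsIntegral k[X] (Cub k[X] b D N) := Algebra.IsIntegral.of_finite _ _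
  have hdim : Ring.DimensionLEOne (Cub k[X] b D N) :=
    Ring.DimensionLEOne.of_isIntegral k[X] (Cub k[X] b D N)
  rw [isDedekindDomain_iff _ (FractionRing (Cub k[X] b D N))]
  refine ⟨hdom, hnoeth, hdim, fun {f} hf => ?_⟩
  have hinj : Function.Injective (algebraMap (Cub k[X] b D N) (FractionRing (Cub k[X] b D N))) :=
    IsFractionRing.injective _ _
  have hfR : IsIntegral k[X] f := isIntegral_trans f hf
  have hmap : algebraMap k[X] (FractionRing (Cub k[X] b D N)) =
      toK b D N (FractionRing (Cub k[X] b D N)) :=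
    IsScalarTower.algebraMap_eq k[X] (Cub k[X] b D N) (FractionRing (Cub k[X] b D N))
  have hfK : (toK b D N (FractionRing (Cub k[X] b D N))).IsIntegralElem f := by
    rw [← hmap]
    exact hfR
  obtain ⟨a, s, hs, hfs⟩ := IsFractionRing.div_surjective (A := Cub k[X] b D N) f
  have hs0 : s ≠ 0 := nonZeroDivisors.ne_zero hs
  have hsK : algebraMap (Cub k[X] b D N) (FractionRing (Cub k[X] b D N)) s ≠ 0 := by
    rw [Ne, map_eq_zero_iff _ hinj]
    exact hs0
  have hnrm : Cub.nrm s ≠ 0 := (nrm_dominant h s hs0).1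
  refine I2_descent h (FractionRing (Cub k[X] b D N)) _
    (Cub.nrm s * C (Cub.nrm s).leadingCoeff⁻¹)
    (a * Cub.adj s * algebraMap k[X] _ (C (Cub.nrm s).leadingCoeff⁻¹)) f
    (monic_mul_leadingCoeff_inv hnrm) rfl hfK ?_
  have h1 : toK b D N (FractionRing (Cub k[X] b D N)) (Cub.nrm s) =
      algebraMap (Cub k[X] b D N) (FractionRing (Cub k[X] b D N)) s *
        algebraMap (Cub k[X] b D N) (FractionRing (Cub k[X] b D N)) (Cub.adj s) := by
    rw [← map_mul, Cub.mul_adj]
    rfl
  have h2 : f * algebraMap (Cub k[X] b D N) (FractionRing (Cub k[X] b D N)) s =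
      algebraMap (Cub k[X] b D N) (FractionRing (Cub k[X] b D N)) a := by
    rw [← hfs, div_mul_cancel₀ _ hsK]
  rw [map_mul, map_mul, map_mul, h1, ← h2]
  change _ = _ * toK b D N (FractionRing (Cub k[X] b D N)) (C (Cub.nrm s).leadingCoeff⁻¹)
  ring

end Pool.Agent.PR3
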