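import Pool.Agent.LibPR3.C4

set_option autoImplicit false

open Polynomial

namespace Pool.Agent.PR3

theorem Ma_algebraMap_inj {k : Type} [Field k] {b D N : k[X]} :
    Function.Injective (algebraMap k[X] (Cub k[X] b D N)) := by
  intro p q h
  have := congrArg Cub.c0 h
  simpa using this

theorem Ma_toK_inj {k : Type} [Field k] {b D N : k[X]}
    (K : Type) [Field K] [Algebra (Cub k[X] b D N) K] [IsFractionRing (Cub k[X] b D N) K] :
    Function.Injective (toK b D N K) := by
  intro p q h
  apply Ma_algebraMap_inj (b := b) (D := D) (N := N)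
  apply IsFractionRing.injective (Cub k[X] b D N) K
  exact h

theorem Ma_toK_ne {k : Type} [Field k] {b D N : k[X]}
    (K : Type) [Field K] [Algebra (Cub k[X] b D N) K] [IsFractionRing (Cub k[X] b D N) K]
    {p : k[X]} (hp : p ≠ 0) : toK b D N K p ≠ 0 := by
  intro h
  apply hp
  apply Ma_toK_inj (b := b) (D := D) (N := N) K
  rw [h, map_zero]

theorem Ma_om_om {k : Type} [Field k] {b D N : k[X]}
    (K : Type) [Field K] [Algebra (Cub k[X] b D N) K] :
    algebraMap (Cub k[X] b D N) K Cub.om * algebraMap (Cub k[X] b D N) K Cub.om =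
      toK b D N K b * toK b D N K D * algebraMap (Cub k[X] b D N) K Cub.th := by
  rw [← map_mul, Cub.om_mul_om, map_mul, ← map_mul (toK b D N K)]
  rfl

theorem Ma_om_th {k : Type} [Field k] {b D N : k[X]}
    (K : Type) [Field K] [Algebra (Cub k[X] b D N) K] :
    algebraMap (Cub k[X] b D N) K Cub.om * algebraMap (Cub k[X] b D N) K Cub.th =
      toK b D N K D * algebraMap (Cub k[X] b D N) K Cub.om +
        toK b D N K b * toK b D N K D * toK b D N K N := by
  rw [← map_mul, Cub.om_mul_th, map_add, map_mul, ← map_mul (toK b D N K),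
    ← map_mul (toK b D N K)]
  rfl

/-- The equation of the curve in the function field. -/
theorem uK_eq {k : Type} [Field k] {b D N : k[X]} {j : ℕ} (h : Data k b D N j)
    (K : Type) [Field K] [Algebra (Cub k[X] b D N) K] [IsFractionRing (Cub k[X] b D N) K] :
    toK b D N K b * uK b D N K ^ 3 = uK b D N K + toK b D N K N / toK b D N K D := by
  have hb : toK b D N K b ≠ 0 := Ma_toK_ne K h.b_monic.ne_zero
  have hD : toK b D N K D ≠ 0 := Ma_toK_ne K h.D_monic.ne_zero
  have h1 := Ma_om_om (b := b) (D := D) (N := N) K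
  have h2 := Ma_om_th (b := b) (D := D) (N := N) K
  rw [uK, map_mul]
  have h3 : algebraMap (Cub k[X] b D N) K Cub.om ^ 3 =
      toK b D N K b * toK b D N K D * (toK b D N K D * algebraMap (Cub k[X] b D N) K Cub.om +
        toK b D N K b * toK b D N K D * toK b D N K N) := by
    rw [← h2]
    calc algebraMap (Cub k[X] b D N) K Cub.om ^ 3 =
        (algebraMap (Cub k[X] b D N) K Cub.om * algebraMap (Cub k[X] b D N) K Cub.om) *
          algebraMap (Cub k[X] b D N) K Cub.om := by ring
      _ = _ := by rw [h1]; ring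
  rw [div_pow, h3]
  field_simp

/-- Uniqueness of coordinates with respect to `1, u, u²`. -/
theorem coord_unique {k : Type} [Field k] {b D N : k[X]} {j : ℕ} (h : Data k b D N j)
    (K : Type) [Field K] [Algebra (Cub k[X] b D N) K] [IsFractionRing (Cub k[X] b D N) K]
    (P0 P1 P2 : k[X])
    (h0 : toK b D N K P0 + toK b D N K P1 * uK b D N K + toK b D N K P2 * uK b D N K ^ 2 = 0) :
    P0 = 0 ∧ P1 = 0 ∧ P2 = 0 := by
  have hb : toK b D N K b ≠ 0 := Ma_toK_ne K h.b_monic.ne_zero
  have hD : toK b D N K D ≠ 0 := Ma_toK_ne K h.D_monic.ne_zero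
  have h1 := Ma_om_om (b := b) (D := D) (N := N) K
  have h3 : toK b D N K b * toK b D N K D * toK b D N K P0 +
      toK b D N K P1 * algebraMap (Cub k[X] b D N) K Cub.om +
      toK b D N K P2 * algebraMap (Cub k[X] b D N) K Cub.th = 0 := by
    have hu1 : toK b D N K b * toK b D N K D * uK b D N K =
        algebraMap (Cub k[X] b D N) K Cub.om := by
      rw [uK, map_mul]
      field_simp
    have hu2 : toK b D N K b * toK b D N K D * uK b D N K ^ 2 =
        algebraMap (Cub k[X] b D N) K Cub.th := by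
      rw [uK, map_mul, div_pow, pow_two (algebraMap (Cub k[X] b D N) K Cub.om), h1]
      field_simp
    rw [← hu1, ← hu2]
    linear_combination (toK b D N K b * toK b D N K D) * h0
  have h4 : algebraMap (Cub k[X] b D N) K (⟨b * D * P0, P1, P2⟩ : Cub k[X] b D N) = 0 := by
    have h6 : (⟨b * D * P0, P1, P2⟩ : Cub k[X] b D N) =
        algebraMap k[X] _ (b * D * P0) + algebraMap k[X] _ P1 * Cub.om +
          algebraMap k[X] _ P2 * Cub.th := Cub.eq_basis _
    rw [h6, map_add, map_add, map_mul (algebraMap (Cub k[X] b D N) K),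
      map_mul (algebraMap (Cub k[X] b D N) K), ← h3, ← map_mul (toK b D N K),
      ← map_mul (toK b D N K)]
    rfl
  have h5 : (⟨b * D * P0, P1, P2⟩ : Cub k[X] b D N) = 0 := by
    apply IsFractionRing.injective (Cub k[X] b D N) K
    rw [h4, map_zero]
  have e0 := congrArg Cub.c0 h5
  have e1 := congrArg Cub.c1 h5
  have e2 := congrArg Cub.c2 h5
  simp only [Cub.zero_c0, Cub.zero_c1, Cub.zero_c2] at e0 e1 e2
  refine ⟨?_, e1, e2⟩
  rcases mul_eq_zero.mp e0 with h6 | h6
  · exact absurd h6 (mul_ne_zero h.b_monic.ne_zero h.D_monic.ne_zero)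
  · exact h6

end Pool.Agent.PR3
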