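import Pool.Agent.LibPR3.Ma

set_option autoImplicit false

open Polynomial

namespace Pool.Agent.PR3

section Mb

variable {k : Type} [Field k] {b D N : k[X]} {K : Type} [Field K] [Algebra (Cub k[X] b D N) K]

theorem Mb_toK_inj [IsFractionRing (Cub k[X] b D N) K] {P : k[X]} (hP : toK b D N K P = 0) :
    P = 0 := by
  have h1 : algebraMap k[X] (Cub k[X] b D N) P = 0 := by
    apply IsFractionRing.injective (Cub k[X] b D N) K
    rw [map_zero]
    exact hP
  have h2 := congrArg Cub.c0 h1
  simpa using h2

theorem Mb_three [CharP K 3] : (3 : K) = 0 := by exact_mod_cast CharP.cast_eq_zero K 3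

theorem Mb_om [IsFractionRing (Cub k[X] b D N) K] (hb : b ≠ 0) (hD : D ≠ 0) :
    algebraMap (Cub k[X] b D N) K Cub.om = toK b D N K b * toK b D N K D * uK b D N K := by
  have hb' : toK b D N K b ≠ 0 := fun h => hb (Mb_toK_inj h)
  have hD' : toK b D N K D ≠ 0 := fun h => hD (Mb_toK_inj h)
  rw [uK, map_mul]
  field_simp

theorem Mb_th [IsFractionRing (Cub k[X] b D N) K] (hb : b ≠ 0) (hD : D ≠ 0) :
    algebraMap (Cub k[X] b D N) K Cub.th = toK b D N K b * toK b D N K D * uK b D N K ^ 2 := by
  have hb' : toK b D N K b ≠ 0 := fun h => hb (Mb_toK_inj h)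
  have hD' : toK b D N K D ≠ 0 := fun h => hD (Mb_toK_inj h)
  have h1 := congrArg (algebraMap (Cub k[X] b D N) K) (Cub.om_mul_om (b := b) (D := D) (N := N))
  rw [map_mul, map_mul, Mb_om hb hD] at h1
  have h2 : algebraMap (Cub k[X] b D N) K (algebraMap k[X] (Cub k[X] b D N) (b * D)) =
      toK b D N K b * toK b D N K D := by
    rw [← map_mul]; rfl
  rw [h2] at h1
  have h3 : toK b D N K b * toK b D N K D ≠ 0 := mul_ne_zero hb' hD'
  apply mul_left_cancel₀ h3
  rw [← h1]
  ring

theorem Mb_dd (dd : Derivation ℤ K K) (hconst : ∀ c : k, dd (toK b D N K (C c)) = 0)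
    (hx : dd (toK b D N K X) = 1) (P : k[X]) :
    dd (toK b D N K P) = toK b D N K (derivative P) := by
  induction P using Polynomial.induction_on' with
  | add p q hp hq => rw [map_add, map_add, hp, hq, derivative_add, map_add]
  | monomial n c =>
    rw [← C_mul_X_pow_eq_monomial, map_mul, map_pow, Derivation.leibniz, hconst,
      Derivation.leibniz_pow, hx, derivative_C_mul_X_pow]
    simp only [map_mul, map_pow, smul_eq_mul, nsmul_eq_mul, mul_one, mul_zero, add_zero]
    rw [show (C (n : k)) = ((n : ℕ) : k[X]) from by simp, map_natCast]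
    ring

/-- the polynomial `μ` -/
noncomputable def Mb_mu (b D N : k[X]) : k[X] :=
  D * (derivative b * N - b * derivative N) + b * N * derivative D

theorem Mb_dom {j : ℕ} (h : Data k b D N j) [CharP K 3] [IsFractionRing (Cub k[X] b D N) K]
    (dd : Derivation ℤ K K) (hconst : ∀ c : k, dd (toK b D N K (C c)) = 0)
    (hx : dd (toK b D N K X) = 1) :
    toK b D N K D * dd (algebraMap (Cub k[X] b D N) K Cub.om) = toK b D N K (Mb_mu b D N) +
      toK b D N K ((2 * derivative b * D + b * derivative D) * D) * uK b D N K ∧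
    toK b D N K D * dd (algebraMap (Cub k[X] b D N) K Cub.th) =
      toK b D N K (b * D * derivative D) * uK b D N K ^ 2 -
        toK b D N K (Mb_mu b D N) * uK b D N K := by
  have hb := h.b_monic.ne_zero
  have hD := h.D_monic.ne_zero
  have hD' : toK b D N K D ≠ 0 := fun h => hD (Mb_toK_inj h)
  have hE := uK_eq h K
  have h3 := Mb_three (K := K)
  set u := uK b D N K with hu
  set E := toK b D N K N / toK b D N K D with hEdef
  have hED : E * toK b D N K D = toK b D N K N := by
    rw [hEdef]; field_simp
  have hED' : dd E * toK b D N K D + E * toK b D N K (derivative D) =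
      toK b D N K (derivative N) := by
    have h1 := congrArg dd hED
    rw [Derivation.leibniz, Mb_dd dd hconst hx, Mb_dd dd hconst hx, smul_eq_mul, smul_eq_mul] at h1
    rw [← h1]; ring
  have hu' : dd u = toK b D N K (derivative b) * u ^ 3 - dd E := by
    have h1 := congrArg dd hE
    rw [Derivation.leibniz, Derivation.leibniz_pow, map_add, Mb_dd dd hconst hx] at h1
    simp only [smul_eq_mul, nsmul_eq_mul] at h1
    push_cast at h1
    rw [h3] at h1
    linear_combination -h1
  rw [Mb_om hb hD, Mb_th hb hD, Mb_mu, ← hu]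
  simp only [Derivation.leibniz, Derivation.leibniz_pow, Mb_dd dd hconst hx, hu', smul_eq_mul,
    nsmul_eq_mul, map_add, map_sub, map_mul, map_ofNat]
  push_cast
  generalize toK b D N K b = B at *
  generalize toK b D N K D = T at *
  generalize toK b D N K N = n at *
  generalize toK b D N K (derivative b) = B' at *
  generalize toK b D N K (derivative D) = T' at *
  generalize toK b D N K (derivative N) = n' at *
  generalize dd E = E' at *
  constructor
  · linear_combination (T ^ 2 * B') * hE + (T * B' + B * T') * hED - B * T * hED'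
  · linear_combination (2 * T ^ 2 * B' * u) * hE + (2 * T * B' * u + 2 * B * T' * u) * hED
      - 2 * B * T * u * hED' + (T ^ 2 * B' * u ^ 2 + (T * (B' * n - B * n') + B * n * T') * u) * h3

end Mb

section Mb2

variable {k : Type} [Field k] {b D N : k[X]}

/-- the form of the elements of the module -/
def Mb_In (b D N : k[X]) (K : Type) [Field K] [Algebra (Cub k[X] b D N) K] (a : K) : Prop :=
  ∃ P0 P1 P2 : k[X], toK b D N K D * a =
    toK b D N K P0 + toK b D N K P1 * uK b D N K + toK b D N K (D * b * P2) * uK b D N K ^ 2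

variable {K : Type} [Field K] [Algebra (Cub k[X] b D N) K]

theorem Mb_In_add {a a' : K} (ha : Mb_In b D N K a) (ha' : Mb_In b D N K a') :
    Mb_In b D N K (a + a') := by
  obtain ⟨P0, P1, P2, hP⟩ := ha
  obtain ⟨Q0, Q1, Q2, hQ⟩ := ha'
  refine ⟨P0 + Q0, P1 + Q1, P2 + Q2, ?_⟩
  rw [mul_add, hP, hQ]
  simp only [map_add, map_mul, mul_add]
  ring

theorem Mb_In_toK (P : k[X]) {a : K} (ha : Mb_In b D N K a) :
    Mb_In b D N K (toK b D N K P * a) := by
  obtain ⟨P0, P1, P2, hP⟩ := ha
  refine ⟨P * P0, P * P1, P * P2, ?_⟩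
  simp only [map_mul] at hP ⊢
  linear_combination (toK b D N K P) * hP

theorem Mb_In_om {j : ℕ} (h : Data k b D N j) [IsFractionRing (Cub k[X] b D N) K] {a : K}
    (ha : Mb_In b D N K a) : Mb_In b D N K (algebraMap (Cub k[X] b D N) K Cub.om * a) := by
  obtain ⟨P0, P1, P2, hP⟩ := ha
  have hD := h.D_monic.ne_zero
  have hD' : toK b D N K D ≠ 0 := fun h => hD (Mb_toK_inj h)
  have hE := uK_eq h K
  refine ⟨D * b * N * P2, b * D * P0 + D ^ 2 * b * P2, P1, ?_⟩
  rw [Mb_om h.b_monic.ne_zero hD]
  simp only [map_mul, map_add, map_pow] at hP ⊢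
  have hED : toK b D N K N / toK b D N K D * toK b D N K D = toK b D N K N := by
    field_simp
  generalize toK b D N K N / toK b D N K D = E at *
  linear_combination (toK b D N K b * toK b D N K D * uK b D N K) * hP +
    (toK b D N K D ^ 2 * toK b D N K b * toK b D N K P2) * hE +
    (toK b D N K D * toK b D N K b * toK b D N K P2) * hED

theorem Mb_In_th {j : ℕ} (h : Data k b D N j) [IsFractionRing (Cub k[X] b D N) K] {a : K}
    (ha : Mb_In b D N K a) : Mb_In b D N K (algebraMap (Cub k[X] b D N) K Cub.th * a) := by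
  obtain ⟨P0, P1, P2, hP⟩ := ha
  have hD := h.D_monic.ne_zero
  have hD' : toK b D N K D ≠ 0 := fun h => hD (Mb_toK_inj h)
  have hE := uK_eq h K
  refine ⟨N * P1, D * P1 + D * b * N * P2, P0 + D * P2, ?_⟩
  rw [Mb_th h.b_monic.ne_zero hD]
  simp only [map_mul, map_add] at hP ⊢
  have hED : toK b D N K N / toK b D N K D * toK b D N K D = toK b D N K N := by
    field_simp
  generalize toK b D N K N / toK b D N K D = E at *
  linear_combination (toK b D N K b * toK b D N K D * uK b D N K ^ 2) * hP +
    (toK b D N K D * toK b D N K P1 +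
      toK b D N K D ^ 2 * toK b D N K b * toK b D N K P2 * uK b D N K) * hE +
    (toK b D N K P1 + toK b D N K D * toK b D N K b * toK b D N K P2 * uK b D N K) * hED

/-- the elements of the stated form are a submodule -/
def Mb_M0 {j : ℕ} (h : Data k b D N j) (K : Type) [Field K] [Algebra (Cub k[X] b D N) K]
    [IsFractionRing (Cub k[X] b D N) K] : Submodule (Cub k[X] b D N) K where
  carrier := {a | Mb_In b D N K a}
  add_mem' := Mb_In_add
  zero_mem' := ⟨0, 0, 0, by simp⟩
  smul_mem' := by
    intro z a ha
    have hz := Cub.eq_basis z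
    have h1 : z • a = toK b D N K z.c0 * a +
        toK b D N K z.c1 * (algebraMap (Cub k[X] b D N) K Cub.om * a) +
        toK b D N K z.c2 * (algebraMap (Cub k[X] b D N) K Cub.th * a) := by
      rw [Algebra.smul_def]
      conv_lhs => rw [hz]
      simp only [map_add, map_mul]
      simp only [toK, RingHom.comp_apply]
      ring
    show Mb_In b D N K (z • a)
    rw [h1]
    exact Mb_In_add (Mb_In_add (Mb_In_toK _ ha) (Mb_In_toK _ (Mb_In_om h ha)))
      (Mb_In_toK _ (Mb_In_th h ha))

theorem Mb_In_one : Mb_In b D N K 1 := ⟨D, 0, 0, by simp⟩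

theorem Mb_decomp (z : Cub k[X] b D N) : algebraMap (Cub k[X] b D N) K z =
    toK b D N K z.c0 + toK b D N K z.c1 * algebraMap (Cub k[X] b D N) K Cub.om +
      toK b D N K z.c2 * algebraMap (Cub k[X] b D N) K Cub.th := by
  conv_lhs => rw [Cub.eq_basis z]
  simp only [map_add, map_mul]
  simp only [toK, RingHom.comp_apply]

theorem Mb_dd_eq (dd : Derivation ℤ K K) (hconst : ∀ c : k, dd (toK b D N K (C c)) = 0)
    (hx : dd (toK b D N K X) = 1) (z : Cub k[X] b D N) :
    dd (algebraMap (Cub k[X] b D N) K z) =
      toK b D N K (derivative z.c0) +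
      (toK b D N K z.c1 * dd (algebraMap (Cub k[X] b D N) K Cub.om) +
      algebraMap (Cub k[X] b D N) K Cub.om * toK b D N K (derivative z.c1)) +
      (toK b D N K z.c2 * dd (algebraMap (Cub k[X] b D N) K Cub.th) +
      algebraMap (Cub k[X] b D N) K Cub.th * toK b D N K (derivative z.c2)) := by
  rw [Mb_decomp]
  simp only [map_add, Derivation.leibniz, Mb_dd dd hconst hx, smul_eq_mul]

/-- the span is contained in the submodule -/
theorem Mb_span_le {j : ℕ} (h : Data k b D N j) [CharP K 3] [IsFractionRing (Cub k[X] b D N) K]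
    (dd : Derivation ℤ K K) (hconst : ∀ c : k, dd (toK b D N K (C c)) = 0)
    (hx : dd (toK b D N K X) = 1) :
    Submodule.span (Cub k[X] b D N)
        (Set.range fun f : Cub k[X] b D N => dd (algebraMap (Cub k[X] b D N) K f)) ≤
      Mb_M0 h K := by
  rw [Submodule.span_le]
  rintro _ ⟨z, rfl⟩
  show Mb_In b D N K (dd (algebraMap (Cub k[X] b D N) K z))
  obtain ⟨hom, hth⟩ := Mb_dom h (K := K) dd hconst hx
  have h1 : Mb_In b D N K (dd (algebraMap (Cub k[X] b D N) K Cub.om)) :=
    ⟨Mb_mu b D N, (2 * derivative b * D + b * derivative D) * D, 0, by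
      rw [hom, mul_zero, map_zero, zero_mul, add_zero]⟩
  have h2 : Mb_In b D N K (dd (algebraMap (Cub k[X] b D N) K Cub.th)) := by
    refine ⟨0, -Mb_mu b D N, derivative D, ?_⟩
    rw [hth]
    simp only [map_zero, map_neg, map_mul]
    ring
  rw [Mb_dd_eq dd hconst hx]
  have e0 : toK b D N K (derivative z.c0) = toK b D N K (derivative z.c0) * 1 := by ring
  have e1 : algebraMap (Cub k[X] b D N) K Cub.om * toK b D N K (derivative z.c1) =
    toK b D N K (derivative z.c1) * (algebraMap (Cub k[X] b D N) K Cub.om * 1) := by ring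
  have e2 : algebraMap (Cub k[X] b D N) K Cub.th * toK b D N K (derivative z.c2) =
    toK b D N K (derivative z.c2) * (algebraMap (Cub k[X] b D N) K Cub.th * 1) := by ring
  rw [e0, e1, e2]
  exact Mb_In_add (Mb_In_add (Mb_In_toK _ Mb_In_one)
    (Mb_In_add (Mb_In_toK _ h1) (Mb_In_toK _ (Mb_In_om h Mb_In_one))))
    (Mb_In_add (Mb_In_toK _ h2) (Mb_In_toK _ (Mb_In_th h Mb_In_one)))

/-- the submodule is contained in every submodule containing `1` and the derivatives of
`ω`, `θ` -/
theorem Mb_le_of_mem {j : ℕ} (h : Data k b D N j) [CharP k 3] [CharP K 3]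
    [IsFractionRing (Cub k[X] b D N) K]
    (dd : Derivation ℤ K K) (hconst : ∀ c : k, dd (toK b D N K (C c)) = 0)
    (hx : dd (toK b D N K X) = 1) (M : Submodule (Cub k[X] b D N) K) (h1 : (1 : K) ∈ M)
    (hom : dd (algebraMap (Cub k[X] b D N) K Cub.om) ∈ M)
    (hth : dd (algebraMap (Cub k[X] b D N) K Cub.th) ∈ M) : Mb_M0 h K ≤ M := by
  have hD := h.D_monic.ne_zero
  have hb := h.b_monic.ne_zero
  have hD' : toK b D N K D ≠ 0 := fun h => hD (Mb_toK_inj h)
  have h3 := Mb_three (K := K)
  have hsm : ∀ (z : Cub k[X] b D N) (a : K), a ∈ M → algebraMap (Cub k[X] b D N) K z * a ∈ M := by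
    intro z a ha
    rw [← Algebra.smul_def]
    exact M.smul_mem z ha
  have htK : ∀ (P : k[X]) (a : K), a ∈ M → toK b D N K P * a ∈ M := fun P a ha => hsm _ a ha
  obtain ⟨ho, ht⟩ := Mb_dom h (K := K) dd hconst hx
  set u := uK b D N K with hu
  set e1 : K := u / toK b D N K D with he1
  set e0 : K := 1 / toK b D N K D with he0
  have hDe1 : toK b D N K D * e1 = u := by rw [he1]; field_simp
  have hDe0 : toK b D N K D * e0 = 1 := by rw [he0]; field_simp
  have hA : toK b D N K (b * D ^ 2) * e1 ∈ M := by
    have h2 := hsm Cub.om 1 h1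
    rw [Mb_om hb hD, mul_one, ← hu, ← hDe1] at h2
    have h4 : toK b D N K (b * D ^ 2) * e1 =
        toK b D N K b * toK b D N K D * (toK b D N K D * e1) := by
      simp only [map_mul, map_pow]; ring
    rw [h4]; exact h2
  have hB : toK b D N K ((2 * derivative b * D + b * derivative D) * D ^ 2) * e1 ∈ M := by
    have h2 := M.sub_mem (htK D _ hom) (htK (Mb_mu b D N) _ h1)
    rw [ho, ← hDe1] at h2
    have h4 : toK b D N K ((2 * derivative b * D + b * derivative D) * D ^ 2) * e1 =
        toK b D N K (Mb_mu b D N) + toK b D N K ((2 * derivative b * D + b * derivative D) * D) *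
          (toK b D N K D * e1) - toK b D N K (Mb_mu b D N) * 1 := by
      simp only [map_mul, map_pow]; ring
    rw [h4]; exact h2
  have hC : toK b D N K (derivative b * D ^ 3) * e1 ∈ M := by
    have h2 := M.sub_mem (htK 2 _ hB) (htK (2 * derivative D) _ hA)
    have h4 : toK b D N K (derivative b * D ^ 3) * e1 =
        toK b D N K 2 * (toK b D N K ((2 * derivative b * D + b * derivative D) * D ^ 2) * e1) -
          toK b D N K (2 * derivative D) * (toK b D N K (b * D ^ 2) * e1) := by
      simp only [map_mul, map_pow, map_add, map_ofNat]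
      linear_combination -(toK b D N K (derivative b) * toK b D N K D ^ 3 * e1) * h3
    rw [h4]; exact h2
  have hD3 : toK b D N K (D ^ 3) * e1 ∈ M := by
    obtain ⟨r, s, hrs⟩ := h.b_sep
    have h2 := M.add_mem (htK (r * D) _ hA) (htK s _ hC)
    have h4 : toK b D N K (D ^ 3) * e1 = toK b D N K (r * D) * (toK b D N K (b * D ^ 2) * e1) +
        toK b D N K s * (toK b D N K (derivative b * D ^ 3) * e1) := by
      have h5 := congrArg (toK b D N K) hrs
      simp only [map_mul, map_pow, map_add, map_one] at h5 ⊢
      linear_combination -(toK b D N K D ^ 3 * e1) * h5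
    rw [h4]; exact h2
  have he1M : e1 ∈ M := by
    have hco : IsCoprime (b ^ 2 * N ^ 2 * derivative D) D :=
      ((h.hbD.pow_left).mul_left (h.hND.pow_left)).mul_left (IsCoprime.symm h.D_sep)
    obtain ⟨r, s, hrs⟩ := hco
    let κ : Cub k[X] b D N := algebraMap k[X] _ (derivative D * b) * Cub.th -
      algebraMap k[X] _ (derivative b * N - b * derivative N) *
        (Cub.om + algebraMap k[X] _ (b * N))
    let Z : Cub k[X] b D N := algebraMap k[X] _ r * κ + algebraMap k[X] _ s
    let m : K := toK b D N K r * (algebraMap (Cub k[X] b D N) K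
      (Cub.om + algebraMap k[X] _ (b * N)) * dd (algebraMap (Cub k[X] b D N) K Cub.th))
    have hm : m ∈ M := htK _ _ (hsm _ _ hth)
    have hZ : algebraMap (Cub k[X] b D N) K Z = toK b D N K r *
        (toK b D N K (derivative D * b) * (toK b D N K b * toK b D N K D * u ^ 2) -
        toK b D N K (derivative b * N - b * derivative N) *
        (toK b D N K b * toK b D N K D * u + toK b D N K (b * N))) + toK b D N K s := by
      rw [hu, ← Mb_om hb hD, ← Mb_th hb hD]
      simp only [Z, κ, map_add, map_mul, map_sub, toK, RingHom.comp_apply]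
    have hm' : m = toK b D N K r * ((toK b D N K b * toK b D N K D * u + toK b D N K (b * N)) *
        dd (algebraMap (Cub k[X] b D N) K Cub.th)) := by
      rw [hu, ← Mb_om hb hD]
      simp only [m, map_add, toK, RingHom.comp_apply]
    have hkey : e1 = toK b D N K D * (algebraMap (Cub k[X] b D N) K Z * e1) - m := by
      apply mul_left_cancel₀ hD'
      rw [mul_sub, hZ, hm']
      have h6 := congrArg (toK b D N K) hrs
      rw [Mb_mu] at ht
      simp only [map_mul, map_pow, map_add, map_sub, map_one] at h6 ht ⊢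
      linear_combination (-(toK b D N K D * e1)) * h6 +
        (toK b D N K r * (toK b D N K b * toK b D N K D * u + toK b D N K b * toK b D N K N)) * ht +
        (toK b D N K r * (toK b D N K b) ^ 2 * (toK b D N K N) ^ 2 * toK b D N K (derivative D) -
          toK b D N K D * toK b D N K r *
        (toK b D N K (derivative D) * toK b D N K b * (toK b D N K b * toK b D N K D * u ^ 2) -
        (toK b D N K (derivative b) * toK b D N K N - toK b D N K b * toK b D N K (derivative N)) *
        (toK b D N K b * toK b D N K D * u + toK b D N K b * toK b D N K N))) * hDe1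
    have h7 : e1 = algebraMap (Cub k[X] b D N) K (Z ^ 3) * (toK b D N K (D ^ 3) * e1) -
        toK b D N K (D ^ 2) * (algebraMap (Cub k[X] b D N) K (Z ^ 2) * m) -
        toK b D N K D * (algebraMap (Cub k[X] b D N) K Z * m) - m := by
      simp only [map_pow]
      linear_combination (1 + toK b D N K D * algebraMap (Cub k[X] b D N) K Z +
        toK b D N K D ^ 2 * algebraMap (Cub k[X] b D N) K Z ^ 2) * hkey
    rw [h7]
    exact M.sub_mem (M.sub_mem (M.sub_mem (hsm _ _ hD3) (htK _ _ (hsm _ _ hm)))
      (htK _ _ (hsm _ _ hm))) hm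
  have he0M : e0 ∈ M := by
    have hco : IsCoprime (b * N * derivative D) D :=
      (h.hbD.mul_left h.hND).mul_left (IsCoprime.symm h.D_sep)
    obtain ⟨r, s, hrs⟩ := hco
    have h2 := M.sub_mem hom (htK ((2 * derivative b * D + b * derivative D) * D) _ he1M)
    have h5 : toK b D N K (Mb_mu b D N) * e0 = dd (algebraMap (Cub k[X] b D N) K Cub.om) -
        toK b D N K ((2 * derivative b * D + b * derivative D) * D) * e1 := by
      apply mul_left_cancel₀ hD'
      linear_combination (toK b D N K (Mb_mu b D N)) * hDe0 - ho +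
        toK b D N K ((2 * derivative b * D + b * derivative D) * D) * hDe1
    rw [← h5] at h2
    have h6 := congrArg (toK b D N K) hrs
    have h8 : e0 = toK b D N K r * (toK b D N K (Mb_mu b D N) * e0) +
        toK b D N K (s - r * (derivative b * N - b * derivative N)) * 1 := by
      rw [Mb_mu]
      simp only [map_mul, map_add, map_sub, map_one] at h6 ⊢
      linear_combination (-e0) * h6 + (toK b D N K s - toK b D N K r *
        (toK b D N K (derivative b) * toK b D N K N -
          toK b D N K b * toK b D N K (derivative N))) * hDe0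
    rw [h8]
    exact M.add_mem (htK _ _ h2) (htK _ _ h1)
  rintro a ⟨P0, P1, P2, hP⟩
  have h9 : a = toK b D N K P0 * e0 + toK b D N K P1 * e1 +
      toK b D N K P2 * (algebraMap (Cub k[X] b D N) K Cub.om * e1) := by
    apply mul_left_cancel₀ hD'
    rw [hP, Mb_om hb hD, ← hu]
    simp only [map_mul]
    linear_combination (-toK b D N K P0) * hDe0 - (toK b D N K P1) * hDe1 -
      (toK b D N K P2 * toK b D N K b * toK b D N K D * u) * hDe1
  rw [h9]
  exact M.add_mem (M.add_mem (htK _ _ he0M) (htK _ _ he1M)) (htK _ _ (hsm _ _ he1M))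

end Mb2

/-- The module generated by the derivatives `df/dx`, `f ∈ A` (the differentials of the affine
curve). -/
theorem mem_span_iff {k : Type} [Field k] [CharP k 3] {b D N : k[X]} {j : ℕ}
    (h : Data k b D N j)
    (K : Type) [Field K] [CharP K 3] [Algebra (Cub k[X] b D N) K]
    [IsFractionRing (Cub k[X] b D N) K]
    (dd : Derivation ℤ K K) (hconst : ∀ c : k, dd (toK b D N K (C c)) = 0)
    (hx : dd (toK b D N K X) = 1) (a : K) :
    a ∈ Submodule.span (Cub k[X] b D N)
        (Set.range fun f : Cub k[X] b D N => dd (algebraMap (Cub k[X] b D N) K f)) ↔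
      ∃ P0 P1 P2 : k[X], toK b D N K D * a =
        toK b D N K P0 + toK b D N K P1 * uK b D N K + toK b D N K (D * b * P2) * uK b D N K ^ 2 := by
  constructor
  · intro ha
    exact Mb_span_le h dd hconst hx ha
  · intro ha
    apply Mb_le_of_mem h dd hconst hx _ _ _ _ (show a ∈ Mb_M0 h K from ha)
    · apply Submodule.subset_span
      exact ⟨algebraMap k[X] _ X, hx⟩
    · exact Submodule.subset_span ⟨Cub.om, rfl⟩
    · exact Submodule.subset_span ⟨Cub.th, rfl⟩

theorem span_fg {k : Type} [Field k] [CharP k 3] {b D N : k[X]} {j : ℕ}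
    (h : Data k b D N j)
    (K : Type) [Field K] [CharP K 3] [Algebra (Cub k[X] b D N) K]
    [IsFractionRing (Cub k[X] b D N) K]
    (dd : Derivation ℤ K K) (hconst : ∀ c : k, dd (toK b D N K (C c)) = 0)
    (hx : dd (toK b D N K X) = 1) :
    (Submodule.span (Cub k[X] b D N)
        (Set.range fun f : Cub k[X] b D N => dd (algebraMap (Cub k[X] b D N) K f))).FG := by
  have heq : Submodule.span (Cub k[X] b D N)
        (Set.range fun f : Cub k[X] b D N => dd (algebraMap (Cub k[X] b D N) K f)) =
      Submodule.span (Cub k[X] b D N) {1, dd (algebraMap (Cub k[X] b D N) K Cub.om),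
        dd (algebraMap (Cub k[X] b D N) K Cub.th)} := by
    apply le_antisymm
    · exact (Mb_span_le h dd hconst hx).trans (Mb_le_of_mem h dd hconst hx _
        (Submodule.subset_span (by simp)) (Submodule.subset_span (by simp))
        (Submodule.subset_span (by simp)))
    · rw [Submodule.span_le]
      rintro x hx'
      simp only [Set.mem_insert_iff, Set.mem_singleton_iff] at hx'
      rcases hx' with rfl | rfl | rfl
      · apply Submodule.subset_span
        exact ⟨algebraMap k[X] _ X, hx⟩
      · exact Submodule.subset_span ⟨Cub.om, rfl⟩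
      · exact Submodule.subset_span ⟨Cub.th, rfl⟩
  rw [heq]
  exact Submodule.fg_span (by simp)

end Pool.Agent.PR3
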