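import Pool.Agent.LibPR3.Defs

set_option autoImplicit false

open Polynomial

namespace Pool.Agent.PR3

/-- In characteristic `3` a second derivative is a cube. -/
theorem derivative_derivative_eq_cube {k : Type} [Field k] [IsAlgClosed k] [CharP k 3] (F : k[X]) :
    ∃ G : k[X], derivative (derivative F) = G ^ 3 := by
  haveI : Fact (Nat.Prime 3) := ⟨Nat.prime_three⟩
  haveI : ExpChar k 3 := ExpChar.prime Nat.prime_three
  have h3 : derivative (derivative (derivative F)) = 0 := by
    ext n
    rw [coeff_derivative, coeff_derivative, coeff_derivative, coeff_zero]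
    have h : (((n + 1) * (n + 2) * (n + 3) : ℕ) : k) = 0 := by
      rw [CharP.cast_eq_zero_iff k 3]
      have hn : n % 3 = 0 ∨ n % 3 = 1 ∨ n % 3 = 2 := by omega
      rcases hn with hn | hn | hn
      · exact Dvd.dvd.mul_left (by omega) _
      · exact Dvd.dvd.mul_right (Dvd.dvd.mul_left (by omega) _) _
      · exact Dvd.dvd.mul_right (Dvd.dvd.mul_right (by omega) _) _
    push_cast at h ⊢
    linear_combination (F.coeff (n + 1 + 1 + 1)) * h
  let φ : k →+* k := ((frobeniusEquiv k 3).symm : k ≃+* k).toRingHom
  have hφ : (frobenius k 3).comp φ = RingHom.id k := by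
    ext x
    exact (frobeniusEquiv k 3).apply_symm_apply x
  refine ⟨(contract 3 (derivative (derivative F))).map φ, ?_⟩
  rw [← map_frobenius_expand, ← map_expand, Polynomial.map_map, hφ, Polynomial.map_id]
  exact (expand_contract 3 h3 (by norm_num)).symm

section
variable {k : Type} [Field k] [IsAlgClosed k] [CharP k 3]

theorem N1_coeff_cube (G : k[X]) (n : ℕ) : (G ^ 3).coeff (3 * n) = G.coeff n ^ 3 := by
  haveI : Fact (Nat.Prime 3) := ⟨Nat.prime_three⟩
  haveI : ExpChar k 3 := ExpChar.prime Nat.prime_three
  rw [← map_frobenius_expand, coeff_map, mul_comm 3 n, coeff_expand_mul (by norm_num)]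
  rfl

theorem N1_three : (3 : k) = 0 := by
  have h : ((3 : ℕ) : k) = 0 := (CharP.cast_eq_zero_iff k 3 3).mpr dvd_rfl
  exact_mod_cast h

theorem N1_three' : (3 : k[X]) = 0 := by
  have h : (C (3 : k) : k[X]) = 0 := by rw [N1_three, C_0]
  rw [← h]
  exact (map_ofNat C 3).symm

/-- the operator is a cube -/
theorem N1_cube (B P : k[X]) :
    ∃ G : k[X], P ^ 3 + derivative (derivative (B * P)) = G ^ 3 := by
  obtain ⟨G, hG⟩ := derivative_derivative_eq_cube (B * P)
  refine ⟨P + G, ?_⟩
  rw [hG]
  linear_combination (-(P ^ 2 * G + P * G ^ 2)) * (N1_three' : (3 : k[X]) = 0)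

/-- number of roots of `Y³ = cY` -/
theorem N1_card_root (c : k) (hc : c ≠ 0) : Nat.card {y : k // y ^ 3 = c * y} = 3 := by
  classical
  obtain ⟨r, hr⟩ := IsAlgClosed.exists_pow_nat_eq c (n := 2) (by norm_num)
  have hr0 : r ≠ 0 := by
    rintro rfl
    apply hc
    rw [← hr]
    ring
  have h2 : (2 : k) ≠ 0 := by
    intro h
    have h3 := (N1_three : (3 : k) = 0)
    have : (1 : k) = 0 := by linear_combination h3 - h
    exact one_ne_zero this
  have hne : r ≠ -r := by
    intro h
    have : 2 * r = 0 := by linear_combination h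
    rcases mul_eq_zero.1 this with h | h
    · exact h2 h
    · exact hr0 h
  have hset : {y : k | y ^ 3 = c * y} = ({0, r, -r} : Finset k) := by
    ext y
    simp only [Set.mem_setOf_eq, Finset.coe_insert, Finset.coe_singleton, Set.mem_insert_iff,
      Set.mem_singleton_iff]
    constructor
    · intro h
      have : y * ((y - r) * (y + r)) = 0 := by linear_combination h + (-y) * hr + 0 * hr
      rcases mul_eq_zero.1 this with h | h
      · exact Or.inl h
      · rcases mul_eq_zero.1 h with h | h
        · exact Or.inr (Or.inl (sub_eq_zero.1 h))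
        · exact Or.inr (Or.inr (eq_neg_of_add_eq_zero_left h))
    · rintro (rfl | rfl | rfl)
      · ring
      · linear_combination y * hr
      · linear_combination (-r) * hr
  have h1 : Nat.card {y : k // y ^ 3 = c * y} = ({y : k | y ^ 3 = c * y} : Set k).ncard := rfl
  rw [h1, hset, Set.ncard_coe_finset]
  rw [Finset.card_insert_of_notMem, Finset.card_insert_of_notMem, Finset.card_singleton]
  · simpa using hne
  · simp only [Finset.mem_insert, Finset.mem_singleton, not_or]
    exact ⟨hr0.symm, fun h => hr0 (by simpa using h.symm)⟩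

open Classical in
/-- number of roots of `Y³ - cY - d` -/
theorem N1_card_affine (c d : k) :
    Nat.card {y : k // y ^ 3 - c * y - d = 0} = if c = 0 then 1 else 3 := by
  -- a particular solution
  obtain ⟨y0, hy0⟩ : ∃ y0 : k, y0 ^ 3 - c * y0 - d = 0 := by
    have hdeg : (X ^ 3 - C c * X - C d : k[X]).degree = 3 := by compute_degree!
    obtain ⟨y0, hy0⟩ := IsAlgClosed.exists_root (X ^ 3 - C c * X - C d : k[X]) (by rw [hdeg]; decide)
    refine ⟨y0, ?_⟩
    simpa using hy0
  have h3 := (N1_three : (3 : k) = 0)
  have e : {y : k // y ^ 3 - c * y - d = 0} ≃ {y : k // y ^ 3 = c * y} :=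
    { toFun := fun y => ⟨y.1 - y0, by
        linear_combination y.2 - hy0 + (-(y.1 ^ 2 * y0) + y.1 * y0 ^ 2) * h3⟩
      invFun := fun y => ⟨y.1 + y0, by
        linear_combination y.2 + hy0 + (y.1 ^ 2 * y0 + y.1 * y0 ^ 2) * h3⟩
      left_inv := fun y => by ext; simp
      right_inv := fun y => by ext; simp }
  rw [Nat.card_congr e]
  split_ifs with hc
  · subst hc
    have : Unique {y : k // y ^ 3 = 0 * y} :=
      { default := ⟨0, by ring⟩
        uniq := fun y => by
          ext
          have h := y.2
          rw [zero_mul] at h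
          exact pow_eq_zero_iff (by norm_num) |>.1 h }
    exact Nat.card_unique
  · exact N1_card_root c hc

/-- degree bound for solutions -/
theorem N1_natDegree_le (b D : k[X]) (hbd : b.natDegree ≤ 3) (hD : D.Monic) (P : k[X])
    (hP : P ^ 3 + derivative (derivative (b * D ^ 2 * P)) = 0) : P.natDegree ≤ D.natDegree := by
  by_contra hcon
  push Not at hcon
  have h1 : P ^ 3 = -derivative (derivative (b * D ^ 2 * P)) := eq_neg_of_add_eq_zero_left hP
  have h2 : (P ^ 3).natDegree = 3 * P.natDegree := natDegree_pow P 3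
  have h3 : (derivative (derivative (b * D ^ 2 * P))).natDegree ≤ (b * D ^ 2 * P).natDegree - 2 := by
    have := natDegree_derivative_le (derivative (b * D ^ 2 * P))
    have := natDegree_derivative_le (b * D ^ 2 * P)
    omega
  have h4 : (b * D ^ 2 * P).natDegree ≤ 3 + 2 * D.natDegree + P.natDegree := by
    have h5 := natDegree_mul_le (p := b * D ^ 2) (q := P)
    have h6 := natDegree_mul_le (p := b) (q := D ^ 2)
    have h7 : (D ^ 2).natDegree = 2 * D.natDegree := natDegree_pow D 2
    omega
  rw [h1, natDegree_neg] at h2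
  omega

/-- the operator has degree at most `3κ` -/
theorem N1_zero_iff (b D : k[X]) (hbd : b.natDegree ≤ 3) (hD : D.Monic) (s : Finset k)
    (hs : s.card = D.natDegree) (hsD : ∀ x ∈ s, D.eval x = 0) (P : k[X])
    (hP : P.natDegree ≤ D.natDegree) :
    P ^ 3 + derivative (derivative (b * D ^ 2 * P)) = 0 ↔
      (∀ x ∈ s, (P ^ 3 + derivative (derivative (b * D ^ 2 * P))).eval x = 0) ∧
      (P ^ 3 + derivative (derivative (b * D ^ 2 * P))).coeff (3 * D.natDegree) = 0 := by
  constructor
  · intro h
    rw [h]
    simp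
  · rintro ⟨h1, h2⟩
    obtain ⟨G, hG⟩ := N1_cube (b * D ^ 2) P
    rw [hG] at h1 h2 ⊢
    have hdeg : (G ^ 3).natDegree ≤ 3 * D.natDegree + 1 := by
      rw [← hG]
      refine (natDegree_add_le _ _).trans (max_le ?_ ?_)
      · have : (P ^ 3).natDegree = 3 * P.natDegree := natDegree_pow P 3
        omega
      · have h5 := natDegree_mul_le (p := b * D ^ 2) (q := P)
        have h6 := natDegree_mul_le (p := b) (q := D ^ 2)
        have h7 : (D ^ 2).natDegree = 2 * D.natDegree := natDegree_pow D 2
        have h8 := natDegree_derivative_le (derivative (b * D ^ 2 * P))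
        have h9 := natDegree_derivative_le (b * D ^ 2 * P)
        omega
    rw [natDegree_pow] at hdeg
    have hGdeg : G.natDegree ≤ D.natDegree := by omega
    rw [N1_coeff_cube] at h2
    have hc : G.coeff D.natDegree = 0 := pow_eq_zero_iff (by norm_num) |>.1 h2
    have hlt : G.degree < s.card := by
      rw [hs]
      rcases lt_or_eq_of_le hGdeg with h | h
      · exact degree_le_natDegree.trans_lt (by exact_mod_cast h)
      · have : G = 0 := by
          rw [← h] at hc
          exact leadingCoeff_eq_zero.1 hc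
        rw [this, degree_zero]
        exact WithBot.bot_lt_coe _
    have hG0 : G = 0 := eq_zero_of_degree_lt_of_eval_finset_eq_zero s hlt (fun x hx => by
      have := h1 x hx
      rw [eval_pow] at this
      exact pow_eq_zero_iff (by norm_num) |>.1 this)
    rw [hG0]
    ring

/-- value at a root of `D` -/
theorem N1_eval (b D P : k[X]) (x : k) (hx : D.eval x = 0) :
    (P ^ 3 + derivative (derivative (b * D ^ 2 * P))).eval x
      = P.eval x ^ 3 - (b.eval x * (derivative D).eval x ^ 2) * P.eval x := by
  have h3 := (N1_three : (3 : k) = 0)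
  simp only [derivative_add, derivative_mul, derivative_pow, eval_add, eval_mul, eval_pow, hx]
  simp
  linear_combination (b.eval x * (derivative D).eval x ^ 2 * P.eval x) * h3

theorem N1_coeff_cube_zero (G : k[X]) (n : ℕ) (hn : ¬ 3 ∣ n) : (G ^ 3).coeff n = 0 := by
  haveI : Fact (Nat.Prime 3) := ⟨Nat.prime_three⟩
  haveI : ExpChar k 3 := ExpChar.prime Nat.prime_three
  rw [← map_frobenius_expand, coeff_map, coeff_expand (by norm_num), if_neg hn, map_zero]

/-- coefficient `m + 2` of a product with a polynomial of degree at most `3` -/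
theorem N1_coeff_mul (b W : k[X]) (hbd : b.natDegree ≤ 3) (m : ℕ) (hm : 1 ≤ m)
    (hW : W.natDegree ≤ m) :
    (b * W).coeff (m + 2) = b.coeff 2 * W.coeff m + b.coeff 3 * W.coeff (m - 1) := by
  have hb' : (b - C (b.coeff 3) * X ^ 3).natDegree ≤ 2 := by
    rw [natDegree_le_iff_coeff_eq_zero]
    intro i hi
    rw [coeff_sub, coeff_C_mul, coeff_X_pow]
    split_ifs with h
    · subst h; ring
    · rw [mul_zero, sub_zero]
      exact coeff_eq_zero_of_natDegree_lt (by omega)
  have e1 : b * W = (b - C (b.coeff 3) * X ^ 3) * W + C (b.coeff 3) * (X ^ 3 * W) := by ring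
  have e2 : ((b - C (b.coeff 3) * X ^ 3) * W).coeff (2 + m)
      = (b - C (b.coeff 3) * X ^ 3).coeff 2 * W.coeff m := coeff_mul_add_eq_of_natDegree_le hb' hW
  have e3 : (b - C (b.coeff 3) * X ^ 3).coeff 2 = b.coeff 2 := by
    rw [coeff_sub, coeff_C_mul, coeff_X_pow, if_neg (by norm_num)]
    ring
  have e4 : (X ^ 3 * W).coeff (m + 2) = W.coeff (m - 1) := by
    have : m + 2 = (m - 1) + 3 := by omega
    rw [this, coeff_X_pow_mul]
  rw [e1, coeff_add, coeff_C_mul, e4, Nat.add_comm m 2, e2, e3]

/-- the top coefficient -/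
theorem N1_top (b D : k[X]) (hbd : b.natDegree ≤ 3) (hD : D.Monic) (q : k) (L : k[X])
    (hL : L.degree < D.natDegree) :
    ((C q * D + L) ^ 3 + derivative (derivative (b * D ^ 2 * (C q * D + L)))).coeff
        (3 * D.natDegree)
      = q ^ 3 - b.coeff 2 * q - b.coeff 3 * L.coeff (D.natDegree - 1) := by
  have h3 := (N1_three : (3 : k) = 0)
  have hLκ : L.coeff D.natDegree = 0 := coeff_eq_zero_of_degree_lt hL
  rw [coeff_add, N1_coeff_cube, coeff_derivative, coeff_derivative]
  have e1 : (C q * D + L).coeff D.natDegree = q := by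
    rw [coeff_add, coeff_C_mul, hLκ, hD.coeff_natDegree]
    ring
  have e2 : (b * D ^ 2 * (C q * D + L)).coeff (3 * D.natDegree + 1 + 1)
      = b.coeff 2 * q + b.coeff 3 * L.coeff (D.natDegree - 1) := by
    rcases Nat.eq_zero_or_pos D.natDegree with h0 | hpos
    · have hD1 : D = 1 := hD.natDegree_eq_zero.1 h0
      have hL0 : L = 0 := by
        rw [h0] at hL
        have : L.degree < 0 := hL
        exact degree_eq_bot.1 (by
          by_contra hne
          have := zero_le_degree_iff.2 (degree_ne_bot.1 hne)
          exact absurd hL (not_lt.2 this))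
      subst hD1
      rw [hL0]
      simp
    · have hLn : L.natDegree ≤ D.natDegree - 1 := by
        rcases eq_or_ne L 0 with h | h
        · rw [h]; simp
        · have := (natDegree_lt_iff_degree_lt h).2 hL
          omega
      have hD2 : (D ^ 2).natDegree ≤ 2 * D.natDegree := (natDegree_pow D 2).le
      have hD2c : (D ^ 2).coeff (2 * D.natDegree) = 1 := by
        have h := (hD.pow 2).coeff_natDegree
        rw [hD.natDegree_pow] at h
        exact h
      have eW : D ^ 2 * (C q * D + L) = C q * D ^ 3 + D ^ 2 * L := by ring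
      have hDL : (D ^ 2 * L).natDegree ≤ 3 * D.natDegree - 1 := by
        have := natDegree_mul_le (p := D ^ 2) (q := L)
        omega
      have hW1 : (D ^ 2 * (C q * D + L)).coeff (3 * D.natDegree) = q := by
        rw [eW, coeff_add, coeff_C_mul, N1_coeff_cube, hD.coeff_natDegree,
          coeff_eq_zero_of_natDegree_lt (by omega)]
        ring
      have hW2 : (D ^ 2 * (C q * D + L)).coeff (3 * D.natDegree - 1)
          = L.coeff (D.natDegree - 1) := by
        have h5 : 3 * D.natDegree - 1 = 2 * D.natDegree + (D.natDegree - 1) := by omega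
        rw [eW, coeff_add, coeff_C_mul, N1_coeff_cube_zero D _ (by omega), h5,
          coeff_mul_add_eq_of_natDegree_le hD2 hLn, hD2c]
        ring
      have hW3 : (D ^ 2 * (C q * D + L)).natDegree ≤ 3 * D.natDegree := by
        rw [eW]
        refine (natDegree_add_le _ _).trans (max_le ?_ (by omega))
        refine (natDegree_C_mul_le _ _).trans ?_
        exact (natDegree_pow D 3).le
      rw [mul_assoc, N1_coeff_mul b _ hbd (3 * D.natDegree) (by omega) hW3, hW1, hW2]
  rw [e1, e2]
  push_cast
  linear_combination (b.coeff 2 * q + b.coeff 3 * L.coeff (D.natDegree - 1)) *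
    (3 * (D.natDegree : k) ^ 2 + 3 * (D.natDegree : k) + 1) * h3

end

/-- The number of polynomial solutions of `P³ + (b D² P)'' = 0`. -/
theorem card_N1 {k : Type} [Field k] [IsAlgClosed k] [CharP k 3] (b D : k[X])
    (hb : b ≠ 0) (hbd : b.natDegree ≤ 3) (hD : D.Monic) (hDs : D.Separable) (hbD : IsCoprime b D) :
    Nat.card {P : k[X] // P ^ 3 + derivative (derivative (b * D ^ 2 * P)) = 0} =
      3 ^ (D.natDegree + eps b) := by
  classical
  have _ := hb
  let s : Finset k := D.roots.toFinset
  have hsD : ∀ x ∈ s, D.eval x = 0 := fun x hx => by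
    have := (Multiset.mem_toFinset.1 hx)
    exact (mem_roots hD.ne_zero).1 this
  have hs : s.card = D.natDegree := by
    rw [Multiset.toFinset_card_of_nodup (nodup_roots hDs)]
    exact ((IsAlgClosed.splits D).natDegree_eq_card_roots).symm
  let c : k → k := fun x => b.eval x * (derivative D).eval x ^ 2
  have hc : ∀ x ∈ s, c x ≠ 0 := by
    intro x hx h
    rcases mul_eq_zero.1 h with h | h
    · obtain ⟨u, v, huv⟩ := hbD
      have := congrArg (eval x) huv
      rw [eval_add, eval_mul, eval_mul, h, hsD x hx, eval_one] at this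
      simp at this
    · have h' := pow_eq_zero_iff (by norm_num) |>.1 h
      obtain ⟨u, v, huv⟩ := hDs
      have := congrArg (eval x) huv
      rw [eval_add, eval_mul, eval_mul, h', hsD x hx, eval_one] at this
      simp at this
  let V := ∀ x : s, {y : k // y ^ 3 = c x.1 * y}
  let r : V → k → k := fun v x => if h : x ∈ s then (v ⟨x, h⟩).1 else 0
  let L : V → k[X] := fun v => Lagrange.interpolate s id (r v)
  have hinj : Set.InjOn (id : k → k) (s : Set k) := Function.injective_id.injOn
  have hLdeg : ∀ v, (L v).degree < (D.natDegree : WithBot ℕ) := by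
    intro v
    have := Lagrange.degree_interpolate_lt (r v) hinj
    rw [hs] at this
    exact this
  have hLev : ∀ v (x : s), (L v).eval x.1 = (v x).1 := by
    intro v x
    have := Lagrange.eval_interpolate_at_node (r v) hinj x.2
    change (L v).eval x.1 = r v x.1 at this
    rw [this]
    change (if h : x.1 ∈ s then (v ⟨x.1, h⟩).1 else 0) = _
    rw [dif_pos x.2]
  let Qf : V → Type := fun v =>
    {q : k // q ^ 3 - b.coeff 2 * q - b.coeff 3 * (L v).coeff (D.natDegree - 1) = 0}
  have hdeg : ∀ (v : V) (q : k), (C q * D + L v).natDegree ≤ D.natDegree := by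
    intro v q
    refine (natDegree_add_le _ _).trans (max_le (natDegree_C_mul_le _ _) ?_)
    rcases eq_or_ne (L v) 0 with h | h
    · rw [h]; simp
    · exact ((natDegree_lt_iff_degree_lt h).2 (hLdeg v)).le
  have hev : ∀ (v : V) (q : k) (x : s), (C q * D + L v).eval x.1 = (v x).1 := by
    intro v q x
    rw [eval_add, eval_mul, hsD x.1 x.2, mul_zero, zero_add, hLev]
  have hsol : ∀ (v : V) (q : Qf v), (C q.1 * D + L v) ^ 3 +
      derivative (derivative (b * D ^ 2 * (C q.1 * D + L v))) = 0 := by
    intro v q
    rw [N1_zero_iff b D hbd hD s hs hsD _ (hdeg v q.1)]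
    refine ⟨fun x hx => ?_, ?_⟩
    · rw [N1_eval b D _ x (hsD x hx), hev v q.1 ⟨x, hx⟩]
      have := (v ⟨x, hx⟩).2
      rw [this]
      change c x * _ - c x * _ = 0
      ring
    · rw [N1_top b D hbd hD q.1 (L v) (hLdeg v)]
      exact q.2
  let f : (Σ v : V, Qf v) → {P : k[X] // P ^ 3 + derivative (derivative (b * D ^ 2 * P)) = 0} :=
    fun z => ⟨C z.2.1 * D + L z.1, hsol z.1 z.2⟩
  have hf : Function.Bijective f := by
    constructor
    · rintro ⟨v, q⟩ ⟨v', q'⟩ h
      have h1 : C q.1 * D + L v = C q'.1 * D + L v' := congrArg Subtype.val h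
      have hv : v = v' := by
        funext x
        ext
        rw [← hev v q.1 x, ← hev v' q'.1 x, h1]
      subst hv
      have h2 : q.1 = q'.1 := by
        have h3 := congrArg (fun p => coeff p D.natDegree) h1
        simp only [coeff_add, coeff_C_mul, hD.coeff_natDegree, mul_one] at h3
        exact add_right_cancel h3
      have h4 : q = q' := Subtype.ext h2
      rw [h4]
    · rintro ⟨P, hP⟩
      have hPd := N1_natDegree_le b D hbd hD P hP
      have hPe : ∀ x : s, P.eval x.1 ^ 3 = c x.1 * P.eval x.1 := by
        intro x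
        have h1 := N1_eval b D P x.1 (hsD x.1 x.2)
        rw [hP, eval_zero] at h1
        exact sub_eq_zero.1 h1.symm
      let v : V := fun x => ⟨P.eval x.1, hPe x⟩
      have hlt : (P - C (P.coeff D.natDegree) * D).degree < s.card := by
        rw [hs]
        rw [degree_lt_iff_coeff_zero]
        intro m hm
        rw [coeff_sub, coeff_C_mul]
        rcases eq_or_lt_of_le hm with h | h
        · rw [← h, hD.coeff_natDegree]; ring
        · rw [coeff_eq_zero_of_natDegree_lt (lt_of_le_of_lt hPd h),
            coeff_eq_zero_of_natDegree_lt h]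
          ring
      have hPL : P - C (P.coeff D.natDegree) * D = L v := by
        refine Lagrange.eq_interpolate_of_eval_eq (r v) hinj hlt fun x hx => ?_
        rw [eval_sub, eval_mul]
        change P.eval x - _ * D.eval x = (if h : x ∈ s then (v ⟨x, h⟩).1 else 0)
        rw [hsD x hx, dif_pos hx]
        change _ = P.eval x
        ring
      have hPeq : C (P.coeff D.natDegree) * D + L v = P := by rw [← hPL]; ring
      have hq : P.coeff D.natDegree ^ 3 - b.coeff 2 * P.coeff D.natDegree
          - b.coeff 3 * (L v).coeff (D.natDegree - 1) = 0 := by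
        rw [← N1_top b D hbd hD (P.coeff D.natDegree) (L v) (hLdeg v), hPeq, hP, coeff_zero]
      exact ⟨⟨v, ⟨P.coeff D.natDegree, hq⟩⟩, Subtype.ext hPeq⟩
  rw [← Nat.card_congr (Equiv.ofBijective f hf)]
  have hcardQ : ∀ v, Nat.card (Qf v) = 3 ^ eps b := by
    intro v
    change Nat.card {q : k // q ^ 3 - b.coeff 2 * q -
      b.coeff 3 * (L v).coeff (D.natDegree - 1) = 0} = _
    rw [N1_card_affine]
    unfold eps
    split_ifs <;> simp
  have hfinQ : ∀ v, Finite (Qf v) := fun v =>
    Nat.finite_of_card_ne_zero (by rw [hcardQ v]; positivity)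
  have hfinY : ∀ x : s, Finite {y : k // y ^ 3 = c x.1 * y} := fun x =>
    Nat.finite_of_card_ne_zero (by rw [N1_card_root _ (hc x.1 x.2)]; norm_num)
  haveI : Finite V := Pi.finite
  haveI : Fintype V := Fintype.ofFinite V
  rw [Nat.card_sigma, Finset.sum_congr rfl fun v _ => hcardQ v, Finset.sum_const,
    Finset.card_univ, smul_eq_mul, ← Nat.card_eq_fintype_card]
  have hV : Nat.card V = 3 ^ D.natDegree := by
    change Nat.card (∀ x : s, {y : k // y ^ 3 = c x.1 * y}) = _
    rw [Nat.card_pi, Finset.prod_congr rfl fun x _ => N1_card_root _ (hc x.1 x.2),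
      Finset.prod_const, Finset.card_univ, Fintype.card_coe, hs]
  rw [hV, pow_add]

end Pool.Agent.PR3
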