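import Pool.Agent.LibPR3.N1

set_option autoImplicit false

open Polynomial

namespace Pool.Agent.PR3

/-- Degree bound for the cube root of a second derivative. -/
theorem N2_bound {k : Type} [Field k] (D P H : k[X])
    (hH : derivative (derivative (D ^ 2 * P)) = H ^ 3) :
    3 * H.natDegree ≤ 2 * D.natDegree + P.natDegree - 2 := by
  rw [← natDegree_pow, ← hH]
  have h1 := natDegree_derivative_le (derivative (D ^ 2 * P))
  have h2 := natDegree_derivative_le (D ^ 2 * P)
  have h3 : (D ^ 2 * P).natDegree ≤ 2 * D.natDegree + P.natDegree := by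
    refine natDegree_mul_le.trans ?_
    rw [natDegree_pow]
  omega

/-- Value of the second derivative at a root of `D`. -/
theorem N2_eval {k : Type} [Field k] (D P : k[X]) (x : k) (hx : D.eval x = 0) :
    (derivative (derivative (D ^ 2 * P))).eval x = 2 * (derivative D).eval x ^ 2 * P.eval x := by
  have h : derivative (derivative (D ^ 2 * P)) =
      2 * derivative D ^ 2 * P + D * (2 * derivative (derivative D) * P +
        4 * derivative D * derivative P + D * derivative (derivative P)) := by
    simp only [derivative_mul, derivative_pow, derivative_add, Nat.cast_ofNat, map_ofNat,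
      derivative_ofNat]
    norm_num
    ring
  rw [h]
  simp [hx]

/-- Small right hand side. -/
theorem N2_small {k : Type} [Field k] [IsAlgClosed k] [CharP k 3] (D : k[X])
    (hD : D.Monic) (hDs : D.Separable) (G : k[X]) (hG : G.natDegree < D.natDegree) :
    ∃ P : k[X], P ^ 3 + derivative (derivative (D ^ 2 * P)) = G ^ 3 := by
  classical
  set s : Finset k := D.roots.toFinset with hs
  have hcard : s.card = D.natDegree := by
    rw [hs, Multiset.toFinset_card_of_nodup (nodup_roots hDs)]
    exact (splits_iff_card_roots.1 (IsAlgClosed.splits D))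
  have hsol : ∀ x : k, ∃ Y : k, Y ^ 3 + 2 * (derivative D).eval x ^ 2 * Y = G.eval x ^ 3 := by
    intro x
    let q : k[X] := X ^ 3 + C (2 * (derivative D).eval x ^ 2) * X - C (G.eval x ^ 3)
    have hq : q.degree ≠ 0 := by
      have : q.degree = 3 := by
        simp only [q]
        compute_degree!
      rw [this]
      decide
    obtain ⟨Y, hY⟩ := IsAlgClosed.exists_root q hq
    refine ⟨Y, ?_⟩
    have h1 : q.eval Y = 0 := hY
    simp only [q, eval_sub, eval_add, eval_mul, eval_pow, eval_X, eval_C] at h1
    exact sub_eq_zero.1 h1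
  choose Y hY using hsol
  let P : k[X] := Lagrange.interpolate s id Y
  have hP : P.degree < s.card := Lagrange.degree_interpolate_lt _ (Set.injOn_id _)
  have hPev : ∀ x ∈ s, P.eval x = Y x := fun x hx =>
    Lagrange.eval_interpolate_at_node (v := id) Y (Set.injOn_id _) hx
  obtain ⟨H, hH⟩ := derivative_derivative_eq_cube (D ^ 2 * P)
  have hPn : P.natDegree < D.natDegree := by
    rw [← hcard]
    by_cases h0 : P = 0
    · rw [h0, natDegree_zero, hcard]
      exact lt_of_le_of_lt (Nat.zero_le _) hG
    · exact (natDegree_lt_iff_degree_lt h0).2 hP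
  have hHn : H.natDegree < D.natDegree := by
    have := N2_bound D P H hH
    omega
  have hS : P - G + H = 0 := by
    apply eq_zero_of_degree_lt_of_eval_finset_eq_zero s
    · rw [hcard]
      by_cases h0 : P - G + H = 0
      · rw [h0, degree_zero]
        exact WithBot.bot_lt_coe _
      · refine (natDegree_lt_iff_degree_lt h0).1 ?_
        refine lt_of_le_of_lt (natDegree_add_le _ _) (max_lt ?_ hHn)
        exact lt_of_le_of_lt (natDegree_sub_le _ _) (max_lt hPn hG)
    · intro x hx
      have hxD : D.eval x = 0 := by
        rw [hs, Multiset.mem_toFinset] at hx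
        exact (mem_roots'.1 hx).2
      have h1 : (P - G + H) ^ 3 = P ^ 3 - G ^ 3 + derivative (derivative (D ^ 2 * P)) := by
        rw [hH, add_pow_char, sub_pow_char]
      have h2 : ((P - G + H).eval x) ^ 3 = 0 := by
        rw [← eval_pow, h1, eval_add, eval_sub, eval_pow, eval_pow, N2_eval D P x hxD,
          hPev x hx, ← hY x]
        ring
      exact pow_eq_zero_iff (by norm_num) |>.1 h2
  refine ⟨P, ?_⟩
  have h1 : (P - G + H) ^ 3 = P ^ 3 - G ^ 3 + derivative (derivative (D ^ 2 * P)) := by
    rw [hH, add_pow_char, sub_pow_char]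
  rw [hS] at h1
  have h2 : P ^ 3 + derivative (derivative (D ^ 2 * P)) - G ^ 3 = 0 := by
    rw [← h1.symm.trans (by ring : (0 : k[X]) ^ 3 = 0)]
    ring
  exact sub_eq_zero.1 h2

/-- Solvability for cubes. -/
theorem N2_cube {k : Type} [Field k] [IsAlgClosed k] [CharP k 3] (D : k[X])
    (hD : D.Monic) (hDs : D.Separable) (n : ℕ) : ∀ G : k[X], G.natDegree = n →
    ∃ P : k[X], P ^ 3 + derivative (derivative (D ^ 2 * P)) = G ^ 3 := by
  induction n using Nat.strong_induction_on with
  | _ n ih =>
    intro G hG
    by_cases hlt : G.natDegree < D.natDegree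
    · exact N2_small D hD hDs G hlt
    · push Not at hlt
      rcases Nat.eq_zero_or_pos n with h0 | hpos
      · -- constants
        have hD0 : D.natDegree = 0 := by omega
        have hD1 : D = 1 := by
          rw [← hD.natDegree_eq_zero]
          exact hD0
        refine ⟨G, ?_⟩
        obtain ⟨c, hc⟩ : ∃ c, G = C c := ⟨_, eq_C_of_natDegree_eq_zero (by omega)⟩
        rw [hD1, hc]
        simp
      · set P0 : k[X] := C G.leadingCoeff * X ^ G.natDegree with hP0
        obtain ⟨H, hH⟩ := derivative_derivative_eq_cube (D ^ 2 * P0)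
        have hP0n : P0.natDegree ≤ n := by
          rw [hP0, hG]
          exact natDegree_C_mul_X_pow_le _ _
        have hHn : H.natDegree < n := by
          have := N2_bound D P0 H hH
          omega
        have hE : G.eraseLead + P0 = G := eraseLead_add_C_mul_X_pow G
        have hEn : G.eraseLead.natDegree < n := by
          rcases eraseLead_natDegree_lt_or_eraseLead_eq_zero G with h | h
          · omega
          · rw [h, natDegree_zero]
            exact hpos
        have hG'n : (G.eraseLead - H).natDegree < n :=
          lt_of_le_of_lt (natDegree_sub_le _ _) (max_lt hEn hHn)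
        obtain ⟨P1, hP1⟩ := ih _ hG'n (G.eraseLead - H) rfl
        refine ⟨P0 + P1, ?_⟩
        have h1 : derivative (derivative (D ^ 2 * (P0 + P1))) =
            H ^ 3 + derivative (derivative (D ^ 2 * P1)) := by
          rw [mul_add, derivative_add, derivative_add, hH]
        have h2 : G ^ 3 = G.eraseLead ^ 3 + P0 ^ 3 := by
          rw [← add_pow_char, hE]
        rw [sub_pow_char] at hP1
        rw [h1, h2, add_pow_char]
        have h3 : P0 ^ 3 + P1 ^ 3 + (H ^ 3 + derivative (derivative (D ^ 2 * P1))) =
            P0 ^ 3 + H ^ 3 + (P1 ^ 3 + derivative (derivative (D ^ 2 * P1))) := by ring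
        rw [h3, hP1]
        ring

/-- Solvability of the inhomogeneous equation. -/
theorem exists_N2 {k : Type} [Field k] [IsAlgClosed k] [CharP k 3] (D : k[X])
    (hD : D.Monic) (hDs : D.Separable) (F : k[X]) :
    ∃ P : k[X], P ^ 3 + derivative (derivative (D ^ 2 * P)) = derivative (derivative F) := by
  obtain ⟨G, hG⟩ := derivative_derivative_eq_cube F
  rw [hG]
  exact N2_cube D hD hDs _ G rfl

end Pool.Agent.PR3
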