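import Pool.Agent.LibPR3.N2

set_option autoImplicit false

open Polynomial

namespace Pool.Agent.PR3

theorem N3_add {k : Type} [Field k] [CharP k 3] (D P Q : k[X]) :
    (P + Q) ^ 3 + derivative (derivative (D ^ 2 * (P + Q))) =
      (P ^ 3 + derivative (derivative (D ^ 2 * P))) +
        (Q ^ 3 + derivative (derivative (D ^ 2 * Q))) := by
  have h3 : Fact (Nat.Prime 3) := ⟨Nat.prime_three⟩
  rw [add_pow_char, mul_add, derivative_add, derivative_add]
  ring

theorem N3_eps_one {k : Type} [Field k] : eps (1 : k[X]) = 0 := by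
  unfold eps
  rw [if_pos]
  rw [coeff_one]
  simp

/-- The number of pairs. -/
theorem card_N3 {k : Type} [Field k] [IsAlgClosed k] [CharP k 3] (b D N : k[X])
    (hb : b ≠ 0) (hbd : b.natDegree ≤ 3) (hD : D.Monic) (hDs : D.Separable) (hbD : IsCoprime b D) :
    Nat.card {p : k[X] × k[X] //
        p.2 ^ 3 + derivative (derivative (b * D ^ 2 * p.2)) = 0 ∧
        p.1 ^ 3 + derivative (derivative (D ^ 2 * p.1)) = derivative (derivative (D * N * p.2))} =
      3 ^ (2 * D.natDegree + eps b) := by
  choose sol hsol using fun P : k[X] => exists_N2 D hD hDs (D * N * P)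
  have h1 := card_N1 b D hb hbd hD hDs hbD
  have h2 := card_N1 (1 : k[X]) D one_ne_zero (by simp) hD hDs isCoprime_one_left
  rw [N3_eps_one, add_zero] at h2
  simp only [one_mul] at h2
  have hsub : ∀ P Q : k[X], P ^ 3 + derivative (derivative (D ^ 2 * P)) =
      Q ^ 3 + derivative (derivative (D ^ 2 * Q)) →
      (P - Q) ^ 3 + derivative (derivative (D ^ 2 * (P - Q))) = 0 := by
    intro P Q h
    have h3 := N3_add D (P - Q) Q
    rw [sub_add_cancel, h] at h3
    exact left_eq_add.1 (by rw [add_comm]; exact h3)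
  let e : {p : k[X] × k[X] //
        p.2 ^ 3 + derivative (derivative (b * D ^ 2 * p.2)) = 0 ∧
        p.1 ^ 3 + derivative (derivative (D ^ 2 * p.1)) = derivative (derivative (D * N * p.2))} ≃
      {P : k[X] // P ^ 3 + derivative (derivative (b * D ^ 2 * P)) = 0} ×
        {P : k[X] // P ^ 3 + derivative (derivative (D ^ 2 * P)) = 0} :=
    { toFun := fun p => (⟨p.1.2, p.2.1⟩, ⟨p.1.1 - sol p.1.2,
        hsub _ _ (p.2.2.trans (hsol p.1.2).symm)⟩)
      invFun := fun q => ⟨(q.2.1 + sol q.1.1, q.1.1), q.1.2, by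
        show (q.2.1 + sol q.1.1) ^ 3 + derivative (derivative (D ^ 2 * (q.2.1 + sol q.1.1))) = _
        rw [N3_add, q.2.2, zero_add, hsol]⟩
      left_inv := fun p => by
        apply Subtype.ext
        apply Prod.ext
        · exact sub_add_cancel _ _
        · rfl
      right_inv := fun q => by
        apply Prod.ext
        · rfl
        · apply Subtype.ext
          exact add_sub_cancel_right _ _ }
  rw [Nat.card_congr e, Nat.card_prod, h1, h2, ← pow_add]
  congr 1
  ring

end Pool.Agent.PR3
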