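import Pool.Agent.LibPR3.Defs

set_option autoImplicit false

open Polynomial

namespace Pool.Agent.PR3

/-- `3 = 0` in `F_3[X]`. -/
theorem P_three : (3 : (ZMod 3)[X]) = 0 := by
  have h : (3 : ZMod 3) = 0 := by decide
  have h2 : (3 : (ZMod 3)[X]) = C (3 : ZMod 3) := (map_ofNat C 3).symm
  rw [h2, h, C_0]

/-- The polynomial `D`. -/
noncomputable def P_D (κ : ℕ) : (ZMod 3)[X] :=
  if κ = 0 then 1 else if κ = 1 then X + 1 else X ^ κ - (X + 1)

theorem P_D_zero : P_D 0 = 1 := by simp [P_D]

theorem P_D_one : P_D 1 = X + 1 := by simp [P_D]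

theorem P_D_two (κ : ℕ) (h : 2 ≤ κ) : P_D κ = X ^ κ - (X + 1) := by
  unfold P_D
  rw [if_neg (by omega), if_neg (by omega)]

theorem P_degree_X_add_one : (X + 1 : (ZMod 3)[X]).degree = 1 := by
  rw [← C_1]
  exact degree_X_add_C 1

theorem P_D_monic (κ : ℕ) : (P_D κ).Monic := by
  rcases Nat.lt_or_ge κ 2 with h | h
  · interval_cases κ
    · rw [P_D_zero]
      exact monic_one
    · rw [P_D_one, ← C_1]
      exact monic_X_add_C 1
  · rw [P_D_two κ h]
    obtain ⟨l, rfl⟩ : ∃ l, κ = l + 1 := ⟨κ - 1, by omega⟩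
    apply monic_X_pow_sub
    rw [P_degree_X_add_one]
    exact_mod_cast (by omega : 1 < l + 1)

theorem P_D_natDegree (κ : ℕ) : (P_D κ).natDegree = κ := by
  rcases Nat.lt_or_ge κ 2 with h | h
  · interval_cases κ
    · rw [P_D_zero, natDegree_one]
    · rw [P_D_one, ← C_1, natDegree_X_add_C]
  · rw [P_D_two κ h]
    rw [natDegree_sub_eq_left_of_natDegree_lt]
    · exact natDegree_X_pow κ
    · rw [natDegree_X_pow, ← C_1, natDegree_X_add_C]
      omega

/-- evaluation at a point where `D` does not vanish -/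
theorem P_coprime_of_eval {p : (ZMod 3)[X]} {a : ZMod 3} (h : p.eval a ≠ 0) :
    IsCoprime (X - C a) p := by
  have hirr : Irreducible (X - C a : (ZMod 3)[X]) := irreducible_X_sub_C a
  rw [hirr.coprime_iff_not_dvd]
  intro hd
  exact h (dvd_iff_isRoot.1 hd)

theorem P_D_eval_zero (κ : ℕ) : (P_D κ).eval 0 ≠ 0 := by
  rcases Nat.lt_or_ge κ 2 with h | h
  · interval_cases κ
    · rw [P_D_zero]
      simp
    · rw [P_D_one]
      simp
  · rw [P_D_two κ h]
    have : (0 : ZMod 3) ^ κ = 0 := zero_pow (by omega)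
    simp [this]

theorem P_D_eval_one (κ : ℕ) : (P_D κ).eval 1 ≠ 0 := by
  rcases Nat.lt_or_ge κ 2 with h | h
  · interval_cases κ
    · rw [P_D_zero]
      simp
    · rw [P_D_one]
      simp only [eval_add, eval_X, eval_one]
      decide
  · rw [P_D_two κ h]
    simp only [eval_sub, eval_pow, eval_X, eval_add, eval_one, one_pow]
    decide

theorem P_D_sep (κ : ℕ) : (P_D κ).Separable := by
  rcases Nat.lt_or_ge κ 2 with h | h
  · interval_cases κ
    · rw [P_D_zero]
      exact separable_one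
    · rw [P_D_one, ← C_1]
      exact separable_X_add_C 1
  · have hD := P_D_two κ h
    have hd : derivative (P_D κ) = (κ : (ZMod 3)[X]) * X ^ (κ - 1) - 1 := by
      rw [hD]
      simp [derivative_X_pow]
    have hX : (X : (ZMod 3)[X]) * X ^ (κ - 1) = X ^ κ := by
      rw [← pow_succ']
      congr 1
      omega
    rw [separable_def]
    have h3 := P_three
    have hmod : κ % 3 = 0 ∨ κ % 3 = 1 ∨ κ % 3 = 2 := by omega
    rcases hmod with hk | hk | hk
    · have hκ : (κ : (ZMod 3)[X]) = 0 := by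
        obtain ⟨l, rfl⟩ : ∃ l, κ = 3 * l := ⟨κ / 3, by omega⟩
        push_cast
        rw [h3, zero_mul]
      rw [hd, hκ]
      exact ⟨0, -1, by ring⟩
    · have hκ : (κ : (ZMod 3)[X]) = 1 := by
        obtain ⟨l, hl⟩ : ∃ l, κ = 3 * l + 1 := ⟨κ / 3, by omega⟩
        rw [hl]
        push_cast
        rw [h3, zero_mul, zero_add]
      refine ⟨-1, X, ?_⟩
      rw [hd, hκ, hD]
      have : -1 * ((X : (ZMod 3)[X]) ^ κ - (X + 1)) + X * (1 * X ^ (κ - 1) - 1) =
          (X * X ^ (κ - 1) - X ^ κ) + 1 := by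
        ring
      rw [this, hX]
      ring
    · have hκ : (κ : (ZMod 3)[X]) = -1 := by
        obtain ⟨l, hl⟩ : ∃ l, κ = 3 * l + 2 := ⟨κ / 3, by omega⟩
        rw [hl]
        push_cast
        rw [h3]
        have : (2 : (ZMod 3)[X]) = 3 - 1 := by norm_num
        rw [this, h3]
        ring
      -- `D + X D' = X - 1`
      have hsum : P_D κ + X * derivative (P_D κ) = X - C 1 := by
        rw [hd, hκ, hD, C_1]
        have : (X : (ZMod 3)[X]) ^ κ - (X + 1) + X * (-1 * X ^ (κ - 1) - 1) =
          (X ^ κ - X * X ^ (κ - 1)) - 3 * X + (X - 1) := by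
          ring
        rw [this, hX, h3]
        ring
      have hc := P_coprime_of_eval (P_D_eval_one κ)
      rw [← hsum] at hc
      have hc2 : IsCoprime (X * derivative (P_D κ)) (P_D κ) := by
        have := hc.add_mul_left_left (-1)
        have h5 : P_D κ + X * derivative (P_D κ) + P_D κ * -1 = X * derivative (P_D κ) := by
          ring
        rwa [h5] at this
      exact (IsCoprime.of_mul_left_right hc2).symm

/-- `X² + 1` is coprime to `D`. -/
theorem P_coprime_sq (κ : ℕ) : IsCoprime (X ^ 2 + 1 : (ZMod 3)[X]) (P_D κ) := by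
  have h3 := P_three
  rcases Nat.lt_or_ge κ 2 with h | h
  · interval_cases κ
    · rw [P_D_zero]
      exact isCoprime_one_right
    · rw [P_D_one]
      refine ⟨-1, X - 1, ?_⟩
      have : -1 * (X ^ 2 + 1) + (X - 1) * (X + 1) = 1 - 3 * (1 : (ZMod 3)[X]) := by
        ring
      rw [this, h3]
      ring
  · rw [P_D_two κ h]
    -- powers of `X` modulo `X² + 1`
    have hpow : ∀ l : ℕ, ∃ q : (ZMod 3)[X], X ^ (4 * l) = 1 + (X ^ 2 + 1) * q := by
      intro l
      induction l with
      | zero => exact ⟨0, by simp⟩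
      | succ l ih =>
        obtain ⟨q, hq⟩ := ih
        refine ⟨q * X ^ 4 + (X ^ 2 - 1), ?_⟩
        have : X ^ (4 * (l + 1)) = X ^ (4 * l) * (X : (ZMod 3)[X]) ^ 4 := by
          rw [← pow_add]
          ring_nf
        rw [this, hq]
        ring
    obtain ⟨q, hq⟩ := hpow (κ / 4)
    have hsplit : (X : (ZMod 3)[X]) ^ κ = X ^ (4 * (κ / 4)) * X ^ (κ % 4) := by
      rw [← pow_add]
      congr 1
      omega
    have hmod : κ % 4 = 0 ∨ κ % 4 = 1 ∨ κ % 4 = 2 ∨ κ % 4 = 3 := by omega
    rcases hmod with hk | hk | hk | hk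
    · -- `D = -X`
      rw [hsplit, hk, hq]
      refine ⟨1 - q * X, X, ?_⟩
      ring
    · rw [hsplit, hk, hq]
      refine ⟨q * X, -1, ?_⟩
      ring
    · rw [hsplit, hk, hq]
      -- `D = X² + (X²+1) q X² - X - 1`, reduce to `-X - 2 = 1 - X`
      refine ⟨1 * (1 + X) * (1 + X ^ 2 * q) - 1, -(1 + X), ?_⟩
      have : (1 * (1 + X) * (1 + X ^ 2 * q) - 1) * (X ^ 2 + 1) +
          -(1 + X) * ((1 + (X ^ 2 + 1) * q) * X ^ 2 - (X + 1)) =
          1 + 3 * (X : (ZMod 3)[X]) * 1 + (0 : (ZMod 3)[X]) := by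
        ring
      rw [this, h3]
      ring
    · rw [hsplit, hk, hq]
      refine ⟨-(1 + (X + 1) * (X + q * X ^ 3)), X + 1, ?_⟩
      have : -(1 + (X + 1) * (X + q * X ^ 3)) * (X ^ 2 + 1) +
          (X + 1) * ((1 + (X ^ 2 + 1) * q) * X ^ 3 - (X + 1)) =
          1 - 3 * ((X : (ZMod 3)[X]) ^ 2 + X + 1) := by
        ring
      rw [this, h3]
      ring

theorem P_sq_monic : (X ^ 2 + 1 : (ZMod 3)[X]).Monic := by
  rw [← C_1]
  exact monic_X_pow_add_C 1 (by norm_num)

theorem P_sq_natDegree : (X ^ 2 + 1 : (ZMod 3)[X]).natDegree = 2 := by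
  rw [← C_1]
  exact natDegree_X_pow_add_C

theorem P_sq_sep : (X ^ 2 + 1 : (ZMod 3)[X]).Separable := by
  rw [separable_def]
  refine ⟨1, X, ?_⟩
  have hd : derivative (X ^ 2 + 1 : (ZMod 3)[X]) = 2 * X := by
    simp
    norm_num
  have : 1 * (X ^ 2 + 1) + X * (2 * X) = 1 + 3 * (X : (ZMod 3)[X]) ^ 2 := by
    ring
  rw [hd, this, P_three]
  ring

theorem P_cop_lin_sq : IsCoprime (X - C 1 : (ZMod 3)[X]) (X ^ 2 + 1) := by
  apply P_coprime_of_eval
  simp only [eval_add, eval_pow, eval_X, eval_one, one_pow]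
  decide

/-- The data for given `b`, `κ`, `j`. -/
theorem P_data (b : (ZMod 3)[X]) (κ j : ℕ) (hb : b.Monic) (hbs : b.Separable)
    (hbd : b.natDegree ≤ 3) (hbD : IsCoprime b (P_D κ)) (hj : 1 ≤ j)
    (h3 : ¬ 3 ∣ b.natDegree + 2 * j) : Data (ZMod 3) b (P_D κ) (X ^ j * P_D κ + 1) j where
  b_monic := hb
  b_sep := hbs
  b_deg := hbd
  D_monic := P_D_monic κ
  D_sep := P_D_sep κ
  hbD := hbD
  hND := ⟨1, -X ^ j, by ring⟩
  N_deg := by
    have hm : (X ^ j * P_D κ).Monic := (monic_X_pow j).mul (P_D_monic κ)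
    have hdeg : (X ^ j * P_D κ).natDegree = j + κ := by
      rw [(monic_X_pow j).natDegree_mul (P_D_monic κ), natDegree_X_pow, P_D_natDegree]
    rw [natDegree_add_eq_left_of_natDegree_lt, hdeg, P_D_natDegree]
    rw [hdeg, natDegree_one]
    omega
  hj := hj
  h3 := h3

/-- Suitable polynomials over the prime field. -/
theorem exists_data (g f : ℕ) (hf : f < g) :
    ∃ (b D N : (ZMod 3)[X]) (j : ℕ), Data (ZMod 3) b D N j ∧
      b.natDegree + 2 * D.natDegree + j - 1 = g ∧
      2 * D.natDegree + eps b = f := by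
  obtain ⟨κ, hκ⟩ : ∃ κ, f = 2 * κ ∨ f = 2 * κ + 1 := ⟨f / 2, by omega⟩
  rcases hκ with hκ | hκ
  · by_cases h3 : (g - f) % 3 = 2
    · refine ⟨X, P_D κ, X ^ (g - f) * P_D κ + 1, g - f, ?_, ?_, ?_⟩
      · apply P_data
        · exact monic_X
        · exact separable_X
        · rw [natDegree_X]
          norm_num
        · have := P_coprime_of_eval (P_D_eval_zero κ)
          rwa [C_0, sub_zero] at this
        · omega
        · rw [natDegree_X]
          omega
      · rw [natDegree_X, P_D_natDegree]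
        omega
      · rw [P_D_natDegree]
        unfold eps
        rw [if_pos (by simp [coeff_X])]
        omega
    · refine ⟨1, P_D κ, X ^ (g - f + 1) * P_D κ + 1, g - f + 1, ?_, ?_, ?_⟩
      · apply P_data
        · exact monic_one
        · exact separable_one
        · rw [natDegree_one]
          norm_num
        · exact isCoprime_one_left
        · omega
        · rw [natDegree_one]
          omega
      · rw [natDegree_one, P_D_natDegree]
        omega
      · rw [P_D_natDegree]
        unfold eps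
        rw [if_pos (by simp [coeff_one])]
        omega
  · by_cases h3 : (g - f) % 3 = 2
    · have hm : ((X - C 1) * (X ^ 2 + 1) : (ZMod 3)[X]).Monic :=
        (monic_X_sub_C 1).mul P_sq_monic
      have hd : ((X - C 1) * (X ^ 2 + 1) : (ZMod 3)[X]).natDegree = 3 := by
        rw [(monic_X_sub_C 1).natDegree_mul P_sq_monic, natDegree_X_sub_C, P_sq_natDegree]
      refine ⟨(X - C 1) * (X ^ 2 + 1), P_D κ, X ^ (g - f - 1) * P_D κ + 1, g - f - 1, ?_, ?_, ?_⟩
      · apply P_data
        · exact hm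
        · exact (separable_X_sub_C).mul P_sq_sep P_cop_lin_sq
        · rw [hd]
        · exact IsCoprime.mul_left (P_coprime_of_eval (P_D_eval_one κ)) (P_coprime_sq κ)
        · omega
        · rw [hd]
          omega
      · rw [hd, P_D_natDegree]
        omega
      · rw [P_D_natDegree]
        unfold eps
        rw [if_neg]
        · omega
        · have : ((X - C 1) * (X ^ 2 + 1) : (ZMod 3)[X]) = X ^ 3 - X ^ 2 + X - 1 := by
            rw [C_1]
            ring
          rw [this]
          simp only [coeff_sub, coeff_add, coeff_X_pow, coeff_X, coeff_one]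
          decide
    · refine ⟨X ^ 2 + 1, P_D κ, X ^ (g - f) * P_D κ + 1, g - f, ?_, ?_, ?_⟩
      · apply P_data
        · exact P_sq_monic
        · exact P_sq_sep
        · rw [P_sq_natDegree]
          norm_num
        · exact P_coprime_sq κ
        · omega
        · rw [P_sq_natDegree]
          omega
      · rw [P_sq_natDegree, P_D_natDegree]
        omega
      · rw [P_D_natDegree]
        unfold eps
        rw [if_neg]
        · omega
        · simp only [coeff_add, coeff_X_pow, coeff_one]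
          decide

end Pool.Agent.PR3
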