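import Mathlib

set_option autoImplicit false

namespace Pool.Agent.PR3

/-- If the cube of an ideal is generated by `y` then `dy/y` is a regular differential form. -/
theorem logder_mem {A K : Type} [CommRing A] [IsDomain A] [IsDedekindDomain A] [Field K]
    [CharP K 3] [Algebra A K] [IsFractionRing A K] (dd : Derivation ℤ K K)
    (M : Submodule A K) (hM : ∀ f : A, dd (algebraMap A K f) ∈ M)
    (I : Ideal A) (hI : I ≠ ⊥) (y : A) (hy : I ^ 3 = Ideal.span {y}) :
    dd (algebraMap A K y) / algebraMap A K y ∈ M := by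
  have hinj : Function.Injective (algebraMap A K) := IsFractionRing.injective A K
  have h3K : (3 : K) = 0 := by exact_mod_cast CharP.cast_eq_zero K 3
  have h3A : (3 : A) = 0 := by
    apply hinj
    rw [map_ofNat, map_zero, h3K]
  have hy0 : y ≠ 0 := by
    rintro rfl
    rw [Set.singleton_zero, Ideal.span_zero] at hy
    exact hI (pow_eq_zero_iff (n := 3) (by norm_num) |>.1 hy)
  have hyK : algebraMap A K y ≠ 0 := by
    rw [Ne, map_eq_zero_iff _ hinj]; exact hy0
  set e : K := dd (algebraMap A K y) / algebraMap A K y with he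
  have key : ∀ x ∈ I * I ^ 2, ∃ t : A, x ^ 3 = y ^ 3 * t ∧ e * algebraMap A K t ∈ M := by
    intro x hx
    refine Submodule.mul_induction_on hx ?_ ?_
    · intro f hf g hg
      have h1 : f ^ 3 ∈ Ideal.span {y} := by rw [← hy]; exact Ideal.pow_mem_pow hf 3
      have h2 : g ^ 3 ∈ Ideal.span {y ^ 2} := by
        rw [← Ideal.span_singleton_pow, ← hy, ← pow_mul, mul_comm 3 2, pow_mul]
        exact Ideal.pow_mem_pow hg 3
      obtain ⟨a, ha⟩ := Ideal.mem_span_singleton'.1 h1
      obtain ⟨c, hc⟩ := Ideal.mem_span_singleton'.1 h2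
      refine ⟨a * c, ?_, ?_⟩
      · rw [mul_pow, ← ha, ← hc]; ring
      · have h4 : dd (algebraMap A K (a * y)) = 0 := by
          rw [ha, map_pow, Derivation.leibniz_pow]
          simp [h3K]
        rw [map_mul, Derivation.leibniz, smul_eq_mul, smul_eq_mul] at h4
        have h5 : e * algebraMap A K (a * c) = c • (-dd (algebraMap A K a)) := by
          rw [he, map_mul, Algebra.smul_def, div_mul_eq_mul_div, div_eq_iff hyK]
          linear_combination (algebraMap A K c) * h4
        rw [h5]
        exact M.smul_mem c (M.neg_mem (hM a))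
    · rintro x1 x2 ⟨t1, h1, h1'⟩ ⟨t2, h2, h2'⟩
      refine ⟨t1 + t2, ?_, ?_⟩
      · linear_combination h1 + h2 + (x1 ^ 2 * x2 + x1 * x2 ^ 2) * h3A
      · rw [map_add, mul_add]; exact M.add_mem h1' h2'
  have hmem : y ∈ I * I ^ 2 := by
    have : I * I ^ 2 = I ^ 3 := by ring
    rw [this, hy]; exact Ideal.mem_span_singleton_self y
  obtain ⟨t, ht, ht'⟩ := key y hmem
  have ht1 : t = 1 := by
    have : y ^ 3 * t = y ^ 3 * 1 := by rw [← ht, mul_one]
    exact mul_left_cancel₀ (pow_ne_zero 3 hy0) this
  rw [ht1, map_one, mul_one] at ht'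
  exact ht'

end Pool.Agent.PR3
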