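import Mathlib

set_option autoImplicit false

namespace Pool.Agent.PR3

theorem S2a_three {K : Type} [Field K] [CharP K 3] : (3 : K) = 0 := by
  exact_mod_cast CharP.cast_eq_zero K 3

theorem S2a_solution {K : Type} [Field K] [CharP K 3] (dd : Derivation ℤ K K) (a : K)
    (ha3 : dd (dd a) + a ^ 3 = 0) : ∃ s : K, s ≠ 0 ∧ dd s = a * s := by
  have h3 : (3 : K) = 0 := S2a_three
  by_cases ha : a = 0
  · exact ⟨1, one_ne_zero, by rw [ha, zero_mul, dd.map_one_eq_zero]⟩
  · by_cases hs : a ^ 2 - dd a = 0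
    · refine ⟨-a, neg_ne_zero.2 ha, ?_⟩
      rw [map_neg]
      linear_combination hs
    · refine ⟨a ^ 2 - dd a, hs, ?_⟩
      have h1 : dd (a ^ 2) = 2 * a * dd a := by
        rw [sq, dd.leibniz, smul_eq_mul]
        ring
      rw [map_sub, h1]
      linear_combination a * dd a * h3 - ha3

/-- Solving `dy = a y` (Jacobson's formula in characteristic `3`). -/
theorem exists_solution {A K : Type} [CommRing A] [IsDomain A] [Field K] [CharP K 3] [Algebra A K]
    [IsFractionRing A K] (dd : Derivation ℤ K K) (a : K) (ha3 : dd (dd a) + a ^ 3 = 0) :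
    ∃ y : A, y ≠ 0 ∧ dd (algebraMap A K y) = a * algebraMap A K y := by
  have h3 : (3 : K) = 0 := S2a_three
  obtain ⟨s, hs, hsa⟩ := S2a_solution dd a ha3
  obtain ⟨p, q, hq, hpq⟩ := IsFractionRing.div_surjective (A := A) s
  have hq0 : algebraMap A K q ≠ 0 := by
    intro h0
    exact nonZeroDivisors.ne_zero hq ((map_eq_zero_iff _ (IsFractionRing.injective A K)).1 h0)
  have hy : algebraMap A K (p * q ^ 2) = s * algebraMap A K q ^ 3 := by
    rw [map_mul, map_pow, ← hpq]
    field_simp
  refine ⟨p * q ^ 2, ?_, ?_⟩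
  · intro h0
    rw [h0, map_zero] at hy
    exact mul_ne_zero hs (pow_ne_zero 3 hq0) hy.symm
  · have h1 : dd (algebraMap A K q ^ 3) = 0 := by
      rw [pow_succ, sq, dd.leibniz, dd.leibniz]
      simp only [smul_eq_mul]
      linear_combination (algebraMap A K q) ^ 2 * dd (algebraMap A K q) * h3
    rw [hy, dd.leibniz, h1, hsa]
    simp only [smul_eq_mul]
    ring

end Pool.Agent.PR3
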