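import Mathlib

set_option autoImplicit false

namespace Pool.Agent.PR3

/-- If `dy = a y` with `a` regular then all multiplicities of `y` are divisible by `3`. -/
theorem three_dvd {k A K : Type} [Field k] [CommRing A] [IsDomain A] [IsDedekindDomain A]
    [Algebra k A] [Field K] [CharP K 3] [Algebra A K] [IsFractionRing A K]
    (dd : Derivation ℤ K K) (hconst : ∀ c : k, dd (algebraMap A K (algebraMap k A c)) = 0)
    (hres : ∀ m : Ideal A, m.IsMaximal → ∀ f : A, ∃ c : k, f - algebraMap k A c ∈ m)
    (M : Submodule A K)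
    (hM : M = Submodule.span A (Set.range fun f : A => dd (algebraMap A K f)))
    (hfg : M.FG) (hne : M ≠ ⊥) (hfield : ¬ IsField A)
    (a : K) (ha : a ∈ M) (y : A) (hy : y ≠ 0)
    (hya : dd (algebraMap A K y) = a * algebraMap A K y)
    (m : Ideal A) (hm : m.IsMaximal) (n : ℕ) (h1 : Ideal.span {y} ≤ m ^ n)
    (h2 : ¬ Ideal.span {y} ≤ m ^ (n + 1)) : 3 ∣ n := by
  by_contra h3
  have hinj : Function.Injective (algebraMap A K) := IsFractionRing.injective A K
  have hn0 : n ≠ 0 := fun h => h3 (by rw [h]; exact dvd_zero 3)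
  have hmp : m.IsPrime := hm.isPrime
  have hmbot : m ≠ ⊥ := Ring.ne_bot_of_isMaximal_of_not_isField hm hfield
  have hy1 : y ∈ m ^ n := (Ideal.span_singleton_le_iff_mem _).1 h1
  have hy2 : y ∉ m ^ (n + 1) := fun h => h2 ((Ideal.span_singleton_le_iff_mem _).2 h)
  -- a uniformizer
  obtain ⟨π, hπ1, hπ2⟩ : ∃ π ∈ m, π ∉ m ^ 2 := by
    have hlt : m ^ 2 < m ^ 1 := Ideal.pow_right_strictAnti m hmbot hmp.ne_top (by norm_num)
    rw [pow_one] at hlt
    exact SetLike.exists_of_lt hlt
  have hπ0 : π ≠ 0 := fun h => hπ2 (by rw [h]; exact zero_mem _)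
  obtain ⟨J, hJ⟩ : m ∣ Ideal.span {π} :=
    Ideal.dvd_iff_le.2 ((Ideal.span_singleton_le_iff_mem _).2 hπ1)
  have hJm : ¬ J ≤ m := by
    intro h
    apply hπ2
    have : Ideal.span {π} ≤ m ^ 2 := by
      rw [hJ, pow_two]
      exact Ideal.mul_mono_right h
    exact (Ideal.span_singleton_le_iff_mem _).1 this
  obtain ⟨t, htJ, htm⟩ := SetLike.not_le_iff_exists.1 hJm
  -- t * m ⊆ (π)
  have htπ : ∀ f ∈ m, ∃ g, t * f = π * g := by
    intro f hf
    have : t * f ∈ Ideal.span {π} := by
      rw [hJ, mul_comm m J]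
      exact Ideal.mul_mem_mul htJ hf
    obtain ⟨g, hg⟩ := Ideal.mem_span_singleton'.1 this
    exact ⟨g, by rw [← hg, mul_comm]⟩
  have htπn : ∀ j : ℕ, ∀ f ∈ m ^ j, ∃ g, t ^ j * f = π ^ j * g := by
    intro j f hf
    have : t ^ j * f ∈ Ideal.span {π ^ j} := by
      rw [← Ideal.span_singleton_pow, hJ, mul_comm m J, mul_pow]
      exact Ideal.mul_mem_mul (Ideal.pow_mem_pow htJ j) hf
    obtain ⟨g, hg⟩ := Ideal.mem_span_singleton'.1 this
    exact ⟨g, by rw [← hg, mul_comm]⟩
  -- Claim A
  obtain ⟨p, hp⟩ := htπn n y hy1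
  set q : A := t ^ n with hq
  have hqm : q ∉ m := fun h => htm (hmp.mem_of_pow_mem n h)
  have hpm : p ∉ m := by
    intro h
    have : q * y ∈ m ^ (n + 1) := by
      rw [hp, pow_succ]
      exact Ideal.mul_mem_mul (Ideal.pow_mem_pow hπ1 n) h
    rcases Ideal.IsPrime.mul_mem_pow m this with h | h
    · exact hqm h
    · exact hy2 h
  have hMd : ∀ f : A, dd (algebraMap A K f) ∈ M := fun f => by
    rw [hM]; exact Submodule.subset_span ⟨f, rfl⟩
  -- the derivative of `π`
  have hchar : (3 : K) = 0 := by exact_mod_cast CharP.cast_eq_zero K 3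
  have hnn : (n : K) * (n : K) = 1 := by
    obtain ⟨l, hl | hl⟩ : ∃ l, n = 3 * l + 1 ∨ n = 3 * l + 2 := ⟨n / 3, by omega⟩
    · rw [hl]
      push_cast
      rw [hchar]
      ring
    · rw [hl]
      push_cast
      rw [hchar]
      linear_combination hchar
  have hπ' : (algebraMap A K (p * q)) * dd (algebraMap A K π) ∈ m • M := by
    set P := algebraMap A K p with hP
    set Q := algebraMap A K q with hQ
    set Y := algebraMap A K y with hY
    set Z := algebraMap A K π with hZ
    have hZ0 : Z ≠ 0 := fun h => hπ0 (hinj (by rw [← hZ, h, map_zero]))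
    have hE : Q * Y = Z ^ n * P := by
      rw [hQ, hY, hZ, hP, ← map_pow, ← map_mul, ← map_mul, hp]
    have hD := congrArg dd hE
    rw [Derivation.leibniz, Derivation.leibniz, Derivation.leibniz_pow, hya] at hD
    simp only [smul_eq_mul, nsmul_eq_mul] at hD
    obtain ⟨l, hl⟩ : ∃ l, n = l + 1 := ⟨n - 1, by omega⟩
    have hl' : n - 1 = l := by omega
    rw [hl'] at hD
    have hZl : Z ^ n = Z ^ l * Z := by rw [hl, pow_succ]
    have key : Z ^ l * ((n : K) * (P * Q * dd Z)) =
        Z ^ l * (Z * (a * (P * Q) + P * dd Q - Q * dd P)) := by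
      rw [hZl] at hD hE
      linear_combination (-Q) * hD + (a * Q + dd Q) * hE
    have key2 := mul_left_cancel₀ (pow_ne_zero l hZ0) key
    have key3 : algebraMap A K (p * q) * dd Z =
        π • ((n : A) • ((p * q) • a + p • dd Q - q • dd P)) := by
      simp only [Algebra.smul_def, map_mul, map_natCast]
      rw [← hP, ← hQ, ← hZ]
      linear_combination (n : K) * key2 - (P * Q * dd Z) * hnn
    rw [key3]
    refine Submodule.smul_mem_smul hπ1 (M.smul_mem _ ?_)
    exact M.sub_mem (M.add_mem (M.smul_mem _ ha) (M.smul_mem _ (hMd q))) (M.smul_mem _ (hMd p))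
  -- Claim B
  have hB : ∀ f : A, dd (algebraMap A K f) ∈ m • M := by
    intro f
    obtain ⟨c, hc⟩ := hres m hm f
    obtain ⟨g, hg⟩ := htπ _ hc
    set f1 : A := f - algebraMap k A c with hf1
    have hf' : dd (algebraMap A K f1) = dd (algebraMap A K f) := by
      rw [hf1, map_sub, map_sub, hconst, sub_zero]
    have hE : algebraMap A K t * algebraMap A K f1 = algebraMap A K π * algebraMap A K g := by
      rw [← map_mul, ← map_mul, hg]
    have hD := congrArg dd hE
    rw [Derivation.leibniz, Derivation.leibniz, hf'] at hD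
    simp only [smul_eq_mul] at hD
    have hst : (p * q * t) • dd (algebraMap A K f) ∈ m • M := by
      have hh : (p * q * t) • dd (algebraMap A K f) =
          g • (algebraMap A K (p * q) * dd (algebraMap A K π)) +
          π • ((p * q) • dd (algebraMap A K g)) - f1 • ((p * q) • dd (algebraMap A K t)) := by
        simp only [Algebra.smul_def, map_mul]
        linear_combination (algebraMap A K p * algebraMap A K q) * hD
      rw [hh]
      exact Submodule.sub_mem _ (Submodule.add_mem _ (Submodule.smul_mem _ _ hπ')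
        (Submodule.smul_mem_smul hπ1 (M.smul_mem _ (hMd g))))
        (Submodule.smul_mem_smul hc (M.smul_mem _ (hMd t)))
    have hstm : p * q * t ∉ m := by
      intro h
      rcases hmp.mem_or_mem h with h | h
      · rcases hmp.mem_or_mem h with h | h
        · exact hpm h
        · exact hqm h
      · exact htm h
    obtain ⟨r, i, hi, hri⟩ := hm.exists_inv hstm
    have hone : dd (algebraMap A K f) =
        r • ((p * q * t) • dd (algebraMap A K f)) + i • dd (algebraMap A K f) := by
      rw [smul_smul, ← add_smul, hri, one_smul]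
    rw [hone]
    exact Submodule.add_mem _ (Submodule.smul_mem _ _ hst) (Submodule.smul_mem_smul hi (hMd f))
  have hle : M ≤ m • M := by
    conv_lhs => rw [hM]
    rw [Submodule.span_le]
    rintro _ ⟨f, rfl⟩
    exact hB f
  obtain ⟨r, hr1, hr2⟩ := Submodule.exists_sub_one_mem_and_smul_eq_zero_of_fg_of_le_smul m M hfg hle
  have hr0 : r ≠ 0 := by
    rintro rfl
    apply hmp.ne_top
    rw [Ideal.eq_top_iff_one]
    have := neg_mem hr1
    simpa using this
  apply hne
  rw [Submodule.eq_bot_iff]
  intro x hx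
  have := hr2 x hx
  rw [Algebra.smul_def, mul_eq_zero] at this
  rcases this with h | h
  · exact absurd ((injective_iff_map_eq_zero _).1 hinj _ h) hr0
  · exact h

end Pool.Agent.PR3
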