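import Mathlib

set_option autoImplicit false

namespace Pool.Agent.PR3

/-- An ideal of a Dedekind domain all of whose multiplicities are divisible by `3` is a cube. -/
theorem exists_cube_root {A : Type} [CommRing A] [IsDomain A] [IsDedekindDomain A] (I : Ideal A)
    (hI : I ≠ ⊥)
    (h : ∀ m : Ideal A, m.IsMaximal → ∀ n : ℕ, I ≤ m ^ n → ¬ I ≤ m ^ (n + 1) → 3 ∣ n) :
    ∃ J : Ideal A, J ^ 3 = I := by
  classical
  obtain ⟨u, hu⟩ := Multiset.exists_smul_of_dvd_count
    (UniqueFactorizationMonoid.normalizedFactors I) (k := 3) (by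
      intro P hP
      have hprime : Prime P := UniqueFactorizationMonoid.prime_of_normalized_factor P hP
      have hmax : P.IsMaximal := (Ideal.isPrime_of_prime hprime).isMaximal hprime.ne_zero
      have hmul := UniqueFactorizationMonoid.emultiplicity_eq_count_normalizedFactors
        hprime.irreducible hI
      rw [normalize_eq] at hmul
      refine h P hmax _ ?_ ?_
      · rw [← Ideal.dvd_iff_le, pow_dvd_iff_le_emultiplicity, hmul]
      · rw [← Ideal.dvd_iff_le, pow_dvd_iff_le_emultiplicity, hmul]
        simp only [Nat.cast_add, Nat.cast_one, not_le]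
        exact_mod_cast Nat.lt_succ_self _)
  refine ⟨u.prod, ?_⟩
  have h1 : (UniqueFactorizationMonoid.normalizedFactors I).prod = I := by
    have := UniqueFactorizationMonoid.prod_normalizedFactors_eq hI
    rw [this, normalize_eq]
  rw [← Multiset.prod_nsmul, ← hu, h1]

end Pool.Agent.PR3
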