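import Pool.Agent.LibPR3.S1
import Pool.Agent.LibPR3.S2a
import Pool.Agent.LibPR3.S2b
import Pool.Agent.LibPR3.S2c

set_option autoImplicit false

namespace Pool.Agent.PR3

open nonZeroDivisors

/-- Cube roots of ideals are unique. -/
theorem S3_cube_inj {A : Type} [CommRing A] [IsDomain A] [IsDedekindDomain A] (I J : Ideal A)
    (h : I ^ 3 = J ^ 3) : I = J := by
  exact pow_left_injective (by norm_num : (3 : ℕ) ≠ 0) h

/-- Cubes are constants. -/
theorem S3_dd_cube {K : Type} [Field K] [CharP K 3] (dd : Derivation ℤ K K) (g f : K) :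
    dd (g ^ 3 * f) = g ^ 3 * dd f := by
  have h3 : (3 : K) = 0 := by exact_mod_cast CharP.cast_eq_zero K 3
  rw [Derivation.leibniz, Derivation.leibniz_pow]
  simp [h3]

/-- Existence of the pair `(y, I)`. -/
theorem S3_exists {k A K : Type} [Field k] [CommRing A] [IsDomain A] [IsDedekindDomain A]
    [Algebra k A] [Field K] [CharP K 3] [Algebra A K] [IsFractionRing A K]
    (hfield : ¬ IsField A)
    (hres : ∀ m : Ideal A, m.IsMaximal → ∀ f : A, ∃ c : k, f - algebraMap k A c ∈ m)
    (dd : Derivation ℤ K K) (hconst : ∀ c : k, dd (algebraMap A K (algebraMap k A c)) = 0)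
    (M : Submodule A K)
    (hM : M = Submodule.span A (Set.range fun f : A => dd (algebraMap A K f)))
    (hfg : M.FG) (hne : M ≠ ⊥) (a : K) (ha : a ∈ M) (ha3 : dd (dd a) + a ^ 3 = 0) :
    ∃ (y : A) (I : Ideal A), y ≠ 0 ∧ I ≠ ⊥ ∧ dd (algebraMap A K y) = a * algebraMap A K y ∧
      I ^ 3 = Ideal.span {y} := by
  obtain ⟨y, hy, hya⟩ := exists_solution (A := A) dd a ha3
  obtain ⟨J, hJ⟩ := exists_cube_root (Ideal.span {y}) (by simpa using hy)
    (fun m hm n h1 h2 => three_dvd dd hconst hres M hM hfg hne hfield a ha y hy hya m hm n h1 h2)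
  refine ⟨y, J, hy, ?_, hya, hJ⟩
  rintro rfl
  rw [Ideal.bot_pow (by norm_num)] at hJ
  exact hy (by simpa using hJ.symm)

/-- Samuel's theorem: the `3`-torsion of the class group and logarithmic differential forms. -/
theorem card_torsion {k A K : Type} [Field k] [CommRing A] [IsDomain A] [IsDedekindDomain A]
    [Algebra k A] [Field K] [CharP K 3] [Algebra A K] [IsFractionRing A K]
    (hfield : ¬ IsField A)
    (hunits : ∀ u : A, IsUnit u → ∃ c : k, u = algebraMap k A c)
    (hres : ∀ m : Ideal A, m.IsMaximal → ∀ f : A, ∃ c : k, f - algebraMap k A c ∈ m)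
    (dd : Derivation ℤ K K) (hconst : ∀ c : k, dd (algebraMap A K (algebraMap k A c)) = 0)
    (h3 : ∀ a, dd (dd (dd a)) = 0) (hker : ∀ a, dd a = 0 → ∃ g, a = g ^ 3)
    (M : Submodule A K)
    (hM : M = Submodule.span A (Set.range fun f : A => dd (algebraMap A K f)))
    (hfg : M.FG) (hne : M ≠ ⊥) :
    Nat.card {c : ClassGroup A // c ^ 3 = 1} = Nat.card {a : K // a ∈ M ∧ dd (dd a) + a ^ 3 = 0} := by
  have hinj : Function.Injective (algebraMap A K) := IsFractionRing.injective A K
  have h30 : (3 : K) = 0 := by exact_mod_cast CharP.cast_eq_zero K 3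
  choose y I hy hI hya hyI using
    fun a : {a : K // a ∈ M ∧ dd (dd a) + a ^ 3 = 0} =>
      S3_exists hfield hres dd hconst M hM hfg hne a.1 a.2.1 a.2.2
  have hcube : ∀ a, (ClassGroup.mk0 ⟨I a, mem_nonZeroDivisors_iff_ne_zero.mpr (hI a)⟩) ^ 3 = 1 := by
    intro a
    rw [← map_pow]
    have : (⟨I a, mem_nonZeroDivisors_iff_ne_zero.mpr (hI a)⟩ : (Ideal A)⁰) ^ 3 =
        ⟨(I a) ^ 3, mem_nonZeroDivisors_iff_ne_zero.mpr (pow_ne_zero 3 (hI a))⟩ := by
      ext1
      simp
    rw [this, ClassGroup.mk0_eq_one_iff]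
    exact ⟨y a, hyI a⟩
  symm
  refine Nat.card_eq_of_bijective (fun a => ⟨_, hcube a⟩) ⟨?_, ?_⟩
  · intro a1 a2 h12
    have h12' := congrArg Subtype.val h12
    dsimp only at h12'
    rw [ClassGroup.mk0_eq_mk0_iff] at h12'
    obtain ⟨p, q, hp, hq, hpq⟩ := h12'
    dsimp only at hpq
    have h1 : Ideal.span {p ^ 3 * y a1} = Ideal.span {q ^ 3 * y a2} := by
      have := congrArg (· ^ 3) hpq
      simp only [mul_pow, hyI, Ideal.span_singleton_pow, Ideal.span_singleton_mul_span_singleton]
        at this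
      exact this
    rw [Ideal.span_singleton_eq_span_singleton] at h1
    obtain ⟨u, hu⟩ := h1
    obtain ⟨c, hc⟩ := hunits u u.isUnit
    rw [hc] at hu
    have h2 := congrArg (algebraMap A K) hu
    simp only [map_mul, map_pow] at h2
    have h3' := congrArg dd h2
    rw [mul_assoc, S3_dd_cube, S3_dd_cube, hya, Derivation.leibniz, hconst, hya] at h3'
    simp only [smul_eq_mul, mul_zero, zero_add] at h3'
    apply Subtype.ext
    have hne : algebraMap A K q ^ 3 * algebraMap A K (y a2) ≠ 0 :=
      mul_ne_zero (pow_ne_zero 3 ((map_ne_zero_iff _ hinj).mpr hq))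
        ((map_ne_zero_iff _ hinj).mpr (hy a2))
    apply mul_right_cancel₀ hne
    rw [← h2] at hne
    linear_combination h3' - a1.1 * h2
  · rintro ⟨c, hc⟩
    obtain ⟨⟨J, hJ⟩, rfl⟩ := ClassGroup.mk0_surjective c
    have hJ0 : J ≠ ⊥ := mem_nonZeroDivisors_iff_ne_zero.mp hJ
    have hprin : (J ^ 3).IsPrincipal := by
      rw [← map_pow] at hc
      have : (⟨J, hJ⟩ : (Ideal A)⁰) ^ 3 =
          ⟨J ^ 3, mem_nonZeroDivisors_iff_ne_zero.mpr (pow_ne_zero 3 hJ0)⟩ := by
        ext1
        simp
      rw [this, ClassGroup.mk0_eq_one_iff] at hc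
      exact hc
    obtain ⟨y0, hy0⟩ := hprin
    replace hy0 : J ^ 3 = Ideal.span {y0} := hy0
    have hy00 : y0 ≠ 0 := by
      rintro rfl
      have : J ^ 3 = ⊥ := by simpa using hy0
      exact pow_ne_zero 3 hJ0 this
    have hy0K : algebraMap A K y0 ≠ 0 := (map_ne_zero_iff _ hinj).mpr hy00
    have haM := logder_mem dd M (fun f => by
      rw [hM]; exact Submodule.subset_span ⟨f, rfl⟩) J hJ0 y0 hy0
    set a := dd (algebraMap A K y0) / algebraMap A K y0 with ha
    have hay : dd (algebraMap A K y0) = a * algebraMap A K y0 := by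
      rw [ha]; field_simp
    have ha3 : dd (dd a) + a ^ 3 = 0 := by
      have h := h3 (algebraMap A K y0)
      rw [hay, Derivation.leibniz, hay, map_add] at h
      simp only [smul_eq_mul, Derivation.leibniz, hay] at h
      apply mul_right_cancel₀ hy0K
      rw [zero_mul]
      linear_combination h - (a * dd a * algebraMap A K y0) * h30
    let a' : {a : K // a ∈ M ∧ dd (dd a) + a ^ 3 = 0} := ⟨a, haM, ha3⟩
    refine ⟨a', ?_⟩
    apply Subtype.ext
    dsimp only
    rw [ClassGroup.mk0_eq_mk0_iff]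
    have hdiv : dd (algebraMap A K (y a') / algebraMap A K y0) = 0 := by
      have h5 : algebraMap A K (y a') = (algebraMap A K (y a') / algebraMap A K y0) *
        algebraMap A K y0 := by field_simp
      have h6 := congrArg dd h5
      rw [hya, Derivation.leibniz, hay] at h6
      simp only [smul_eq_mul] at h6
      have h7 : a * algebraMap A K (y a') =
        (algebraMap A K (y a') / algebraMap A K y0) * (a * algebraMap A K y0) := by field_simp
      rw [← h7] at h6
      have h8 : algebraMap A K y0 * dd (algebraMap A K (y a') / algebraMap A K y0) = 0 := by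
        have : (a' : K) = a := rfl
        rw [this] at h6
        linear_combination -h6
      exact (mul_eq_zero.mp h8).resolve_left hy0K
    obtain ⟨g, hg⟩ := hker _ hdiv
    obtain ⟨p, q, hq, rfl⟩ := IsFractionRing.div_surjective (A := A) g
    have hq0 : q ≠ 0 := nonZeroDivisors.ne_zero hq
    have hqK : algebraMap A K q ≠ 0 := (map_ne_zero_iff _ hinj).mpr hq0
    have h9 : q ^ 3 * y a' = p ^ 3 * y0 := by
      apply hinj
      simp only [map_mul, map_pow]
      field_simp at hg
      linear_combination hg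
    have hp0 : p ≠ 0 := by
      rintro rfl
      have : q ^ 3 * y a' ≠ 0 := mul_ne_zero (pow_ne_zero 3 hq0) (hy a')
      apply this
      rw [h9]
      ring
    refine ⟨q, p, hq0, hp0, ?_⟩
    dsimp only
    apply S3_cube_inj
    rw [mul_pow, mul_pow, hyI, hy0, Ideal.span_singleton_pow, Ideal.span_singleton_pow,
      Ideal.span_singleton_mul_span_singleton, Ideal.span_singleton_mul_span_singleton, h9]

end Pool.Agent.PR3
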