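import Mathlib

set_option autoImplicit false

namespace Pool.Agent.PR3

section T1aux

variable {K : Type} [Field K] [CharP K 3]

theorem T1_three_eq_zero : (3 : K) = 0 := by
  have h := CharP.cast_eq_zero K 3
  exact_mod_cast h

theorem T1_cube_add (a b : K) : (a + b) ^ 3 = a ^ 3 + b ^ 3 := by
  have h3 : (3 : K) = 0 := T1_three_eq_zero
  linear_combination (a ^ 2 * b + a * b ^ 2) * h3

theorem T1_indep (x : K) (hx : ∀ g : K, g ^ 3 ≠ x) (g0 g1 g2 : K)
    (h : g0 ^ 3 + g1 ^ 3 * x + g2 ^ 3 * x ^ 2 = 0) : g0 = 0 ∧ g1 = 0 ∧ g2 = 0 := by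
  have h3 : (3 : K) = 0 := T1_three_eq_zero
  have hg2 : g2 = 0 := by
    by_contra hne
    have hx2 : x ^ 2 + (g1 / g2) ^ 3 * x + (g0 / g2) ^ 3 = 0 := by
      have hne3 : g2 ^ 3 ≠ 0 := pow_ne_zero 3 hne
      have : g2 ^ 3 * (x ^ 2 + (g1 / g2) ^ 3 * x + (g0 / g2) ^ 3) = 0 := by
        rw [div_pow, div_pow]
        field_simp
        linear_combination h
      rcases mul_eq_zero.mp this with h' | h'
      · exact absurd h' hne3
      · exact h'
    set b := g1 / g2 with hb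
    set a := g0 / g2 with ha
    by_cases hab : b ^ 2 = a
    · have hz : (x - b ^ 3) ^ 2 = 0 := by
        rw [← hab] at hx2
        linear_combination hx2 - b ^ 3 * x * h3
      have : x - b ^ 3 = 0 := by
        exact pow_eq_zero_iff (two_ne_zero) |>.mp hz
      exact hx b (by linear_combination -this)
    · have hne' : b ^ 2 - a ≠ 0 := sub_ne_zero.mpr hab
      have hcube : (b ^ 2 - a) ^ 3 * x = (x - a * b) ^ 3 := by
        linear_combination (-(x - b ^ 3)) * hx2 + (x ^ 2 * (a * b) - x * (a * b) ^ 2 - b ^ 4 * a * x + b ^ 2 * a ^ 2 * x) * h3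
      apply hx ((x - a * b) / (b ^ 2 - a))
      rw [div_pow, div_eq_iff (pow_ne_zero 3 hne')]
      linear_combination -hcube
  subst hg2
  have hg1 : g1 = 0 := by
    by_contra hne
    apply hx (-g0 / g1)
    rw [div_pow, div_eq_iff (pow_ne_zero 3 hne)]
    linear_combination -h
  subst hg1
  refine ⟨?_, rfl, rfl⟩
  have : g0 ^ 3 = 0 := by linear_combination h
  exact pow_eq_zero_iff (three_ne_zero) |>.mp this

end T1aux

/-- The derivation `d/dx` of a field `K = K³ ⊕ K³ x ⊕ K³ x²` of characteristic `3`. -/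
theorem exists_derivation (K : Type) [Field K] [CharP K 3] (x : K) (hx : ∀ g : K, g ^ 3 ≠ x)
    (hK : ∀ z : K, ∃ g0 g1 g2 : K, z = g0 ^ 3 + g1 ^ 3 * x + g2 ^ 3 * x ^ 2) :
    ∃ dd : Derivation ℤ K K, dd x = 1 ∧ (∀ a, dd (dd (dd a)) = 0) ∧
      (∀ a, dd a = 0 → ∃ g, a = g ^ 3) := by
  have h3 : (3 : K) = 0 := T1_three_eq_zero
  choose c0 c1 c2 hc using hK
  have huniq : ∀ a0 a1 a2 b0 b1 b2 : K,
      a0 ^ 3 + a1 ^ 3 * x + a2 ^ 3 * x ^ 2 = b0 ^ 3 + b1 ^ 3 * x + b2 ^ 3 * x ^ 2 →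
      a1 = b1 ∧ a2 = b2 := by
    intro a0 a1 a2 b0 b1 b2 h
    have h1 : (a0 - b0) ^ 3 + (a1 - b1) ^ 3 * x + (a2 - b2) ^ 3 * x ^ 2 = 0 := by
      linear_combination h + (-(a0 ^ 2 * b0) + a0 * b0 ^ 2 + (-(a1 ^ 2 * b1) + a1 * b1 ^ 2) * x
        + (-(a2 ^ 2 * b2) + a2 * b2 ^ 2) * x ^ 2) * h3
    obtain ⟨-, h2, h4⟩ := T1_indep x hx _ _ _ h1
    exact ⟨sub_eq_zero.mp h2, sub_eq_zero.mp h4⟩
  let f : K → K := fun z => c1 z ^ 3 + 2 * c2 z ^ 3 * x
  have hf : ∀ z a0 a1 a2 : K, z = a0 ^ 3 + a1 ^ 3 * x + a2 ^ 3 * x ^ 2 →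
      f z = a1 ^ 3 + 2 * a2 ^ 3 * x := by
    intro z a0 a1 a2 hz
    obtain ⟨h1, h2⟩ := huniq _ _ _ _ _ _ ((hc z).symm.trans hz)
    simp only [f, h1, h2]
  have hadd : ∀ y z : K, f (y + z) = f y + f z := by
    intro y z
    have := hf (y + z) (c0 y + c0 z) (c1 y + c1 z) (c2 y + c2 z) (by
      rw [T1_cube_add, T1_cube_add, T1_cube_add]
      linear_combination hc y + hc z)
    rw [this, T1_cube_add, T1_cube_add]
    simp only [f]
    ring
  have hmul : ∀ y z : K, f (y * z) = y * f z + z * f y := by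
    intro y z
    have := hf (y * z) (c0 y * c0 z + (c1 y * c2 z * x + c2 y * c1 z * x))
      (c0 y * c1 z + (c1 y * c0 z + c2 y * c2 z * x))
      (c0 y * c2 z + (c1 y * c1 z + c2 y * c0 z)) (by
      rw [T1_cube_add, T1_cube_add, T1_cube_add, T1_cube_add, T1_cube_add, T1_cube_add]
      linear_combination z * hc y + (c0 y ^ 3 + c1 y ^ 3 * x + c2 y ^ 3 * x ^ 2) * hc z)
    rw [this, T1_cube_add, T1_cube_add, T1_cube_add, T1_cube_add]
    simp only [f]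
    linear_combination (-(c1 z ^ 3 + 2 * c2 z ^ 3 * x)) * hc y
      + (-(c1 y ^ 3 + 2 * c2 y ^ 3 * x)) * hc z - (c1 y ^ 3 * c2 z ^ 3 * x ^ 2 +
        c2 y ^ 3 * c1 z ^ 3 * x ^ 2 + c2 y ^ 3 * c2 z ^ 3 * x ^ 3) * h3
  let F : K →+ K := AddMonoidHom.mk' f hadd
  let dd : Derivation ℤ K K := Derivation.mk' F.toIntLinearMap (by
    intro a b
    exact hmul a b)
  have hdd : ∀ z, dd z = f z := fun z => rfl
  refine ⟨dd, ?_, ?_, ?_⟩
  · rw [hdd, hf x 0 1 0 (by ring)]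
    ring
  · intro a
    rw [hdd, hdd, hdd]
    have h1 : f (f a) = 2 * c2 a ^ 3 := by
      rw [hf (f a) (c1 a) (2 * c2 a) 0 (by
        simp only [f]
        linear_combination (-2 * c2 a ^ 3 * x) * h3)]
      linear_combination (2 * c2 a ^ 3) * h3
    rw [h1, hf (2 * c2 a ^ 3) (2 * c2 a) 0 0 (by
      linear_combination (-2 * c2 a ^ 3) * h3)]
    ring
  · intro a ha
    rw [hdd] at ha
    have h1 : c1 a ^ 3 + (2 * c2 a) ^ 3 * x + 0 ^ 3 * x ^ 2 = 0 := by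
      simp only [f] at ha
      linear_combination ha + (2 * c2 a ^ 3 * x) * h3
    obtain ⟨h2, h4, -⟩ := T1_indep x hx _ _ _ h1
    have h5 : c2 a = 0 := by
      linear_combination (c2 a) * h3 - h4
    refine ⟨c0 a, ?_⟩
    have := hc a
    rw [h2, h5] at this
    linear_combination this

end Pool.Agent.PR3
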