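import Pool.Agent.LibPR3.Ma

set_option autoImplicit false

open Polynomial

namespace Pool.Agent.PR3

/-- The subfield `K³ + K³ x + K³ x²`. -/
def T2_sub (K : Type) [Field K] [CharP K 3] (x : K) : Subfield K where
  carrier := {z | ∃ g0 g1 g2 : K, z = g0 ^ 3 + g1 ^ 3 * x + g2 ^ 3 * x ^ 2}
  mul_mem' := by
    rintro a b ⟨g0, g1, g2, rfl⟩ ⟨h0, h1, h2, rfl⟩
    refine ⟨g0 * h0 + (g1 * h2 + g2 * h1) * x, g0 * h1 + g1 * h0 + g2 * h2 * x,
      g0 * h2 + g1 * h1 + g2 * h0, ?_⟩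
    simp only [add_pow_char, mul_pow]
    ring
  one_mem' := ⟨1, 0, 0, by ring⟩
  add_mem' := by
    rintro a b ⟨g0, g1, g2, rfl⟩ ⟨h0, h1, h2, rfl⟩
    refine ⟨g0 + h0, g1 + h1, g2 + h2, ?_⟩
    simp only [add_pow_char]
    ring
  zero_mem' := ⟨0, 0, 0, by ring⟩
  neg_mem' := by
    rintro a ⟨g0, g1, g2, rfl⟩
    exact ⟨-g0, -g1, -g2, by ring⟩
  inv_mem' := by
    rintro a ⟨g0, g1, g2, ha⟩
    by_cases h0 : a = 0
    · subst h0
      exact ⟨0, 0, 0, by simp⟩
    · obtain ⟨G0, G1, G2, hsq⟩ : ∃ G0 G1 G2 : K, a ^ 2 = G0 ^ 3 + G1 ^ 3 * x + G2 ^ 3 * x ^ 2 := by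
        refine ⟨g0 * g0 + (g1 * g2 + g2 * g1) * x, g0 * g1 + g1 * g0 + g2 * g2 * x,
          g0 * g2 + g1 * g1 + g2 * g0, ?_⟩
        rw [ha]
        simp only [add_pow_char, mul_pow]
        ring
      refine ⟨G0 * a⁻¹, G1 * a⁻¹, G2 * a⁻¹, ?_⟩
      have h1 : a⁻¹ = (G0 ^ 3 + G1 ^ 3 * x + G2 ^ 3 * x ^ 2) * a⁻¹ ^ 3 := by
        rw [← hsq]
        field_simp
      rw [mul_pow, mul_pow, mul_pow]
      calc a⁻¹ = (G0 ^ 3 + G1 ^ 3 * x + G2 ^ 3 * x ^ 2) * a⁻¹ ^ 3 := h1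
        _ = _ := by ring

theorem T2_mem {K : Type} [Field K] [CharP K 3] {x z : K} :
    z ∈ T2_sub K x ↔ ∃ g0 g1 g2 : K, z = g0 ^ 3 + g1 ^ 3 * x + g2 ^ 3 * x ^ 2 := Iff.rfl

theorem T2_cube {K : Type} [Field K] [CharP K 3] (x g : K) : g ^ 3 ∈ T2_sub K x :=
  ⟨g, 0, 0, by ring⟩

/-- `K = K³ ⊕ K³ x ⊕ K³ x²` for the function field `K` of our curve. -/
theorem pbasis {k : Type} [Field k] [IsAlgClosed k] [CharP k 3] {b D N : k[X]} {j : ℕ}
    (h : Data k b D N j)
    (K : Type) [Field K] [Algebra (Cub k[X] b D N) K] [IsFractionRing (Cub k[X] b D N) K] :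
    (∀ g : K, g ^ 3 ≠ toK b D N K X) ∧
    ∀ z : K, ∃ g0 g1 g2 : K, z = g0 ^ 3 + g1 ^ 3 * toK b D N K X + g2 ^ 3 * toK b D N K X ^ 2 := by
  have hdom := isDomain h
  have hinj : Function.Injective (algebraMap (Cub k[X] b D N) K) := IsFractionRing.injective _ _
  have hinj2 : Function.Injective (toK b D N K) := by
    intro p q hpq
    have h1 := hinj hpq
    exact congrArg Cub.c0 h1
  have hchar : CharP K 3 := by
    have hk : Function.Injective ((toK b D N K).comp (C : k →+* k[X])) :=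
      ((toK b D N K).comp (C : k →+* k[X])).injective
    exact charP_of_injective_ringHom hk 3
  have hne : ∀ p : k[X], p ≠ 0 → toK b D N K p ≠ 0 := fun p hp h0 =>
    hp (hinj2 (by rw [h0, map_zero]))
  set x : K := toK b D N K X with hx
  -- everything lies in the subfield
  have hxS : x ∈ T2_sub K x := ⟨0, 1, 0, by ring⟩
  have hpS : ∀ p : k[X], toK b D N K p ∈ T2_sub K x := by
    intro p
    induction p using Polynomial.induction_on' with
    | add p q hp hq =>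
      rw [map_add]
      exact add_mem hp hq
    | monomial n a =>
      obtain ⟨c, hc⟩ := IsAlgClosed.exists_pow_nat_eq a (n := 3) (by norm_num)
      rw [← C_mul_X_pow_eq_monomial, map_mul, map_pow, ← hc, map_pow C, map_pow (toK b D N K)]
      exact mul_mem (T2_cube _ _) (pow_mem hxS n)
  have huS : uK b D N K ∈ T2_sub K x := by
    have h1 := uK_eq h K
    have h2 : uK b D N K = toK b D N K b * uK b D N K ^ 3 -
        toK b D N K N / toK b D N K D := by
      rw [h1]; ring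
    rw [h2]
    exact sub_mem (mul_mem (hpS _) (T2_cube _ _)) (div_mem (hpS _) (hpS _))
  have hbD : toK b D N K (b * D) ≠ 0 := hne _ (mul_ne_zero h.b_monic.ne_zero h.D_monic.ne_zero)
  have homS : algebraMap (Cub k[X] b D N) K Cub.om ∈ T2_sub K x := by
    have h1 : algebraMap (Cub k[X] b D N) K Cub.om = uK b D N K * toK b D N K (b * D) := by
      rw [uK, div_mul_cancel₀ _ hbD]
    rw [h1]
    exact mul_mem huS (hpS _)
  have hthS : algebraMap (Cub k[X] b D N) K Cub.th ∈ T2_sub K x := by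
    have h1 := congrArg (algebraMap (Cub k[X] b D N) K) (Cub.om_mul_om (b := b) (D := D) (N := N))
    rw [map_mul, map_mul] at h1
    have h2 : algebraMap (Cub k[X] b D N) K Cub.th =
        algebraMap (Cub k[X] b D N) K Cub.om * algebraMap (Cub k[X] b D N) K Cub.om /
          toK b D N K (b * D) := by
      rw [h1, eq_div_iff hbD, mul_comm]
      rfl
    rw [h2]
    exact div_mem (mul_mem homS homS) (hpS _)
  have hAS : ∀ z : Cub k[X] b D N, algebraMap (Cub k[X] b D N) K z ∈ T2_sub K x := by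
    intro z
    rw [Cub.eq_basis z, map_add, map_add, map_mul, map_mul]
    exact add_mem (add_mem (hpS _) (mul_mem (hpS _) homS)) (mul_mem (hpS _) hthS)
  have hKS : ∀ z : K, z ∈ T2_sub K x := by
    intro z
    obtain ⟨p, q, _, rfl⟩ := IsFractionRing.div_surjective (A := Cub k[X] b D N) z
    exact div_mem (hAS p) (hAS q)
  refine ⟨?_, fun z => hKS z⟩
  intro g hg
  -- every element is a cube
  have hcube : ∀ z : K, ∃ f : K, z = f ^ 3 := by
    intro z
    obtain ⟨g0, g1, g2, hz⟩ := hKS z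
    refine ⟨g0 + g1 * g + g2 * g ^ 2, ?_⟩
    rw [hz, ← hg]
    simp only [add_pow_char, mul_pow]
    ring
  obtain ⟨f, hf⟩ := hcube (algebraMap (Cub k[X] b D N) K Cub.om)
  obtain ⟨z, w, hw, rfl⟩ := IsFractionRing.div_surjective (A := Cub k[X] b D N) f
  have hw0 : w ≠ 0 := nonZeroDivisors.ne_zero hw
  have hwK : algebraMap (Cub k[X] b D N) K w ≠ 0 := fun h0 =>
    hw0 (hinj (by rw [h0, map_zero]))
  have hzw : (Cub.om : Cub k[X] b D N) * (w * (w * w)) = z * (z * z) := by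
    apply hinj
    rw [map_mul, map_mul, map_mul, map_mul, map_mul, hf]
    field_simp
  have hom0 : (Cub.om : Cub k[X] b D N) ≠ 0 := fun h0 => one_ne_zero (congrArg Cub.c1 h0)
  have hz0 : z ≠ 0 := by
    rintro rfl
    rw [zero_mul] at hzw
    rcases mul_eq_zero.1 hzw with h1 | h1
    · exact hom0 h1
    · exact mul_ne_zero hw0 (mul_ne_zero hw0 hw0) h1
  have hdeg := congrArg deg hzw
  rw [deg_mul h _ _ hom0 (mul_ne_zero hw0 (mul_ne_zero hw0 hw0)),
    deg_mul h _ _ hw0 (mul_ne_zero hw0 hw0), deg_mul h _ _ hw0 hw0,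
    deg_mul h _ _ hz0 (mul_ne_zero hz0 hz0), deg_mul h _ _ hz0 hz0] at hdeg
  have hN0 : N ≠ 0 := by
    rintro rfl
    have h1 := h.N_deg
    rw [natDegree_zero] at h1
    have h2 := h.hj
    omega
  have hdom : deg (Cub.om : Cub k[X] b D N) = 2 * b.natDegree + 3 * D.natDegree + j := by
    have hb0 := h.b_monic.ne_zero
    have hD0 := h.D_monic.ne_zero
    rw [deg, Cub.nrm_om, natDegree_mul (mul_ne_zero (pow_ne_zero _ hb0) (pow_ne_zero _ hD0)) hN0,
      natDegree_mul (pow_ne_zero _ hb0) (pow_ne_zero _ hD0), natDegree_pow, natDegree_pow, h.N_deg]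
    ring
  rw [hdom] at hdeg
  have h3 := h.h3
  omega

end Pool.Agent.PR3
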