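import Pool.Agent.LibPR3.G
import Pool.Agent.LibPR3.I2
import Pool.Agent.LibPR3.T1
import Pool.Agent.LibPR3.T2
import Pool.Agent.LibPR3.S3
import Pool.Agent.LibPR3.E
import Pool.Agent.LibPR3.N3
import Pool.Agent.LibPR3.B
import Pool.Agent.LibPR3.P

set_option autoImplicit false

open Polynomial TensorProduct

namespace Pool.Agent.PR3

theorem isPuncturedCurve {k : Type} [Field k] [IsAlgClosed k] [CharP k 3] {b D N : k[X]} {j : ℕ}
    (h : Data k b D N j) :
    IsPuncturedCurve k (Cub k[X] b D N) deg (b.natDegree + 2 * D.natDegree + j - 1) where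
  finiteType := finiteType b D N
  dedekind := isDedekindDomain h
  notField := not_isField h
  deg_mul := deg_mul h
  deg_add := deg_add h
  deg_lead := deg_lead h
  gaps := gaps h

theorem card_class_aux {k : Type} [Field k] [IsAlgClosed k] [CharP k 3] {b D N : k[X]} {j : ℕ}
    (h : Data k b D N j) [IsDomain (Cub k[X] b D N)]
    (K : Type) [Field K] [Algebra (Cub k[X] b D N) K] [IsFractionRing (Cub k[X] b D N) K] :
    Nat.card {c : ClassGroup (Cub k[X] b D N) // c ^ 3 = 1} =
      3 ^ (2 * D.natDegree + eps b) := by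
  have hD := isDedekindDomain h
  have hinj : Function.Injective (toK b D N K) := by
    intro p q hpq
    have h1 := IsFractionRing.injective (Cub k[X] b D N) K hpq
    have h2 := congrArg Cub.c0 h1
    simpa using h2
  have hchar : CharP K 3 := charP_of_injective_ringHom (f := (toK b D N K)) hinj 3
  obtain ⟨hx, hK⟩ := pbasis h K
  obtain ⟨dd, hdx, h3, hker⟩ := exists_derivation K (toK b D N K X) hx hK
  have hconst : ∀ c : k, dd (toK b D N K (C c)) = 0 := by
    intro c
    obtain ⟨d, hd⟩ := IsAlgClosed.exists_pow_nat_eq c (n := 3) (by norm_num)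
    rw [← hd, C_pow, map_pow, Derivation.leibniz_pow]
    have : (3 : K) = 0 := by exact_mod_cast CharP.cast_eq_zero K 3
    simp [this]
  have := finiteType b D N
  rw [card_torsion (k := k) (K := K) (not_isField h) (fun u hu => eq_const_of_isUnit h u hu)
    (fun m hm f => residue m hm f) dd (fun c => hconst c) h3 hker _ rfl
    (span_fg h K dd hconst hdx) ?_, card_forms h K dd hconst hdx,
    card_N3 b D N h.b_monic.ne_zero h.b_deg h.D_monic h.D_sep h.hbD]
  intro hbot
  have h1 : (1 : K) ∈ Submodule.span (Cub k[X] b D N)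
      (Set.range fun f : Cub k[X] b D N => dd (algebraMap (Cub k[X] b D N) K f)) :=
    Submodule.subset_span ⟨algebraMap k[X] _ X, hdx⟩
  rw [hbot, Submodule.mem_bot] at h1
  exact one_ne_zero h1

theorem card_class {k : Type} [Field k] [IsAlgClosed k] [CharP k 3] {b D N : k[X]} {j : ℕ}
    (h : Data k b D N j) [IsDomain (Cub k[X] b D N)] :
    Nat.card {c : ClassGroup (Cub k[X] b D N) // c ^ 3 = 1} =
      3 ^ (2 * D.natDegree + eps b) :=
  card_class_aux h (FractionRing (Cub k[X] b D N))

/-- For all `g` and `f < g` there is a curve of genus `g` and `3`-rank `f` over `F_3`. -/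
theorem main (g f : ℕ) (hf : f < g) :
    ∃ (A : Type) (_ : CommRing A) (_ : Algebra (ZMod 3) A) (B : Type) (_ : CommRing B)
      (_ : IsDomain B) (_ : Algebra (AlgebraicClosure (ZMod 3)) B) (dg : B → ℕ),
      Algebra.FiniteType (ZMod 3) A ∧
      Nonempty ((AlgebraicClosure (ZMod 3)) ⊗[ZMod 3] A ≃ₐ[AlgebraicClosure (ZMod 3)] B) ∧
      IsPuncturedCurve (AlgebraicClosure (ZMod 3)) B dg g ∧
      Nat.card {c : ClassGroup B // c ^ 3 = 1} = 3 ^ f := by
  obtain ⟨b, D, N, j, h, hg, hf'⟩ := exists_data g f hf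
  have h' := data_map (ZMod 3) (AlgebraicClosure (ZMod 3)) b D N j h
  have hdom := isDomain h'
  refine ⟨Cub (ZMod 3)[X] b D N, inferInstance, inferInstance,
    Cub (AlgebraicClosure (ZMod 3))[X] (b.map (algebraMap _ _)) (D.map (algebraMap _ _))
      (N.map (algebraMap _ _)), inferInstance, hdom, inferInstance, deg,
    finiteType b D N, baseChange _ _ b D N, ?_, ?_⟩
  · have h1 := isPuncturedCurve h'
    rw [natDegree_map, natDegree_map, hg] at h1
    exact h1
  · rw [card_class h', natDegree_map, ← hf']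
    congr 2
    simp [eps, coeff_map]
end Pool.Agent.PR3
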